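import Pool.Agent.K1H75.KR.Stem

/-!
# Characters of an abelian normal subgroup
-/

set_option autoImplicit false

open scoped Classical

set_option linter.unusedSectionVars false

noncomputable section

namespace Pool.Agent.K1H75.KR

open Pool.Agent.Y63.KR (surfaceWord map_surfaceWord)

section

variable {Γ : Type} [Group Γ] {N : Subgroup Γ} {K : Type} [Field K]

/-- a character of `N`, extended by zero -/
def ev (t : N →* Kˣ) (z : Γ) : K := if h : z ∈ N then ((t ⟨z, h⟩ : Kˣ) : K) else 0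

lemma ev_of_mem (t : N →* Kˣ) {z : Γ} (h : z ∈ N) : ev t z = ((t ⟨z, h⟩ : Kˣ) : K) := dif_pos h

lemma ev_of_not_mem (t : N →* Kˣ) {z : Γ} (h : z ∉ N) : ev t z = 0 := dif_neg h

lemma ev_one (t : N →* Kˣ) : ev t (1 : Γ) = 1 := by
  rw [ev_of_mem t N.one_mem]
  have : (⟨1, N.one_mem⟩ : N) = 1 := rfl
  rw [this, map_one, Units.val_one]

lemma ev_ne_zero (t : N →* Kˣ) {z : Γ} (h : z ∈ N) : ev t z ≠ 0 := by
  rw [ev_of_mem t h]
  exact (t _).ne_zero

lemma ev_mul_left (t : N →* Kˣ) {n : Γ} (hn : n ∈ N) (z : Γ) : ev t (n * z) = ev t n * ev t z := by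
  by_cases hz : z ∈ N
  · rw [ev_of_mem t hn, ev_of_mem t hz, ev_of_mem t (N.mul_mem hn hz), ← Units.val_mul, ← map_mul]
    rfl
  · rw [ev_of_not_mem t hz, mul_zero, ev_of_not_mem t]
    intro h
    exact hz ((N.mul_mem_cancel_left hn).1 h)

lemma ev_mul_right (t : N →* Kˣ) {n : Γ} (hn : n ∈ N) (z : Γ) : ev t (z * n) = ev t z * ev t n := by
  by_cases hz : z ∈ N
  · exact ev_mul_left t hz n
  · rw [ev_of_not_mem t hz, zero_mul, ev_of_not_mem t]
    intro h
    exact hz ((N.mul_mem_cancel_right hn).1 h)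

lemma ev_inv (t : N →* Kˣ) {n : Γ} (hn : n ∈ N) : ev t n⁻¹ = (ev t n)⁻¹ := by
  refine eq_inv_of_mul_eq_one_left ?_
  rw [← ev_mul_left t (N.inv_mem hn), inv_mul_cancel, ev_one]

/-- two characters with the same values are equal -/
lemma ev_ext {t s : N →* Kˣ} (h : ∀ n ∈ N, ev t n = ev s n) : t = s := by
  ext n
  have := h n n.2
  rw [ev_of_mem t n.2, ev_of_mem s n.2] at this
  exact this

/-- conjugation of elements of `N` -/
lemma conj_mem' [N.Normal] {n : Γ} (hn : n ∈ N) (g : Γ) : g * n * g⁻¹ ∈ N :=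
  (inferInstance : N.Normal).conj_mem n hn g

/-- the stabiliser of a character -/
def stab [N.Normal] (t : N →* Kˣ) : Subgroup Γ where
  carrier := {g | ∀ n ∈ N, ev t (g * n * g⁻¹) = ev t n}
  one_mem' := by
    intro n _
    simp
  mul_mem' := by
    intro a b ha hb n hn
    have h1 : a * b * n * (a * b)⁻¹ = a * (b * n * b⁻¹) * a⁻¹ := by group
    rw [h1, ha _ (conj_mem' hn b), hb n hn]
  inv_mem' := by
    intro a ha n hn
    have h1 := ha (a⁻¹ * n * a⁻¹⁻¹) (conj_mem' hn a⁻¹)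
    have h2 : a * (a⁻¹ * n * a⁻¹⁻¹) * a⁻¹ = n := by group
    rw [h2] at h1
    exact h1.symm

lemma mem_stab [N.Normal] {t : N →* Kˣ} {g : Γ} :
    g ∈ stab t ↔ ∀ n ∈ N, ev t (g * n * g⁻¹) = ev t n := Iff.rfl

lemma le_stab [N.Normal] (hab : ∀ a ∈ N, ∀ b ∈ N, a * b = b * a) (t : N →* Kˣ) : N ≤ stab t := by
  intro g hg n hn
  rw [hab g hg n hn, mul_assoc, mul_inv_cancel, mul_one]

/-- functions which transform under `N` by `t` -/
structure IsS (t : N →* Kˣ) (Psi : Γ → K) : Prop where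
  left : ∀ n ∈ N, ∀ z, Psi (n * z) = ev t n * Psi z
  right : ∀ n ∈ N, ∀ z, Psi (z * n) = Psi z * ev t n

lemma isS_ev (t : N →* Kˣ) : IsS t (ev t) :=
  ⟨fun _ hn z => ev_mul_left t hn z, fun _ hn z => ev_mul_right t hn z⟩

end

section

variable {Γ : Type} [Group Γ] [Fintype Γ] {N : Subgroup Γ} [hN : N.Normal] {K : Type} [Field K]

/-- translations in the first variable -/
lemma sum_first_zero {t : N →* Kˣ} {Psi : Γ → K} (hS : IsS t Psi) {z : Γ} (hz : z ∈ stab t) (w : Γ → K)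
    {n : Γ} (hn : n ∈ N) (hw : ∀ a, w (n * a) = w a) {b : Γ} (hb : ev t (b * n * b⁻¹) ≠ ev t n) :
    ∑ a, w a * Psi (z * cm (a, b)) = 0 := by
  have h1 : ∀ a : Γ, w (n * a) * Psi (z * cm (n * a, b)) =
      (ev t n * (ev t (b * n * b⁻¹))⁻¹) * (w a * Psi (z * cm (a, b))) := by
    intro a
    have e1 : z * cm (n * a, b) = (z * n * z⁻¹) * ((z * cm (a, b)) * (b * n * b⁻¹)⁻¹) := by
      unfold cm
      group
    rw [e1, hS.left _ (conj_mem' hn z), hS.right _ (N.inv_mem (conj_mem' hn b)),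
      ev_inv t (conj_mem' hn b), hz n hn, hw]
    ring
  have h2 : ∑ a, w a * Psi (z * cm (a, b)) =
      (ev t n * (ev t (b * n * b⁻¹))⁻¹) * ∑ a, w a * Psi (z * cm (a, b)) := by
    rw [Finset.mul_sum]
    refine (Equiv.sum_comp (Equiv.mulLeft n) fun a => w a * Psi (z * cm (a, b))).symm.trans ?_
    exact Finset.sum_congr rfl fun a _ => h1 a
  have h3 : ev t n * (ev t (b * n * b⁻¹))⁻¹ ≠ 1 := by
    intro h
    rw [mul_inv_eq_one₀ (ev_ne_zero t (conj_mem' hn b))] at h
    exact hb h.symm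
  by_contra hne
  exact h3 (mul_right_cancel₀ hne (by rw [one_mul]; exact h2.symm))

/-- translations in the second variable -/
lemma sum_second_zero {t : N →* Kˣ} {Psi : Γ → K} (hS : IsS t Psi) {z : Γ} (hz : z ∈ stab t) (w : Γ → K)
    {n : Γ} (hn : n ∈ N) (hw : ∀ b, w (n * b) = w b) {a : Γ} (ha : ev t (a * n * a⁻¹) ≠ ev t n) :
    ∑ b, w b * Psi (z * cm (a, b)) = 0 := by
  have h1 : ∀ b : Γ, w (n * b) * Psi (z * cm (a, n * b)) =
      (ev t (a * n * a⁻¹) * (ev t n)⁻¹) * (w b * Psi (z * cm (a, b))) := by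
    intro b
    have e1 : z * cm (a, n * b) = (z * (a * n * a⁻¹) * z⁻¹) * ((z * cm (a, b)) * n⁻¹) := by
      unfold cm
      group
    rw [e1, hS.left _ (conj_mem' (conj_mem' hn a) z), hS.right _ (N.inv_mem hn),
      ev_inv t hn, hz _ (conj_mem' hn a), hw]
    ring
  have h2 : ∑ b, w b * Psi (z * cm (a, b)) =
      (ev t (a * n * a⁻¹) * (ev t n)⁻¹) * ∑ b, w b * Psi (z * cm (a, b)) := by
    rw [Finset.mul_sum]
    refine (Equiv.sum_comp (Equiv.mulLeft n) fun b => w b * Psi (z * cm (a, b))).symm.trans ?_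
    exact Finset.sum_congr rfl fun b _ => h1 b
  have h3 : ev t (a * n * a⁻¹) * (ev t n)⁻¹ ≠ 1 := by
    intro h
    rw [mul_inv_eq_one₀ (ev_ne_zero t hn)] at h
    exact ha h
  by_contra hne
  exact h3 (mul_right_cancel₀ hne (by rw [one_mul]; exact h2.symm))

/-- **Restriction to the stabiliser.** The weight `w` is invariant under the translations by `C`. -/
theorem sum_cm_stab (hab : ∀ a ∈ N, ∀ b ∈ N, a * b = b * a) {t : N →* Kˣ} {Psi : Γ → K} (hS : IsS t Psi)
    {z : Γ} (hz : z ∈ stab t) (w : Γ → Γ → K) (C : Subgroup Γ) (hC : C ≤ N)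
    (hw1 : ∀ n ∈ C, ∀ a b, w (n * a) b = w a b) (hw2 : ∀ n ∈ C, ∀ a b, w a (n * b) = w a b)
    (M : Subgroup Γ) (hCM : C ≤ M)
    (hM : ∀ b ∈ M, (∀ n ∈ C, ev t (b * n * b⁻¹) = ev t n) → b ∈ stab t) :
    ∑ a, ∑ b, (if a ∈ M ∧ b ∈ M then w a b * Psi (z * cm (a, b)) else 0) =
    ∑ a, ∑ b, (if a ∈ M ⊓ stab t ∧ b ∈ M ⊓ stab t then w a b * Psi (z * cm (a, b)) else 0) := by
  have hCs : C ≤ stab t := hC.trans (le_stab hab t)
  -- first step: `b` in the stabiliser
  have s1 : ∑ a, ∑ b, (if a ∈ M ∧ b ∈ M then w a b * Psi (z * cm (a, b)) else 0) =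
      ∑ a, ∑ b, (if a ∈ M ∧ b ∈ M ⊓ stab t then w a b * Psi (z * cm (a, b)) else 0) := by
    rw [Finset.sum_comm, Finset.sum_comm (f := fun a b => if a ∈ M ∧ b ∈ M ⊓ stab t then
      w a b * Psi (z * cm (a, b)) else 0)]
    refine Finset.sum_congr rfl fun b _ => ?_
    by_cases hbM : b ∈ M
    · by_cases hbs : b ∈ stab t
      · refine Finset.sum_congr rfl fun a _ => ?_
        have : b ∈ M ⊓ stab t := ⟨hbM, hbs⟩
        simp only [hbM, this, and_true]
      · have h0 : ∀ a, (if a ∈ M ∧ b ∈ M ⊓ stab t then w a b * Psi (z * cm (a, b)) else 0) = 0 := by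
          intro a
          rw [if_neg]
          rintro ⟨_, h⟩
          exact hbs h.2
        rw [Finset.sum_eq_zero fun a _ => h0 a]
        obtain ⟨n, hn, hne⟩ : ∃ n ∈ C, ev t (b * n * b⁻¹) ≠ ev t n := by
          by_contra hno
          push Not at hno
          exact hbs (hM b hbM hno)
        have h1 := sum_first_zero hS hz (fun a => if a ∈ M then w a b else 0) (hC hn) ?_ hne
        · refine Eq.trans ?_ h1
          refine Finset.sum_congr rfl fun a _ => ?_
          by_cases haM : a ∈ M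
          · rw [if_pos ⟨haM, hbM⟩, if_pos haM]
          · rw [if_neg (fun h => haM h.1), if_neg haM, zero_mul]
        · intro a
          rw [hw1 n hn]
          simp only [M.mul_mem_cancel_left (hCM hn)]
    · refine Finset.sum_congr rfl fun a _ => ?_
      rw [if_neg (fun h => hbM h.2), if_neg (fun h => hbM h.2.1)]
  rw [s1]
  refine Finset.sum_congr rfl fun a _ => ?_
  by_cases haM : a ∈ M
  · by_cases has : a ∈ stab t
    · refine Finset.sum_congr rfl fun b _ => ?_
      have : a ∈ M ⊓ stab t := ⟨haM, has⟩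
      simp only [haM, this, true_and]
    · have h0 : ∀ b, (if a ∈ M ⊓ stab t ∧ b ∈ M ⊓ stab t then w a b * Psi (z * cm (a, b)) else 0) = 0 := by
        intro b
        rw [if_neg]
        rintro ⟨h, _⟩
        exact has h.2
      rw [Finset.sum_eq_zero fun b _ => h0 b]
      obtain ⟨n, hn, hne⟩ : ∃ n ∈ C, ev t (a * n * a⁻¹) ≠ ev t n := by
        by_contra hno
        push Not at hno
        exact has (hM a haM hno)
      have h1 := sum_second_zero hS hz (fun b => if b ∈ M ⊓ stab t then w a b else 0) (hC hn) ?_ hne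
      · refine Eq.trans ?_ h1
        refine Finset.sum_congr rfl fun b _ => ?_
        by_cases hb : b ∈ M ⊓ stab t
        · rw [if_pos ⟨haM, hb⟩, if_pos hb]
        · rw [if_neg (fun h => hb h.2), if_neg hb, zero_mul]
      · intro b
        rw [hw2 n hn]
        simp only [(M ⊓ stab t).mul_mem_cancel_left (⟨hCM hn, hCs hn⟩ : n ∈ M ⊓ stab t)]
  · refine Finset.sum_congr rfl fun b _ => ?_
    rw [if_neg (fun h => haM h.1), if_neg (fun h => haM h.1.1)]

/-! ### Orthogonality -/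

/-- a family of characters which is closed under multiplication by `s` -/
lemma sum_char_zero (A : Finset (N →* Kˣ)) (s : N →* Kˣ) (hA : ∀ t, s * t ∈ A ↔ t ∈ A) {z : Γ}
    (hz : z ∈ N) (hs : ev s z ≠ 1) : ∑ t ∈ A, ev t z = 0 := by
  have h1 : ∀ t : N →* Kˣ, ev (s * t) z = ev s z * ev t z := by
    intro t
    rw [ev_of_mem _ hz, ev_of_mem _ hz, ev_of_mem _ hz, ← Units.val_mul]
    rfl
  have h2 : ∑ t ∈ A, ev t z = ev s z * ∑ t ∈ A, ev t z := by
    rw [Finset.mul_sum]
    symm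
    refine Finset.sum_bij (fun t _ => s * t) (fun t ht => (hA t).2 ht) ?_ ?_ ?_
    · intro t _ u _ h
      exact mul_left_cancel h
    · intro t ht
      have e : s * (s⁻¹ * t) = t := by
        ext n
        simp
      refine ⟨s⁻¹ * t, ?_, e⟩
      rw [← hA, e]
      exact ht
    · intro t _
      exact (h1 t).symm
  by_contra hne
  exact hs (mul_right_cancel₀ hne (by rw [one_mul]; exact h2.symm))

end

end Pool.Agent.K1H75.KR
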