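import Pool.Agent.K1H75.KR.AbLoc

/-!
# Complements of a normal `p'`-subgroup and sums over cosets
-/

set_option autoImplicit false

open scoped Classical Pointwise

set_option linter.unusedSectionVars false

noncomputable section

namespace Pool.Agent.K1H75.KR

open Pool.Agent.Y63.KR (conjSub mem_conjSub conj_mem_conjSub conjSub_eq_iff W fixedPoset conjSub_mul
  conjSub_inv_conjSub conjSub_injective)

section

variable {Γ : Type} [Group Γ] [Fintype Γ] {N : Subgroup Γ} [hN : N.Normal] {K : Type} [Field K]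

lemma sum_right_coset (S : Subgroup Γ) (m : Γ) :
    ∑ x : Γ, (if x * m⁻¹ ∈ S then (1 : K) else 0) = (Nat.card S : K) := by
  rw [← Equiv.sum_comp (Equiv.mulRight m)]
  have h1 : ∀ x : Γ, (if (Equiv.mulRight m) x * m⁻¹ ∈ S then (1 : K) else 0) = if x ∈ S then 1 else 0 := by
    intro x
    have : (Equiv.mulRight m) x * m⁻¹ = x := by
      change x * m * m⁻¹ = x
      group
    rw [this]
  rw [Finset.sum_congr rfl fun x _ => h1 x, sum_mem S fun _ => (1 : K), Finset.sum_const, nsmul_eq_mul,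
    mul_one, Finset.card_univ, Nat.card_eq_fintype_card]

/-- sums over `D = N M` -/
theorem sum_cosets (D M : Subgroup Γ) (hND : N ≤ D) (hMD : M ≤ D) (hD : ∀ x ∈ D, ∃ n ∈ N, n * x ∈ M)
    (G : Γ → K) (hG : ∀ n ∈ N, ∀ x ∈ D, G (n * x) = G x) :
    (Nat.card (N ⊓ M : Subgroup Γ) : K) * ∑ x, (if x ∈ D then G x else 0) =
      (Nat.card N : K) * ∑ x, (if x ∈ M then G x else 0) := by
  have h1 : (Nat.card N : K) * ∑ m, (if m ∈ M then G m else 0) =
      ∑ m, ∑ x, (if m ∈ M ∧ x * m⁻¹ ∈ N then G x else 0) := by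
    rw [Finset.mul_sum]
    refine Finset.sum_congr rfl fun m _ => ?_
    by_cases hm : m ∈ M
    · rw [if_pos hm, ← sum_right_coset N m, Finset.sum_mul]
      refine Finset.sum_congr rfl fun x _ => ?_
      by_cases hx : x * m⁻¹ ∈ N
      · rw [if_pos hx, if_pos ⟨hm, hx⟩, one_mul]
        have h2 := hG _ hx m (hMD hm)
        rw [inv_mul_cancel_right] at h2
        exact h2.symm
      · rw [if_neg hx, if_neg (fun h => hx h.2), zero_mul]
    · rw [if_neg hm, mul_zero]
      symm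
      refine Finset.sum_eq_zero fun x _ => ?_
      rw [if_neg (fun h => hm h.1)]
  rw [h1, Finset.sum_comm, Finset.mul_sum]
  refine Finset.sum_congr rfl fun x _ => ?_
  by_cases hx : x ∈ D
  · rw [if_pos hx]
    obtain ⟨n, hn, hm⟩ := hD x hx
    rw [← sum_right_coset (N ⊓ M) (n * x), Finset.sum_mul]
    refine Finset.sum_congr rfl fun m _ => ?_
    have h3 : m * (n * x)⁻¹ ∈ N ⊓ M ↔ m ∈ M ∧ x * m⁻¹ ∈ N := by
      have e1 : m * (n * x)⁻¹ ∈ M ↔ m ∈ M := M.mul_mem_cancel_right (M.inv_mem hm)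
      have e2 : m * (n * x)⁻¹ ∈ N ↔ x * m⁻¹ ∈ N := by
        have e3 : m * (n * x)⁻¹ = (x * m⁻¹)⁻¹ * n⁻¹ := by group
        rw [e3, N.mul_mem_cancel_right (N.inv_mem hn), N.inv_mem_iff]
      constructor
      · intro h
        exact ⟨e1.1 h.2, e2.1 h.1⟩
      · intro h
        exact ⟨e2.2 h.2, e1.2 h.1⟩
    by_cases h : m ∈ M ∧ x * m⁻¹ ∈ N
    · rw [if_pos h, if_pos (h3.2 h), one_mul]
    · rw [if_neg h, if_neg (fun h' => h (h3.1 h')), zero_mul]
  · rw [if_neg hx, mul_zero]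
    symm
    refine Finset.sum_eq_zero fun m _ => ?_
    rw [if_neg]
    rintro ⟨hm, hxm⟩
    apply hx
    have := D.mul_mem (hND hxm) (hMD hm)
    rwa [inv_mul_cancel_right] at this

end

/-! ### Complements -/

section

variable {p : ℕ} [hp : Fact p.Prime] {Γ : Type} [Group Γ] [Fintype Γ] {N : Subgroup Γ} [hN : N.Normal]

/-- **Conjugacy of the complements.** -/
theorem exists_conj (hpN : ¬ p ∣ Nat.card N) {P Q : Subgroup Γ} (hP : IsPGroup p P) (hQ : IsPGroup p Q)
    (h : Q.map (QuotientGroup.mk' N) = P.map (QuotientGroup.mk' N)) : ∃ n ∈ N, conjSub n P = Q := by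
  set f := QuotientGroup.mk' N with hf
  let E : Subgroup Γ := (P.map f).comap f
  have hPE : P ≤ E := Subgroup.le_comap_map f P
  have hQE : Q ≤ E := by
    change Q ≤ (P.map f).comap f
    rw [← h]
    exact Subgroup.le_comap_map f Q
  have key : ∀ R : Subgroup Γ, IsPGroup p R → R ≤ E → R.map f = P.map f →
      ∃ S : Sylow p E, (S : Subgroup E) = R.subgroupOf E := by
    intro R hR hRE hRP
    refine ⟨⟨R.subgroupOf E, hR.comap_subtype, ?_⟩, rfl⟩
    intro S hS hle
    refine le_antisymm ?_ hle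
    intro s hs
    have hS' : IsPGroup p (S.map E.subtype) := hS.map _
    have h1 : f (s : Γ) ∈ R.map f := by
      rw [hRP]
      exact s.2
    obtain ⟨x, hx, hxs⟩ := h1
    have h2 : x ∈ S.map E.subtype := ⟨⟨x, hRE hx⟩, hle (Subgroup.mem_subgroupOf.2 hx), rfl⟩
    have h3 : (s : Γ) ∈ S.map E.subtype := ⟨s, hs, rfl⟩
    have h4 : x = s := injOn_p (f := f) (ker_card hpN) hS' h2 h3 hxs
    rw [Subgroup.mem_subgroupOf, ← h4]
    exact hx
  obtain ⟨SP, hSP⟩ := key P hP hPE rfl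
  obtain ⟨SQ, hSQ⟩ := key Q hQ hQE h
  obtain ⟨g, hg⟩ := MulAction.exists_smul_eq E SP SQ
  have h1 : conjSub (g : Γ) P = Q := by
    ext y
    rw [mem_conjSub]
    have h2 : ((g • SP : Sylow p E) : Subgroup E) = (SQ : Subgroup E) := by rw [hg]
    rw [Sylow.coe_subgroup_smul, hSP, hSQ] at h2
    constructor
    · intro hy
      have hyE : y ∈ E := by
        have h3 : y = (g : Γ) * ((g : Γ)⁻¹ * y * (g : Γ)) * (g : Γ)⁻¹ := by simp [mul_assoc]
        rw [h3]
        exact E.mul_mem (E.mul_mem g.2 (hPE hy)) (E.inv_mem g.2)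
      have h4 : (⟨y, hyE⟩ : E) ∈ (MulAut.conj g • P.subgroupOf E : Subgroup E) := by
        rw [Subgroup.mem_pointwise_smul_iff_inv_smul_mem, Subgroup.mem_subgroupOf]
        change ((MulAut.conj g)⁻¹ (⟨y, hyE⟩ : E) : Γ) ∈ P
        rw [MulAut.conj_inv_apply]
        exact hy
      rw [h2] at h4
      exact Subgroup.mem_subgroupOf.1 h4
    · intro hy
      have h4 : (⟨y, hQE hy⟩ : E) ∈ (MulAut.conj g • P.subgroupOf E : Subgroup E) := by
        rw [h2]
        exact Subgroup.mem_subgroupOf.2 hy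
      rw [Subgroup.mem_pointwise_smul_iff_inv_smul_mem, Subgroup.mem_subgroupOf] at h4
      have h5 : ((MulAut.conj g)⁻¹ (⟨y, hQE hy⟩ : E) : Γ) ∈ P := h4
      rw [MulAut.conj_inv_apply] at h5
      exact h5
  obtain ⟨x, hx, hxg⟩ : f (g : Γ) ∈ P.map f := g.2
  refine ⟨g * x⁻¹, ?_, ?_⟩
  · have h2 : f (g * x⁻¹) = 1 := by
      rw [map_mul, map_inv, hxg, mul_inv_cancel]
    exact (QuotientGroup.eq_one_iff _).1 h2
  · rw [conjSub_mul]
    have h2 : conjSub x⁻¹ P = P := mem_Mn.1 ((Mn P).inv_mem (le_Mn P hx))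
    rw [h2, h1]

/-- the Frattini argument -/
theorem exists_mul_mem (hpN : ¬ p ∣ Nat.card N) {P : Subgroup Γ} (hP : IsPGroup p P) {x : Γ}
    (hx : conjSub (QuotientGroup.mk' N x) (P.map (QuotientGroup.mk' N)) = P.map (QuotientGroup.mk' N)) :
    ∃ n ∈ N, n * x ∈ Mn P := by
  have h1 : (conjSub x P).map (QuotientGroup.mk' N) = P.map (QuotientGroup.mk' N) := by
    rw [map_conjSub, hx]
  obtain ⟨n, hn, h2⟩ := exists_conj hpN (hP.map _ : IsPGroup p (conjSub x P)) hP h1.symm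
  refine ⟨n, hn, mem_Mn.2 ?_⟩
  rw [conjSub_mul]
  exact h2

end

section

variable {p : ℕ} [hp : Fact p.Prime] {Γ : Type} [Group Γ] [Fintype Γ] {N : Subgroup Γ} [hN : N.Normal]
  {K : Type} [Field K] [Fintype (Subgroup Γ)]

/-- the number of complements -/
theorem card_compl (hpN : ¬ p ∣ Nat.card N) {P : Subgroup Γ} (hP : IsPGroup p P) :
    ((Finset.univ.filter fun Q : Subgroup Γ => IsPGroup p Q ∧
      Q.map (QuotientGroup.mk' N) = P.map (QuotientGroup.mk' N)).card : K) *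
      (Nat.card (N ⊓ Mn P : Subgroup Γ) : K) = (Nat.card N : K) := by
  set B := Finset.univ.filter fun Q : Subgroup Γ => IsPGroup p Q ∧
      Q.map (QuotientGroup.mk' N) = P.map (QuotientGroup.mk' N) with hB
  have h1 : ∑ n : Γ, (if n ∈ N then (1 : K) else 0) =
      ∑ Q ∈ B, ∑ n : Γ, (if n ∈ N ∧ conjSub n P = Q then (1 : K) else 0) := by
    rw [Finset.sum_comm]
    refine Finset.sum_congr rfl fun n _ => ?_
    by_cases hn : n ∈ N
    · rw [if_pos hn, Finset.sum_eq_single (conjSub n P)]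
      · rw [if_pos ⟨hn, rfl⟩]
      · intro Q _ hQ
        rw [if_neg (fun h => hQ h.2.symm)]
      · intro h
        refine absurd ?_ h
        rw [hB, Finset.mem_filter]
        refine ⟨Finset.mem_univ _, hP.map _, ?_⟩
        rw [map_conjSub]
        have h2 : (QuotientGroup.mk' N) n = 1 := (QuotientGroup.eq_one_iff n).2 hn
        rw [h2, Pool.Agent.Y63.KR.conjSub_one]
    · rw [if_neg hn]
      symm
      refine Finset.sum_eq_zero fun Q _ => ?_
      rw [if_neg (fun h => hn h.1)]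
  have h2 : ∀ Q ∈ B, ∑ n : Γ, (if n ∈ N ∧ conjSub n P = Q then (1 : K) else 0) =
      (Nat.card (N ⊓ Mn P : Subgroup Γ) : K) := by
    intro Q hQ
    rw [hB, Finset.mem_filter] at hQ
    obtain ⟨m, hm, rfl⟩ := exists_conj hpN hP hQ.2.1 hQ.2.2
    rw [← Equiv.sum_comp (Equiv.mulLeft m)]
    have h3 : ∀ n : Γ, (if (Equiv.mulLeft m) n ∈ N ∧ conjSub ((Equiv.mulLeft m) n) P = conjSub m P
        then (1 : K) else 0) = if n ∈ N ⊓ Mn P then 1 else 0 := by
      intro n
      have h4 : ((Equiv.mulLeft m) n ∈ N ∧ conjSub ((Equiv.mulLeft m) n) P = conjSub m P) ↔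
          n ∈ N ⊓ Mn P := by
        change (m * n ∈ N ∧ conjSub (m * n) P = conjSub m P) ↔ _
        rw [N.mul_mem_cancel_left hm, conjSub_mul, (conjSub_injective m).eq_iff]
        exact ⟨fun h => ⟨h.1, mem_Mn.2 h.2⟩, fun h => ⟨h.1, mem_Mn.1 h.2⟩⟩
      simp only [h4]
    rw [Finset.sum_congr rfl fun n _ => h3 n, sum_mem (N ⊓ Mn P) fun _ => (1 : K), Finset.sum_const,
      nsmul_eq_mul, mul_one, Finset.card_univ, Nat.card_eq_fintype_card]
  rw [Finset.sum_congr rfl h2, Finset.sum_const, nsmul_eq_mul, sum_mem N fun _ => (1 : K),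
    Finset.sum_const, nsmul_eq_mul, mul_one, Finset.card_univ] at h1
  rw [← h1, Nat.card_eq_fintype_card (α := N)]

end

end Pool.Agent.K1H75.KR
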