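import Pool.Agent.K1H75.KR.AbSum
import Mathlib.NumberTheory.Padics.Complex

/-!
# Abelian normal `p'`-subgroups: the reduction
-/

set_option autoImplicit false

open scoped Classical Topology
open Filter

set_option linter.unusedSectionVars false

noncomputable section

namespace Pool.Agent.K1H75.KR

open Pool.Agent.Y63.KR (conjSub conjSub_eq_iff W fixedPoset surfaceWord map_surfaceWord KRC)

/-! ### Sums over fibres -/

section

variable {K : Type} [Field K]

lemma sum_fibK {T T' : Type} [Group T] [Group T'] [Fintype T] [Fintype T'] (F : T →* T')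
    (hF : Function.Surjective F) (φ : T' → K) :
    ∑ t, φ (F t) = (Nat.card F.ker : K) * ∑ t', φ t' := by
  rw [← Finset.sum_fiberwise Finset.univ F, Finset.mul_sum]
  refine Finset.sum_congr rfl fun t' _ => ?_
  have h1 : ∀ t ∈ Finset.univ.filter (fun t => F t = t'), φ (F t) = φ t' := by
    intro t ht
    rw [(Finset.mem_filter.1 ht).2]
  rw [Finset.sum_congr rfl h1, Finset.sum_const, nsmul_eq_mul]
  congr 1
  refine congrArg (Nat.cast : ℕ → K) ?_
  obtain ⟨t₀, rfl⟩ := hF t'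
  rw [← Fintype.card_subtype, ← Nat.card_eq_fintype_card]
  refine Nat.card_congr
    { toFun := fun t => ⟨t₀⁻¹ * t.1, ?_⟩
      invFun := fun k => ⟨t₀ * k.1, ?_⟩
      left_inv := fun t => Subtype.ext (by simp)
      right_inv := fun k => Subtype.ext (by simp) }
  · rw [MonoidHom.mem_ker, map_mul, map_inv, t.2, inv_mul_cancel]
  · have h2 : F k.1 = 1 := k.2
    rw [map_mul, h2, mul_one]

variable {H H' : Type} [Group H] [Group H'] [Fintype H] [Fintype H'] {f : H →* H'}

lemma sum_pairs (hs : Function.Surjective f) (φ : H' → H' → K) :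
    ∑ a, ∑ b, φ (f a) (f b) = (Nat.card f.ker : K) ^ 2 * ∑ a, ∑ b, φ a b := by
  have h1 : ∀ a, ∑ b, φ (f a) (f b) = (Nat.card f.ker : K) * ∑ b, φ (f a) b := fun a =>
    sum_fibK f hs fun b => φ (f a) b
  rw [Finset.sum_congr rfl fun a _ => h1 a, ← Finset.mul_sum,
    sum_fibK f hs fun a => ∑ b, φ a b]
  ring

lemma sum_tuples (g : ℕ) (hs : Function.Surjective f) (φ : (Fin g → H' × H') → K) :
    ∑ q : Fin g → H × H, φ (fun i => (f (q i).1, f (q i).2)) =
      (Nat.card f.ker : K) ^ (2 * g) * ∑ r, φ r := by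
  let F : (Fin g → H × H) →* (Fin g → H' × H') :=
    { toFun := fun q i => (f (q i).1, f (q i).2)
      map_one' := by
        funext i
        simp
      map_mul' := fun q r => by
        funext i
        simp }
  have hF : Function.Surjective F := by
    intro r
    choose a ha using fun i => hs (r i).1
    choose b hb using fun i => hs (r i).2
    exact ⟨fun i => (a i, b i), funext fun i => Prod.ext (ha i) (hb i)⟩
  refine (sum_fibK F hF φ).trans ?_
  congr 1
  have h3 : Nat.card F.ker = Nat.card (Fin g → f.ker × f.ker) := by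
    refine Nat.card_congr
      { toFun := fun t i => (⟨(t.1 i).1, ?_⟩, ⟨(t.1 i).2, ?_⟩)
        invFun := fun t => ⟨fun i => ((t i).1.1, (t i).2.1), ?_⟩
        left_inv := fun t => rfl
        right_inv := fun t => rfl }
    · exact congrArg Prod.fst (congrFun (t.2 : F t.1 = 1) i)
    · exact congrArg Prod.snd (congrFun (t.2 : F t.1 = 1) i)
    · change F _ = 1
      funext i
      exact Prod.ext (t i).1.2 (t i).2.2
  rw [h3, Nat.card_fun, Nat.card_prod, Nat.card_eq_fintype_card (α := Fin g), Fintype.card_fin]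
  push_cast
  rw [pow_mul]
  ring

end

section

variable {K : Type} [Field K] {L : Type} [Group L] [Fintype L]

lemma sum_Nzs (g : ℕ) (ps : L → K) :
    ∑ z : L, ps z * (Nzs g L z : K) = ∑ r : Fin g → L × L, ps (surfaceWord r) := by
  unfold Nzs
  have h3 : ∀ z : L, ps z * ((∑ q : Fin g → L × L, (if surfaceWord q = z then (1 : ℤ) else 0) : ℤ) : K) =
      ∑ q : Fin g → L × L, if surfaceWord q = z then ps z else 0 := by
    intro z
    rw [Int.cast_sum, Finset.mul_sum]
    refine Finset.sum_congr rfl fun q _ => ?_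
    split_ifs
    · rw [Int.cast_one, mul_one]
    · rw [Int.cast_zero, mul_zero]
  rw [Finset.sum_congr rfl fun z _ => h3 z, Finset.sum_comm]
  refine Finset.sum_congr rfl fun q _ => ?_
  rw [Finset.sum_ite_eq, if_pos (Finset.mem_univ _)]

lemma sum_AKs (p : ℕ) (ps : L → K) :
    ∑ z : L, ps z * (AKs p L z : K) =
      ∑ u, ∑ v, ((W p ({u, v} : Set L) : ℤ) : K) * ps (cm (u, v)) := by
  unfold AKs
  have h3 : ∀ z : L, ps z * ((∑ q : L × L,
      (if cm q = z then W p ({q.1, q.2} : Set L) else 0) : ℤ) : K) =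
      ∑ q : L × L, if cm q = z then ps z * ((W p ({q.1, q.2} : Set L) : ℤ) : K) else 0 := by
    intro z
    rw [Int.cast_sum, Finset.mul_sum]
    refine Finset.sum_congr rfl fun q _ => ?_
    split_ifs
    · rfl
    · rw [Int.cast_zero, mul_zero]
  rw [Finset.sum_congr rfl fun z _ => h3 z, Finset.sum_comm, Fintype.sum_prod_type]
  refine Finset.sum_congr rfl fun u _ => Finset.sum_congr rfl fun v _ => ?_
  rw [Finset.sum_ite_eq, if_pos (Finset.mem_univ _), mul_comm]

end

/-! ### The quotient of the stabiliser -/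

section

variable {Γ : Type} [Group Γ] {N : Subgroup Γ} [hN : N.Normal] {K : Type} [Field K]

lemma mem_of_ev {t : N →* Kˣ} {x : Γ} (h : ev t x ≠ 0) : x ∈ N := by
  by_contra hx
  exact h (ev_of_not_mem t hx)

/-- the kernel of a character in its stabiliser -/
def kt (t : N →* Kˣ) : Subgroup (stab t) where
  carrier := {x | ev t (x : Γ) = 1}
  one_mem' := ev_one t
  mul_mem' := by
    intro a b ha hb
    have ha' : ev t (a : Γ) = 1 := ha
    have hb' : ev t (b : Γ) = 1 := hb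
    have haN : (a : Γ) ∈ N := mem_of_ev (by rw [ha']; exact one_ne_zero)
    change ev t ((a : Γ) * b) = 1
    rw [ev_mul_left t haN, ha', hb', one_mul]
  inv_mem' := by
    intro a ha
    have ha' : ev t (a : Γ) = 1 := ha
    have haN : (a : Γ) ∈ N := mem_of_ev (by rw [ha']; exact one_ne_zero)
    change ev t ((a : Γ)⁻¹) = 1
    rw [ev_inv t haN, ha', inv_one]

lemma mem_kt {t : N →* Kˣ} {x : stab t} : x ∈ kt t ↔ ev t (x : Γ) = 1 := Iff.rfl

lemma kt_mem {t : N →* Kˣ} {x : stab t} (h : x ∈ kt t) : (x : Γ) ∈ N :=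
  mem_of_ev (by rw [mem_kt.1 h]; exact one_ne_zero)

instance (t : N →* Kˣ) : (kt t).Normal := by
  constructor
  intro x hx g
  rw [mem_kt]
  change ev t ((g : Γ) * x * (g : Γ)⁻¹) = 1
  rw [g.2 _ (kt_mem hx)]
  exact hx

/-- the quotient of the stabiliser by the kernel -/
abbrev Lt (t : N →* Kˣ) : Type := stab t ⧸ kt t

/-- the induced function on the quotient -/
def psi (t : N →* Kˣ) (l : Lt t) : K := ev t ((Quotient.out l : stab t) : Γ)

lemma psi_mk (t : N →* Kˣ) (x : stab t) : psi t (QuotientGroup.mk' (kt t) x) = ev t (x : Γ) := by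
  unfold psi
  obtain ⟨k, hk⟩ := QuotientGroup.mk_out_eq_mul (kt t) x
  have h1 : (Quotient.out (QuotientGroup.mk' (kt t) x) : stab t) = x * k := hk
  rw [h1]
  change ev t ((x : Γ) * ((k : stab t) : Γ)) = _
  rw [ev_mul_right t (kt_mem k.2), mem_kt.1 k.2, mul_one]

/-- the image of `N` -/
def Zt (t : N →* Kˣ) : Subgroup (Lt t) := (N.subgroupOf (stab t)).map (QuotientGroup.mk' (kt t))

lemma psi_support {t : N →* Kˣ} {l : Lt t} (h : psi t l ≠ 0) : l ∈ Zt t := by
  obtain ⟨x, rfl⟩ := QuotientGroup.mk'_surjective (kt t) l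
  rw [psi_mk] at h
  exact ⟨x, Subgroup.mem_subgroupOf.2 (mem_of_ev h), rfl⟩

lemma Zt_central {t : N →* Kˣ} {z : Lt t} (hz : z ∈ Zt t) (x : Lt t) : x * z = z * x := by
  obtain ⟨n, hn, rfl⟩ := hz
  obtain ⟨y, rfl⟩ := QuotientGroup.mk'_surjective (kt t) x
  rw [← map_mul, ← map_mul]
  refine QuotientGroup.eq.2 ?_
  have hn' : (n : Γ) ∈ N := Subgroup.mem_subgroupOf.1 hn
  rw [mem_kt]
  change ev t (((y : Γ) * n)⁻¹ * ((n : Γ) * y)) = 1
  have e1 : ((y : Γ) * n)⁻¹ * ((n : Γ) * y) = (n : Γ)⁻¹ * ((y : Γ)⁻¹ * n * (y : Γ)⁻¹⁻¹) := by group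
  rw [e1, ev_mul_left t (N.inv_mem hn'), ev_inv t hn', ((stab t).inv_mem y.2) _ hn',
    inv_mul_cancel₀ (ev_ne_zero t hn')]

/-- the map to the quotient by `N` -/
def gt (t : N →* Kˣ) : Lt t →* Γ ⧸ N :=
  QuotientGroup.lift (kt t) ((QuotientGroup.mk' N).comp (stab t).subtype) fun x hx =>
    (QuotientGroup.eq_one_iff (x : Γ)).2 (kt_mem hx)

lemma gt_mk (t : N →* Kˣ) (x : stab t) :
    gt t (QuotientGroup.mk' (kt t) x) = QuotientGroup.mk' N (x : Γ) := rfl

lemma gt_range (t : N →* Kˣ) : (gt t).range = (stab t).map (QuotientGroup.mk' N) := by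
  ext y
  constructor
  · rintro ⟨l, rfl⟩
    obtain ⟨x, rfl⟩ := QuotientGroup.mk'_surjective (kt t) l
    exact ⟨x, x.2, rfl⟩
  · rintro ⟨x, hx, rfl⟩
    exact ⟨QuotientGroup.mk' (kt t) ⟨x, hx⟩, rfl⟩

lemma gt_ker {t : N →* Kˣ} {l : Lt t} (h : gt t l = 1) : l ∈ Zt t := by
  obtain ⟨x, rfl⟩ := QuotientGroup.mk'_surjective (kt t) l
  rw [gt_mk] at h
  exact ⟨x, Subgroup.mem_subgroupOf.2 ((QuotientGroup.eq_one_iff _).1 h), rfl⟩

lemma Zt_card {p : ℕ} [Finite Γ] (hpN : ¬ p ∣ Nat.card N) (t : N →* Kˣ) : ¬ p ∣ Nat.card (Zt t) := by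
  intro h
  apply hpN
  have h1 : Nat.card (Zt t) ∣ Nat.card (N.subgroupOf (stab t)) :=
    Subgroup.card_map_dvd (N.subgroupOf (stab t)) (QuotientGroup.mk' (kt t))
  have h2 : Nat.card (N.subgroupOf (stab t)) ∣ Nat.card N := by
    refine Subgroup.card_dvd_of_injective
      (((stab t).subtype.comp (N.subgroupOf (stab t)).subtype).codRestrict N fun x =>
        Subgroup.mem_subgroupOf.1 x.2) ?_
    intro x y hxy
    exact Subtype.ext (Subtype.ext (congrArg (fun z : N => (z : Γ)) hxy))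
  exact (h.trans h1).trans h2

lemma gt_central {p : ℕ} [Finite Γ] (hpN : ¬ p ∣ Nat.card N) (t : N →* Kˣ) : CentralKer p (gt t) := by
  refine ⟨fun z hz x => Zt_central (gt_ker hz) x, fun h => Zt_card hpN t (h.trans ?_)⟩
  exact Subgroup.card_dvd_of_le fun l hl => gt_ker hl

end

section

variable {p : ℕ} [hp : Fact p.Prime] {Γ : Type} [Group Γ] [Fintype Γ] {N : Subgroup Γ} [hN : N.Normal]
  {K : Type} [Field K]

lemma kt_card (t : N →* Kˣ) : Nat.card (QuotientGroup.mk' (kt t)).ker = Nat.card (kt t) := by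
  rw [QuotientGroup.ker_mk']

/-- the contribution of a character to the tuples -/
theorem part_tuples (g : ℕ) (t : N →* Kˣ) :
    ∑ q : Fin g → stab t × stab t, ev t ((surfaceWord q : stab t) : Γ) =
      (Nat.card (kt t) : K) ^ (2 * g) * ∑ z : Lt t, psi t z * (Nzs g (Lt t) z : K) := by
  have h1 := sum_tuples (K := K) g (QuotientGroup.mk'_surjective (kt t))
    (fun r => psi t (surfaceWord r))
  rw [kt_card] at h1
  have h2 : ∑ q : Fin g → stab t × stab t, ev t ((surfaceWord q : stab t) : Γ) =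
      ∑ q : Fin g → stab t × stab t, psi t (surfaceWord fun i =>
        (QuotientGroup.mk' (kt t) (q i).1, QuotientGroup.mk' (kt t) (q i).2)) := by
    refine Finset.sum_congr rfl fun q _ => ?_
    rw [← psi_mk t (surfaceWord q), map_surfaceWord]
  rw [h2, h1, sum_Nzs]

/-- the contribution of a character to the pairs -/
theorem part_pairs (hpN : ¬ p ∣ Nat.card N) (t : N →* Kˣ) :
    ∑ a, ∑ b, (if a ∈ stab t ∧ b ∈ stab t then
      ((ch (Xq p N a b ∩ {P' | P' ≤ (stab t).map (QuotientGroup.mk' N)}) : ℤ) : K) *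
        ev t (cm (a, b)) else 0) =
      (Nat.card (kt t) : K) ^ 2 * ∑ z : Lt t, psi t z * (AKs p (Lt t) z : K) := by
  have h1 := sum_pairs (K := K) (QuotientGroup.mk'_surjective (kt t))
    (fun u v => ((W p ({u, v} : Set (Lt t)) : ℤ) : K) * psi t (cm (u, v)))
  rw [kt_card] at h1
  rw [sum_mem₂ (stab t) fun a b => ((ch (Xq p N a b ∩
    {P' | P' ≤ (stab t).map (QuotientGroup.mk' N)}) : ℤ) : K) * ev t (cm (a, b))]
  have h2 : ∀ a b : stab t, ((ch (Xq p N (a : Γ) (b : Γ) ∩
      {P' | P' ≤ (stab t).map (QuotientGroup.mk' N)}) : ℤ) : K) * ev t (cm ((a : Γ), (b : Γ))) =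
      ((W p ({QuotientGroup.mk' (kt t) a, QuotientGroup.mk' (kt t) b} : Set (Lt t)) : ℤ) : K) *
        psi t (cm (QuotientGroup.mk' (kt t) a, QuotientGroup.mk' (kt t) b)) := by
    intro a b
    rw [W_range (gt_central hpN t), Set.image_pair, gt_mk, gt_mk, gt_range]
    have h3 : cm (QuotientGroup.mk' (kt t) a, QuotientGroup.mk' (kt t) b) =
        QuotientGroup.mk' (kt t) (cm (a, b)) := cm_map (f := QuotientGroup.mk' (kt t)) (a, b)
    rw [h3, psi_mk]
    rfl
  rw [Finset.sum_congr rfl fun a _ => Finset.sum_congr rfl fun b _ => h2 a b, h1, sum_AKs]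

end

/-! ### The limit -/

section

variable {p : ℕ} [hp : Fact p.Prime]

lemma tendsto_algCl {u : ℕ → ℤ} {L : ℤ} :
    Tendsto (fun k => (u k : ℚ_[p])) atTop (𝓝 (L : ℚ_[p])) ↔
    Tendsto (fun k => (u k : PadicAlgCl p)) atTop (𝓝 (L : PadicAlgCl p)) := by
  rw [tendsto_iff_norm_sub_tendsto_zero (b := (L : ℚ_[p])),
    tendsto_iff_norm_sub_tendsto_zero (b := (L : PadicAlgCl p))]
  have h : ∀ k, ‖(u k : PadicAlgCl p) - (L : PadicAlgCl p)‖ = ‖(u k : ℚ_[p]) - (L : ℚ_[p])‖ := by
    intro k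
    have h1 := PadicAlgCl.norm_extends (p := p) ((u k : ℚ_[p]) - (L : ℚ_[p]))
    rw [← h1, map_sub, map_intCast, map_intCast]
  exact ⟨fun h1 => h1.congr fun k => (h k).symm, fun h1 => h1.congr fun k => h k⟩

variable {Γ : Type} [Group Γ] [Fintype Γ] {N : Subgroup Γ} [hN : N.Normal]

/-- **Abelian normal `p'`-subgroups.** -/
theorem krc_abelian (hab : ∀ a ∈ N, ∀ b ∈ N, a * b = b * a) (hpN : ¬ p ∣ Nat.card N)
    (h : ∀ t : N →* (PadicAlgCl p)ˣ, ∀ M : Subgroup (Lt t), ∀ _ : M.Normal, M ≤ Zt t →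
      KRC p (Lt t ⧸ M)) : KRC p Γ := by
  have : Fintype (Subgroup Γ) := Fintype.ofFinite _
  have : Fintype (Subgroup (Γ ⧸ N)) := Fintype.ofFinite _
  have : Fintype (N →* (PadicAlgCl p)ˣ) := Fintype.ofFinite _
  have hgood : ∀ t : N →* (PadicAlgCl p)ˣ, ∀ z ∈ Zt t, Good p (Lt t) z := fun t z hz =>
    good_of_quot (Zt t) (fun w hw x => Zt_central hw x) (Zt_card hpN t) (h t) (orderOf z) z hz le_rfl
  have hlim : Tendsto (fun k => ∑ t : N →* (PadicAlgCl p)ˣ,
      (Nat.card (kt t) : PadicAlgCl p) ^ (2 * (nn p k + 1)) *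
        ∑ z : Lt t, psi t z * (Nzs (nn p k + 1) (Lt t) z : PadicAlgCl p)) atTop
      (𝓝 (∑ t : N →* (PadicAlgCl p)ˣ, (Nat.card (kt t) : PadicAlgCl p) ^ 2 *
        ∑ z : Lt t, psi t z * (AKs p (Lt t) z : PadicAlgCl p))) := by
    refine tendsto_finsetSum _ fun t _ => Tendsto.mul ?_ ?_
    · have hkt : ¬ p ∣ Nat.card (kt t) := by
        intro hd
        apply hpN
        refine hd.trans (Subgroup.card_dvd_of_injective
          (((stab t).subtype.comp (kt t).subtype).codRestrict N fun x => kt_mem x.2) ?_)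
        intro x y hxy
        exact Subtype.ext (Subtype.ext (congrArg (fun z : N => (z : Γ)) hxy))
      have h1 := tendsto_pow (p := p) hkt
      have h2 := (tendsto_algCl (p := p) (u := fun k => (Nat.card (kt t) : ℤ) ^ (2 * (nn p k + 1)))
        (L := (Nat.card (kt t) : ℤ) ^ 2)).1 (by push_cast; exact h1)
      push_cast at h2
      exact h2
    · refine tendsto_finsetSum _ fun z _ => ?_
      by_cases hz : psi t z = 0
      · rw [hz]
        simp
      · exact ((tendsto_algCl (p := p)).1 (hgood t z (psi_support hz))).const_mul _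
  have e1 : ∀ k, ∑ t : N →* (PadicAlgCl p)ˣ,
      (Nat.card (kt t) : PadicAlgCl p) ^ (2 * (nn p k + 1)) *
        ∑ z : Lt t, psi t z * (Nzs (nn p k + 1) (Lt t) z : PadicAlgCl p) =
      (Nat.card N : PadicAlgCl p) * (Nzs (nn p k + 1) Γ 1 : PadicAlgCl p) := by
    intro k
    rw [Nzs_ab hab]
    exact Finset.sum_congr rfl fun t _ => (part_tuples _ t).symm
  have e2 : ∑ t : N →* (PadicAlgCl p)ˣ, (Nat.card (kt t) : PadicAlgCl p) ^ 2 *
        ∑ z : Lt t, psi t z * (AKs p (Lt t) z : PadicAlgCl p) =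
      (Nat.card N : PadicAlgCl p) * (AKs p Γ 1 : PadicAlgCl p) := by
    rw [AKs_ab hab hpN]
    exact Finset.sum_congr rfl fun t _ => (part_pairs hpN t).symm
  rw [e2] at hlim
  simp only [e1] at hlim
  have hN0 : (Nat.card N : PadicAlgCl p) ≠ 0 := by
    exact_mod_cast (Nat.card_pos (α := N)).ne'
  have h3 := hlim.const_mul ((Nat.card N : PadicAlgCl p))⁻¹
  rw [← mul_assoc, inv_mul_cancel₀ hN0, one_mul] at h3
  rw [krc_iff_good]
  unfold Good
  rw [tendsto_algCl]
  refine h3.congr fun k => ?_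
  rw [← mul_assoc, inv_mul_cancel₀ hN0, one_mul]

end

end Pool.Agent.K1H75.KR
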