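import Pool.Agent.K1H75.KR.AbPos

/-!
# Local analysis: characters of the centraliser of a `p`-subgroup
-/

set_option autoImplicit false

open scoped Classical

set_option linter.unusedSectionVars false

noncomputable section

namespace Pool.Agent.K1H75.KR

open Pool.Agent.Y63.KR (conjSub mem_conjSub conj_mem_conjSub conjSub_eq_iff W fixedPoset conjSub_mul
  conjSub_inv_conjSub)

section

variable {p : ℕ} [hp : Fact p.Prime] {Γ : Type} [Group Γ] [Fintype Γ] {N : Subgroup Γ} [hN : N.Normal]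

/-- the normaliser -/
def Mn (P : Subgroup Γ) : Subgroup Γ := Subgroup.normalizer (P : Set Γ)

lemma mem_Mn {P : Subgroup Γ} {x : Γ} : x ∈ Mn P ↔ conjSub x P = P := conjSub_eq_iff.symm

lemma conj_mem_Mn {P : Subgroup Γ} {x y : Γ} (hx : x ∈ Mn P) (hy : y ∈ P) : x * y * x⁻¹ ∈ P := by
  have h1 := conj_mem_conjSub (g := x) hy
  rwa [mem_Mn.1 hx] at h1

lemma le_Mn (P : Subgroup Γ) : P ≤ Mn P := Subgroup.le_normalizer

lemma ker_card (hpN : ¬ p ∣ Nat.card N) : ¬ p ∣ Nat.card (QuotientGroup.mk' N).ker := by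
  rw [QuotientGroup.ker_mk']
  exact hpN

lemma inf_comm (hpN : ¬ p ∣ Nat.card N) {P : Subgroup Γ} (hP : IsPGroup p P) {c : Γ}
    (hc : c ∈ N ⊓ Mn P) {x : Γ} (hx : x ∈ P) : x * c * x⁻¹ = c := by
  have h1 : x * c * x⁻¹ * c⁻¹ = 1 := by
    refine eq_one_of_pker (f := QuotientGroup.mk' N) (ker_card hpN) hP ?_ ?_
    · have h2 := P.mul_mem hx (conj_mem_Mn hc.2 (P.inv_mem hx))
      have h3 : x * (c * x⁻¹ * c⁻¹) = x * c * x⁻¹ * c⁻¹ := by group
      rwa [h3] at h2
    · have h4 : x * c * x⁻¹ * c⁻¹ ∈ N := N.mul_mem (conj_mem' hc.1 x) (N.inv_mem hc.1)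
      exact (QuotientGroup.eq_one_iff _).2 h4
  exact mul_inv_eq_one.1 h1

lemma mem_inf_of_comm {P : Subgroup Γ} {c : Γ} (hc : c ∈ N) (h : ∀ x ∈ P, x * c * x⁻¹ = c) :
    c ∈ N ⊓ Mn P := by
  refine ⟨hc, (mem_Mn.2 ?_ : c ∈ Mn P)⟩
  have h1 : ∀ x ∈ P, c * x * c⁻¹ = x := by
    intro x hx
    have h2 := h x hx
    have h3 : x * c = c * x := by
      rw [mul_inv_eq_iff_eq_mul] at h2
      exact h2
    rw [← h3, mul_assoc, mul_inv_cancel, mul_one]
  ext x
  rw [mem_conjSub]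
  constructor
  · intro hx
    have h2 := h1 _ hx
    have h3 : c * (c⁻¹ * x * c) * c⁻¹ = x := by group
    rw [h3] at h2
    rw [h2]
    exact hx
  · intro hx
    have h2 := h1 x hx
    have h3 : c⁻¹ * x * c = x := by
      conv_lhs => rw [← h2]
      group
    rw [h3]
    exact hx

/-- conjugation on `N` -/
def conjN (N : Subgroup Γ) [N.Normal] (y : Γ) : N →* N where
  toFun n := ⟨y * n * y⁻¹, conj_mem' n.2 y⟩
  map_one' := Subtype.ext (by simp)
  map_mul' a b := Subtype.ext (by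
    change y * (a * b : Γ) * y⁻¹ = (y * a * y⁻¹) * (y * b * y⁻¹)
    group)

lemma pow_coprime_eq_one {G : Type} [Group G] {x : G} {a b : ℕ} (h : a.Coprime b) (ha : x ^ a = 1)
    (hb : x ^ b = 1) : x = 1 := by
  have h1 := orderOf_dvd_of_pow_eq_one ha
  have h2 := orderOf_dvd_of_pow_eq_one hb
  exact orderOf_eq_one_iff.1 (Nat.eq_one_of_dvd_coprimes h h1 h2)

lemma card_coprime (hpN : ¬ p ∣ Nat.card N) {P : Subgroup Γ} (hP : IsPGroup p P) :
    (Nat.card P).Coprime (Nat.card N) := by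
  obtain ⟨k, hk⟩ := IsPGroup.iff_card.1 hP
  rw [hk]
  exact Nat.Coprime.pow_left _ ((Nat.Prime.coprime_iff_not_dvd hp.out).2 hpN)

variable {K : Type} [Field K]

/-- an invariant character which is trivial on the fixed points is trivial -/
theorem inv_char_eq_one (hab : ∀ a ∈ N, ∀ b ∈ N, a * b = b * a) (hpN : ¬ p ∣ Nat.card N)
    {P : Subgroup Γ} (hP : IsPGroup p P) {t : N →* Kˣ} (hPt : P ≤ stab t)
    (h : ∀ c ∈ N ⊓ Mn P, ev t c = 1) : t = 1 := by
  let _ := commN hab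
  ext n
  let nu : N := ∏ x : P, conjN N (x : Γ) n
  have hnu : (nu : Γ) ∈ N ⊓ Mn P := by
    refine mem_inf_of_comm nu.2 fun y hy => ?_
    have h1 : conjN N y nu = nu := by
      change conjN N y (∏ x : P, conjN N (x : Γ) n) = ∏ x : P, conjN N (x : Γ) n
      rw [map_prod]
      refine Eq.trans ?_ (Equiv.prod_comp (Equiv.mulLeft (⟨y, hy⟩ : P)) fun x => conjN N (x : Γ) n)
      refine Finset.prod_congr rfl fun x _ => Subtype.ext ?_
      change y * (x * n * (x : Γ)⁻¹) * y⁻¹ = (y * x) * n * (y * x)⁻¹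
      group
    exact congrArg Subtype.val h1
  have h2 : t nu = t n ^ Nat.card P := by
    change t (∏ x : P, conjN N (x : Γ) n) = _
    rw [map_prod, Nat.card_eq_fintype_card, ← Finset.card_univ, ← Finset.prod_const]
    refine Finset.prod_congr rfl fun x _ => Units.ext ?_
    have h3 := hPt x.2 (n : Γ) n.2
    rw [ev_of_mem t (conj_mem' n.2 (x : Γ)), ev_of_mem t n.2] at h3
    exact h3
  have h4 : t nu = 1 := by
    have h5 := h nu hnu
    rw [ev_of_mem t nu.2] at h5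
    exact Units.ext h5
  rw [h4] at h2
  have h6 : t n = 1 := by
    refine pow_coprime_eq_one (card_coprime hpN hP) h2.symm ?_
    rw [← map_pow, pow_card_eq_one', map_one]
  rw [h6]
  rfl

variable [IsAlgClosed K] [CharZero K]

theorem exists_inv_char (hab : ∀ a ∈ N, ∀ b ∈ N, a * b = b * a) (hpN : ¬ p ∣ Nat.card N)
    {P : Subgroup Γ} (hP : IsPGroup p P) {c : Γ} (hc : c ∈ N ⊓ Mn P) (hc1 : c ≠ 1) :
    ∃ t : N →* Kˣ, P ≤ stab t ∧ ev t c ≠ 1 := by
  obtain ⟨s, hs⟩ := exists_ev_ne (K := K) hab hc.1 hc1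
  let t : N →* Kˣ := ∏ x : P, s.comp (conjN N (x : Γ))
  have ht : ∀ n : N, t n = ∏ x : P, s (conjN N (x : Γ) n) := fun n => MonoidHom.finsetProd_apply _ _ _
  refine ⟨t, ?_, ?_⟩
  · intro y hy n hn
    rw [ev_of_mem t hn, ev_of_mem t (conj_mem' hn y), ht, ht]
    congr 1
    refine Eq.trans ?_ (Equiv.prod_comp (Equiv.mulRight (⟨y, hy⟩ : P)) fun x =>
      s (conjN N (x : Γ) ⟨n, hn⟩))
    refine Finset.prod_congr rfl fun x _ => congrArg s (Subtype.ext ?_)
    change (x : Γ) * (y * n * y⁻¹) * (x : Γ)⁻¹ = ((x : Γ) * y) * n * ((x : Γ) * y)⁻¹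
    group
  · rw [ev_of_mem t hc.1, ht]
    intro h
    have h1 : ∏ x : P, s (conjN N (x : Γ) ⟨c, hc.1⟩) = s ⟨c, hc.1⟩ ^ Nat.card P := by
      rw [Nat.card_eq_fintype_card, ← Finset.card_univ, ← Finset.prod_const]
      refine Finset.prod_congr rfl fun x _ => congrArg s (Subtype.ext ?_)
      exact inf_comm hpN hP hc x.2
    rw [h1] at h
    apply hs
    rw [ev_of_mem s hc.1]
    have h2 : s ⟨c, hc.1⟩ = 1 := by
      refine pow_coprime_eq_one (card_coprime hpN hP) (Units.ext h) ?_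
      rw [← map_pow, pow_card_eq_one', map_one]
    rw [h2, Units.val_one]

variable [Fintype (N →* Kˣ)]

/-- the invariant characters -/
def Ai (K : Type) [Field K] (N : Subgroup Γ) [N.Normal] [Fintype (N →* Kˣ)] (P : Subgroup Γ) :
    Finset (N →* Kˣ) := Finset.univ.filter fun t => P ≤ stab t

lemma mem_Ai {P : Subgroup Γ} {t : N →* Kˣ} : t ∈ Ai K N P ↔ P ≤ stab t := by
  unfold Ai
  rw [Finset.mem_filter]
  simp

lemma ev_mul (s t : N →* Kˣ) (z : Γ) : ev (s * t) z = ev s z * ev t z := by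
  by_cases hz : z ∈ N
  · rw [ev_of_mem _ hz, ev_of_mem _ hz, ev_of_mem _ hz, ← Units.val_mul]
    rfl
  · rw [ev_of_not_mem _ hz, ev_of_not_mem _ hz, zero_mul]

lemma Ai_mul {P : Subgroup Γ} {s : N →* Kˣ} (hs : P ≤ stab s) (t : N →* Kˣ) :
    s * t ∈ Ai K N P ↔ t ∈ Ai K N P := by
  rw [mem_Ai, mem_Ai]
  constructor
  · intro h y hy n hn
    have h1 := h hy n hn
    rw [ev_mul, ev_mul, hs hy n hn] at h1
    exact mul_left_cancel₀ (ev_ne_zero s hn) h1
  · intro h y hy n hn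
    rw [ev_mul, ev_mul, hs hy n hn, h hy n hn]

/-- orthogonality for the invariant characters -/
theorem sum_Ai (hab : ∀ a ∈ N, ∀ b ∈ N, a * b = b * a) (hpN : ¬ p ∣ Nat.card N)
    {P : Subgroup Γ} (hP : IsPGroup p P) {z : Γ} (hz : z ∈ Mn P) :
    ∑ t ∈ Ai K N P, ev t z = if z = 1 then ((Ai K N P).card : K) else 0 := by
  by_cases hzN : z ∈ N
  · by_cases hz1 : z = 1
    · rw [if_pos hz1, hz1, Finset.sum_congr rfl fun t _ => ev_one t, Finset.sum_const, nsmul_eq_mul,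
        mul_one]
    · rw [if_neg hz1]
      obtain ⟨s, hs, hs1⟩ := exists_inv_char (K := K) hab hpN hP ⟨hzN, hz⟩ hz1
      exact sum_char_zero _ s (fun t => Ai_mul hs t) hzN hs1
  · have hz1 : z ≠ 1 := fun h => hzN (h ▸ N.one_mem)
    rw [if_neg hz1]
    exact Finset.sum_eq_zero fun t _ => ev_of_not_mem t hzN

/-- the number of the invariant characters -/
theorem card_Ai (hab : ∀ a ∈ N, ∀ b ∈ N, a * b = b * a) (hpN : ¬ p ∣ Nat.card N)
    {P : Subgroup Γ} (hP : IsPGroup p P) :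
    ((Ai K N P).card : K) = (Nat.card (N ⊓ Mn P : Subgroup Γ) : K) := by
  have h1 : ∑ c : (N ⊓ Mn P : Subgroup Γ), ∑ t ∈ Ai K N P, ev t (c : Γ) = ((Ai K N P).card : K) := by
    rw [Finset.sum_eq_single (1 : (N ⊓ Mn P : Subgroup Γ))]
    · have h1 := sum_Ai (K := K) hab hpN hP (Subgroup.one_mem (Mn P))
      rw [if_pos rfl] at h1
      exact h1
    · intro c _ hc
      have h1 := sum_Ai (K := K) hab hpN hP (z := (c : Γ)) c.2.2
      have hc' : (c : Γ) ≠ 1 := fun h => hc (Subtype.ext h)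
      rw [if_neg hc'] at h1
      exact h1
    · intro h
      exact absurd (Finset.mem_univ _) h
  have h2 : ∑ t ∈ Ai K N P, ∑ c : (N ⊓ Mn P : Subgroup Γ), ev t (c : Γ) =
      (Nat.card (N ⊓ Mn P : Subgroup Γ) : K) := by
    rw [Finset.sum_eq_single (1 : N →* Kˣ)]
    · have h3 : ∀ c : (N ⊓ Mn P : Subgroup Γ), ev (1 : N →* Kˣ) (c : Γ) = 1 := by
        intro c
        rw [ev_of_mem _ c.2.1]
        rfl
      rw [Finset.sum_congr rfl fun c _ => h3 c, Finset.sum_const, nsmul_eq_mul, mul_one,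
        Finset.card_univ, Nat.card_eq_fintype_card]
    · intro t ht ht1
      rw [mem_Ai] at ht
      obtain ⟨c₀, hc₀, hne⟩ : ∃ c ∈ N ⊓ Mn P, ev t c ≠ 1 := by
        by_contra hno
        push Not at hno
        exact ht1 (inv_char_eq_one hab hpN hP ht hno)
      have h4 : ∑ c : (N ⊓ Mn P : Subgroup Γ), ev t (c : Γ) =
          ev t c₀ * ∑ c : (N ⊓ Mn P : Subgroup Γ), ev t (c : Γ) := by
        rw [Finset.mul_sum]
        refine (Equiv.sum_comp (Equiv.mulLeft (⟨c₀, hc₀⟩ : (N ⊓ Mn P : Subgroup Γ)))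
          fun c => ev t (c : Γ)).symm.trans ?_
        refine Finset.sum_congr rfl fun c _ => ?_
        change ev t (c₀ * (c : Γ)) = _
        exact ev_mul_left t hc₀.1 _
      by_contra hne'
      exact hne (mul_right_cancel₀ hne' (by rw [one_mul]; exact h4.symm))
    · intro h
      refine absurd ?_ h
      rw [mem_Ai]
      intro y _ n hn
      rw [ev_of_mem _ hn, ev_of_mem _ (conj_mem' hn y)]
      rfl
  rw [← h1, ← h2, Finset.sum_comm]

end

end Pool.Agent.K1H75.KR
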