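import Pool.Agent.K1H75.KR.AbSurf

/-!
# Posets of `p`-subgroups and quotients by normal `p'`-subgroups
-/

set_option autoImplicit false

open scoped Classical

set_option linter.unusedSectionVars false

noncomputable section

namespace Pool.Agent.K1H75.KR

open Pool.Agent.Y63.KR (conjSub mem_conjSub conj_mem_conjSub conjSub_eq_iff W fixedPoset)

section

variable {α : Type} [PartialOrder α] [Fintype α] [OrderBot α]

/-- intersection with a lower set -/
lemma mo_inter (X Y : Set α) (hY : IsLowerSet Y) (hb : ⊥ ∈ Y) (a : α) :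
    mo (X ∩ Y) a = if a ∈ Y then mo X a else 0 := by
  unfold mo
  by_cases ha : a = ⊥
  · rw [if_pos ha, if_pos ha, ha, if_pos hb]
  · rw [if_neg ha, if_neg ha]
    by_cases haY : a ∈ Y
    · rw [if_pos haY]
      by_cases haX : a ∈ X
      · rw [if_pos haX, if_pos ⟨haX, haY⟩]
        congr 2
        ext b
        constructor
        · rintro ⟨⟨h1, _⟩, h2⟩
          exact ⟨h1, h2⟩
        · rintro ⟨h1, h2⟩
          exact ⟨⟨h1, hY (le_of_lt h2) haY⟩, h2⟩
      · rw [if_neg haX, if_neg (fun h => haX h.1)]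
    · rw [if_neg haY, if_neg (fun h => haY h.2)]

end

section

variable {p : ℕ} [hp : Fact p.Prime] {H H' : Type} [Group H] [Group H'] [Finite H] [Finite H']
  {f : H →* H'}

lemma eq_one_of_pker (hk : ¬ p ∣ Nat.card f.ker) {P : Subgroup H} (hP : IsPGroup p P) {x : H}
    (hx : x ∈ P) (h : f x = 1) : x = 1 := by
  obtain ⟨k, hk'⟩ := hP ⟨x, hx⟩
  have h1 : x ^ p ^ k = 1 := congrArg Subtype.val hk'
  have h3 : orderOf x ∣ p ^ k := orderOf_dvd_of_pow_eq_one h1
  have h4 : orderOf x ∣ Nat.card f.ker := by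
    have := orderOf_dvd_natCard (⟨x, MonoidHom.mem_ker.2 h⟩ : f.ker)
    rwa [Subgroup.orderOf_mk] at this
  have h5 : Nat.Coprime (p ^ k) (Nat.card f.ker) :=
    Nat.Coprime.pow_left _ ((Nat.Prime.coprime_iff_not_dvd Fact.out).2 hk)
  exact orderOf_eq_one_iff.1 (Nat.eq_one_of_dvd_coprimes h5 h3 h4)

lemma injOn_p (hk : ¬ p ∣ Nat.card f.ker) {P : Subgroup H} (hP : IsPGroup p P) {x y : H}
    (hx : x ∈ P) (hy : y ∈ P) (h : f x = f y) : x = y := by
  have h1 : x * y⁻¹ = 1 := eq_one_of_pker hk hP (P.mul_mem hx (P.inv_mem hy)) (by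
    rw [map_mul, map_inv, h, mul_inv_cancel])
  exact mul_inv_eq_one.1 h1

lemma map_le_iff_p (hk : ¬ p ∣ Nat.card f.ker) {P : Subgroup H} (hP : IsPGroup p P) {Q R : Subgroup H}
    (hQ : Q ≤ P) (hR : R ≤ P) : Q.map f ≤ R.map f ↔ Q ≤ R := by
  constructor
  · intro h x hx
    obtain ⟨y, hy, hyx⟩ := h ⟨x, hx, rfl⟩
    rw [← injOn_p hk hP (hR hy) (hQ hx) hyx]
    exact hy
  · intro h
    exact Subgroup.map_mono h

lemma map_bot_iff_p (hk : ¬ p ∣ Nat.card f.ker) {P : Subgroup H} (hP : IsPGroup p P) :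
    P.map f = ⊥ ↔ P = ⊥ := by
  constructor
  · intro h
    have h1 : P.map f ≤ (⊥ : Subgroup H).map f := by
      rw [h]
      exact bot_le
    exact le_bot_iff.1 ((map_le_iff_p hk hP le_rfl bot_le).1 h1)
  · rintro rfl
    exact Subgroup.map_bot f

/-- **The subgroups of a `p`-subgroup and its image.** -/
theorem mo_map [Fintype (Subgroup H)] [Fintype (Subgroup H')] (hk : ¬ p ∣ Nat.card f.ker)
    {P : Subgroup H} (hP : IsPGroup p P) {S : Set H} (hS : ∀ x ∈ S, conjSub x P = P) :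
    mo (fixedPoset p (f '' S)) (P.map f) = mo (fixedPoset p S) P := by
  by_cases h0 : P = ⊥
  · rw [h0, Subgroup.map_bot, mo_bot, mo_bot]
  · have h1 : P.map f ≠ ⊥ := fun h => h0 ((map_bot_iff_p hk hP).1 h)
    have hm : P ∈ fixedPoset p S := ⟨hP, h0, hS⟩
    have hm' : P.map f ∈ fixedPoset p (f '' S) := by
      refine ⟨hP.map f, h1, ?_⟩
      rintro _ ⟨x, hx, rfl⟩
      rw [← map_conjSub, hS x hx]
    unfold mo
    rw [if_neg h1, if_neg h0, if_pos hm, if_pos hm']
    congr 1
    have e : fixedPoset p (f '' S) ∩ Set.Iio (P.map f) =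
        (fun Q : Subgroup H => Q.map f) '' (fixedPoset p S ∩ Set.Iio P) := by
      ext Q'
      constructor
      · rintro ⟨⟨h2, h3, h4⟩, h5'⟩
        have h5 : Q' < P.map f := h5'
        have h6 : (Q'.comap f ⊓ P).map f = Q' := by
          ext y
          constructor
          · rintro ⟨x, hx, rfl⟩
            exact hx.1
          · intro hy
            obtain ⟨x, hx, rfl⟩ := h5.le hy
            exact ⟨x, ⟨hy, hx⟩, rfl⟩
        have h7 : IsPGroup p (Q'.comap f ⊓ P : Subgroup H) := hP.to_le inf_le_right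
        refine ⟨Q'.comap f ⊓ P, ⟨⟨h7, ?_, ?_⟩, ?_⟩, h6⟩
        · intro h
          rw [h, Subgroup.map_bot] at h6
          exact h3 h6.symm
        · intro x hx
          have h8 : conjSub x (Q'.comap f ⊓ P) ≤ P := by
            have := Pool.Agent.Y63.KR.conjSub_le (g := x) (inf_le_right : Q'.comap f ⊓ P ≤ P)
            rwa [hS x hx] at this
          have h9 : (conjSub x (Q'.comap f ⊓ P)).map f = (Q'.comap f ⊓ P).map f := by
            rw [map_conjSub, h6]
            exact h4 _ ⟨x, hx, rfl⟩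
          exact le_antisymm ((map_le_iff_p hk hP h8 inf_le_right).1 h9.le)
            ((map_le_iff_p hk hP inf_le_right h8).1 h9.ge)
        · change Q'.comap f ⊓ P < P
          refine lt_of_le_of_ne inf_le_right fun h => ?_
          rw [h] at h6
          exact absurd h6.symm h5.ne
      · rintro ⟨Q, ⟨⟨h2, h3, h4⟩, h5'⟩, rfl⟩
        have h5 : Q < P := h5'
        refine ⟨⟨h2.map f, fun h => h3 ((map_bot_iff_p hk h2).1 h), ?_⟩, ?_⟩
        · rintro _ ⟨x, hx, rfl⟩
          rw [← map_conjSub, h4 x hx]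
        · change Q.map f < P.map f
          refine lt_of_le_of_ne (Subgroup.map_mono h5.le) fun h => ?_
          exact absurd (le_antisymm h5.le ((map_le_iff_p hk hP le_rfl h5.le).1 h.ge)) h5.ne
    rw [e]
    exact ch_imageOn _ _ fun Q hQ R hR => map_le_iff_p hk hP (le_of_lt hQ.2) (le_of_lt hR.2)

lemma exists_lift' {P' : Subgroup H'} (hP : IsPGroup p P') (hle : P' ≤ f.range) :
    ∃ P : Subgroup H, IsPGroup p P ∧ P.map f = P' := by
  let E : Subgroup H := P'.comap f
  let g : E →* P' := (f.comp E.subtype).codRestrict P' fun x => x.2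
  have hg : Function.Surjective g := by
    rintro ⟨y, hy⟩
    obtain ⟨x, rfl⟩ := hle hy
    exact ⟨⟨x, hy⟩, rfl⟩
  obtain ⟨S⟩ : Nonempty (Sylow p E) := inferInstance
  have htop : IsPGroup p (⊤ : Subgroup P') := hP.of_equiv Subgroup.topEquiv.symm
  have h1 : (⊤ : Subgroup P') = (S.mapSurjective hg : Subgroup P') :=
    (S.mapSurjective hg).is_maximal' htop le_top
  refine ⟨(S : Subgroup E).map E.subtype, S.isPGroup'.map _, ?_⟩
  rw [Sylow.coe_mapSurjective] at h1
  ext y
  constructor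
  · rintro ⟨_, ⟨x, _, rfl⟩, rfl⟩
    exact x.2
  · intro hy
    have h2 : (⟨y, hy⟩ : P') ∈ (⊤ : Subgroup P') := Subgroup.mem_top _
    rw [h1] at h2
    obtain ⟨x, hx, hxy⟩ := h2
    exact ⟨x, ⟨x, hx, rfl⟩, congrArg Subtype.val hxy⟩

/-- the poset of the `p`-subgroups of `H` and the subgroups of the image -/
theorem W_range (hf : CentralKer p f) (K : Set H) :
    W p K = ch (fixedPoset p (f '' K) ∩ {P' | P' ≤ f.range}) := by
  rw [W_ch]
  have h1 : fixedPoset p (f '' K) ∩ {P' | P' ≤ f.range} =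
      (fun P : Subgroup H => P.map f) '' fixedPoset p K := by
    ext P'
    constructor
    · rintro ⟨⟨h1, h2, h3⟩, h4⟩
      obtain ⟨P, hP, rfl⟩ := exists_lift' h1 h4
      refine ⟨P, ⟨hP, ?_, ?_⟩, rfl⟩
      · rintro rfl
        exact h2 (Subgroup.map_bot _)
      · intro x hx
        exact (conjSub_iff hf hP x).1 (h3 _ ⟨x, hx, rfl⟩)
    · rintro ⟨P, ⟨h1, h2, h3⟩, rfl⟩
      refine ⟨⟨h1.map _, ?_, ?_⟩, ?_⟩
      · exact fun h => h2 ((map_bot_iff_p hf.2 h1).1 h)
      · rintro _ ⟨x, hx, rfl⟩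
        exact (conjSub_iff hf h1 x).2 (h3 x hx)
      · exact Subgroup.map_le_range f P
  rw [h1]
  symm
  refine ch_imageOn _ _ ?_
  intro P hP Q hQ
  constructor
  · intro h
    exact le_of_map_le hf hP.1 hQ.1 h
  · intro h
    exact Subgroup.map_mono h

end

end Pool.Agent.K1H75.KR
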