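import Pool.Agent.K1H75.KR.AbCos

/-!
# The local identity
-/

set_option autoImplicit false

open scoped Classical

set_option linter.unusedSectionVars false

noncomputable section

namespace Pool.Agent.K1H75.KR

open Pool.Agent.Y63.KR (conjSub mem_conjSub conj_mem_conjSub conjSub_eq_iff W fixedPoset conjSub_mul
  conjSub_inv_conjSub conjSub_injective)

section

variable {p : ℕ} [hp : Fact p.Prime] {Γ : Type} [Group Γ] [Fintype Γ] {N : Subgroup Γ} [hN : N.Normal]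
  {K : Type} [Field K]

lemma ev_inv_char (t : N →* Kˣ) {z : Γ} (hz : z ∈ N) : ev t⁻¹ z = (ev t z)⁻¹ := by
  rw [ev_of_mem _ hz, ev_of_mem _ hz, ← Units.val_inv_eq_inv_val]
  rfl

lemma ev_mul' (s t : N →* Kˣ) (z : Γ) : ev (s * t) z = ev s z * ev t z := by
  by_cases hz : z ∈ N
  · rw [ev_of_mem _ hz, ev_of_mem _ hz, ev_of_mem _ hz, ← Units.val_mul]
    rfl
  · rw [ev_of_not_mem _ hz, ev_of_not_mem _ hz, zero_mul]

/-- invariant characters with the same values on the fixed points are equal -/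
theorem inv_char_ext (hab : ∀ a ∈ N, ∀ b ∈ N, a * b = b * a) (hpN : ¬ p ∣ Nat.card N)
    {P : Subgroup Γ} (hP : IsPGroup p P) {s t : N →* Kˣ} (hs : P ≤ stab s) (ht : P ≤ stab t)
    (h : ∀ c ∈ N ⊓ Mn P, ev s c = ev t c) : s = t := by
  have h1 : s * t⁻¹ = 1 := by
    refine inv_char_eq_one hab hpN hP ?_ ?_
    · intro y hy n hn
      rw [ev_mul', ev_mul', ev_inv_char t hn, ev_inv_char t (conj_mem' hn y), hs hy n hn, ht hy n hn]
    · intro c hc
      rw [ev_mul', ev_inv_char t hc.1, h c hc, mul_inv_cancel₀ (ev_ne_zero t hc.1)]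
  exact mul_inv_eq_one.1 h1

lemma ev_conj (t : N →* Kˣ) (b : Γ) {n : Γ} (hn : n ∈ N) :
    ev (t.comp (conjN N b)) n = ev t (b * n * b⁻¹) := by
  rw [ev_of_mem _ hn, ev_of_mem _ (conj_mem' hn b)]
  rfl

/-- the stabiliser is detected by the fixed points -/
theorem mem_stab_of_inf (hab : ∀ a ∈ N, ∀ b ∈ N, a * b = b * a) (hpN : ¬ p ∣ Nat.card N)
    {P : Subgroup Γ} (hP : IsPGroup p P) {t : N →* Kˣ} (ht : P ≤ stab t) {b : Γ} (hb : b ∈ Mn P)
    (h : ∀ n ∈ N ⊓ Mn P, ev t (b * n * b⁻¹) = ev t n) : b ∈ stab t := by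
  have h1 : t.comp (conjN N b) = t := by
    refine inv_char_ext hab hpN hP ?_ ht ?_
    · intro y hy n hn
      rw [ev_conj t b hn, ev_conj t b (conj_mem' hn y)]
      have h2 := ht (conj_mem_Mn hb hy) (b * n * b⁻¹) (conj_mem' hn b)
      have h3 : b * y * b⁻¹ * (b * n * b⁻¹) * (b * y * b⁻¹)⁻¹ = b * (y * n * y⁻¹) * b⁻¹ := by group
      rw [h3] at h2
      exact h2
    · intro c hc
      rw [ev_conj t b hc.1]
      exact h c hc
  intro n hn
  rw [← ev_conj t b hn, h1]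

variable [IsAlgClosed K] [CharZero K] [Fintype (N →* Kˣ)]

/-- commuting pairs in the normaliser of `P` -/
theorem loc1 (hab : ∀ a ∈ N, ∀ b ∈ N, a * b = b * a) (hpN : ¬ p ∣ Nat.card N)
    {P : Subgroup Γ} (hP : IsPGroup p P) (w : Γ → Γ → K)
    (hw1 : ∀ n ∈ N, ∀ a b, w (n * a) b = w a b) (hw2 : ∀ n ∈ N, ∀ a b, w a (n * b) = w a b) :
    (Nat.card (N ⊓ Mn P : Subgroup Γ) : K) *
      ∑ a, ∑ b, (if a ∈ Mn P ∧ b ∈ Mn P then (if cm (a, b) = 1 then w a b else 0) else 0) =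
    ∑ t ∈ Ai K N P, ∑ a, ∑ b, (if a ∈ Mn P ⊓ stab t ∧ b ∈ Mn P ⊓ stab t then
      w a b * ev t (cm (a, b)) else 0) := by
  have h1 : ∀ t ∈ Ai K N P, ∑ a, ∑ b, (if a ∈ Mn P ⊓ stab t ∧ b ∈ Mn P ⊓ stab t then
      w a b * ev t (cm (a, b)) else 0) = ∑ a, ∑ b, (if a ∈ Mn P ∧ b ∈ Mn P then
      w a b * ev t (cm (a, b)) else 0) := by
    intro t ht
    rw [mem_Ai] at ht
    have h2 := sum_cm_stab hab (isS_ev t) (stab t).one_mem w (N ⊓ Mn P) inf_le_left
      (fun n hn => hw1 n hn.1) (fun n hn => hw2 n hn.1) (Mn P) inf_le_right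
      (fun b hb h => mem_stab_of_inf hab hpN hP ht hb h)
    simp only [one_mul] at h2
    exact h2.symm
  have e1 : ∑ t ∈ Ai K N P, ∑ a, ∑ b, (if a ∈ Mn P ∧ b ∈ Mn P then w a b * ev t (cm (a, b)) else 0) =
      ∑ a, ∑ b, ∑ t ∈ Ai K N P, (if a ∈ Mn P ∧ b ∈ Mn P then w a b * ev t (cm (a, b)) else 0) :=
    Finset.sum_comm.trans (Finset.sum_congr rfl fun a _ => Finset.sum_comm)
  rw [Finset.sum_congr rfl h1, e1, ← card_Ai hab hpN hP, Finset.mul_sum]
  refine Finset.sum_congr rfl fun a _ => ?_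
  rw [Finset.mul_sum]
  refine Finset.sum_congr rfl fun b _ => ?_
  by_cases hM : a ∈ Mn P ∧ b ∈ Mn P
  · simp only [if_pos hM]
    rw [← Finset.mul_sum]
    have h3 : cm (a, b) ∈ Mn P :=
      (Mn P).mul_mem ((Mn P).mul_mem ((Mn P).mul_mem hM.1 hM.2) ((Mn P).inv_mem hM.1))
        ((Mn P).inv_mem hM.2)
    rw [sum_Ai hab hpN hP h3]
    by_cases h4 : cm (a, b) = 1
    · rw [if_pos h4, if_pos h4, mul_comm]
    · rw [if_neg h4, if_neg h4, mul_zero, mul_zero]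
  · rw [if_neg hM, mul_zero]
    symm
    refine Finset.sum_eq_zero fun t _ => ?_
    rw [if_neg hM]

/-- the elements which normalise the image of `P` -/
def Dn (N : Subgroup Γ) [N.Normal] (P' : Subgroup (Γ ⧸ N)) : Subgroup Γ :=
  (Subgroup.normalizer (P' : Set (Γ ⧸ N))).comap (QuotientGroup.mk' N)

omit [IsAlgClosed K] [CharZero K] [Fintype (N →* Kˣ)] in
lemma mem_Dn {P' : Subgroup (Γ ⧸ N)} {x : Γ} :
    x ∈ Dn N P' ↔ conjSub (QuotientGroup.mk' N x) P' = P' := conjSub_eq_iff.symm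

omit [IsAlgClosed K] [CharZero K] [Fintype (N →* Kˣ)] in
lemma Mn_le_Dn (P : Subgroup Γ) : Mn P ≤ Dn N (P.map (QuotientGroup.mk' N)) := by
  intro x hx
  rw [mem_Dn, ← map_conjSub, mem_Mn.1 hx]

omit [IsAlgClosed K] [CharZero K] [Fintype (N →* Kˣ)] in
lemma N_le_Dn (P' : Subgroup (Γ ⧸ N)) : N ≤ Dn N P' := by
  intro x hx
  have h : (QuotientGroup.mk' N) x = 1 := (QuotientGroup.eq_one_iff x).2 hx
  rw [mem_Dn, h, Pool.Agent.Y63.KR.conjSub_one]

omit [IsAlgClosed K] [CharZero K] [Fintype (N →* Kˣ)] in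
lemma ev_cm_left (t : N →* Kˣ) {n a b : Γ} (hn : n ∈ N) (hb : b ∈ stab t) :
    ev t (cm (n * a, b)) = ev t (cm (a, b)) := by
  have e1 : cm (n * a, b) = n * (cm (a, b) * (b * n * b⁻¹)⁻¹) := by
    unfold cm
    group
  rw [e1, ev_mul_left t hn, ev_mul_right t (N.inv_mem (conj_mem' hn b)), ev_inv t (conj_mem' hn b),
    hb n hn]
  field_simp [ev_ne_zero t hn]

omit [IsAlgClosed K] [CharZero K] [Fintype (N →* Kˣ)] in
lemma ev_cm_right (t : N →* Kˣ) {n a b : Γ} (hn : n ∈ N) (ha : a ∈ stab t) :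
    ev t (cm (a, n * b)) = ev t (cm (a, b)) := by
  have e1 : cm (a, n * b) = (a * n * a⁻¹) * (cm (a, b) * n⁻¹) := by
    unfold cm
    group
  rw [e1, ev_mul_left t (conj_mem' hn a), ev_mul_right t (N.inv_mem hn), ev_inv t hn, ha n hn]
  field_simp [ev_ne_zero t hn]

omit [IsAlgClosed K] [CharZero K] [Fintype (N →* Kˣ)] in
/-- from the normaliser of `P` to the normaliser of the image -/
theorem loc2 (hab : ∀ a ∈ N, ∀ b ∈ N, a * b = b * a) (hpN : ¬ p ∣ Nat.card N)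
    {P : Subgroup Γ} (hP : IsPGroup p P) (w : Γ → Γ → K)
    (hw1 : ∀ n ∈ N, ∀ a b, w (n * a) b = w a b) (hw2 : ∀ n ∈ N, ∀ a b, w a (n * b) = w a b)
    (t : N →* Kˣ) :
    (Nat.card (N ⊓ Mn P : Subgroup Γ) : K) ^ 2 *
      ∑ a, ∑ b, (if a ∈ Dn N (P.map (QuotientGroup.mk' N)) ⊓ stab t ∧
        b ∈ Dn N (P.map (QuotientGroup.mk' N)) ⊓ stab t then w a b * ev t (cm (a, b)) else 0) =
    (Nat.card N : K) ^ 2 *
      ∑ a, ∑ b, (if a ∈ Mn P ⊓ stab t ∧ b ∈ Mn P ⊓ stab t then w a b * ev t (cm (a, b)) else 0) := by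
  set D := Dn N (P.map (QuotientGroup.mk' N)) ⊓ stab t with hD
  set M := Mn P ⊓ stab t with hM
  have hNs : N ≤ stab t := le_stab hab t
  have hND : N ≤ D := le_inf (N_le_Dn _) hNs
  have hMD : M ≤ D := inf_le_inf_right _ (Mn_le_Dn P)
  have hDM : ∀ x ∈ D, ∃ n ∈ N, n * x ∈ M := by
    intro x hx
    obtain ⟨n, hn, h⟩ := exists_mul_mem hpN hP (mem_Dn.1 hx.1)
    exact ⟨n, hn, h, (stab t).mul_mem (hNs hn) hx.2⟩
  have hNM : N ⊓ M = N ⊓ Mn P := by
    ext x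
    constructor
    · intro h
      exact ⟨h.1, h.2.1⟩
    · intro h
      exact ⟨h.1, h.2, hNs h.1⟩
  have split : ∀ (S T : Subgroup Γ), ∑ a, ∑ b, (if a ∈ S ∧ b ∈ T then w a b * ev t (cm (a, b)) else 0) =
      ∑ a, (if a ∈ S then ∑ b, (if b ∈ T then w a b * ev t (cm (a, b)) else 0) else 0) := by
    intro S T
    refine Finset.sum_congr rfl fun a _ => ?_
    by_cases ha : a ∈ S
    · rw [if_pos ha]
      refine Finset.sum_congr rfl fun b _ => ?_
      simp only [ha, true_and]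
    · rw [if_neg ha]
      exact Finset.sum_eq_zero fun b _ => if_neg fun h => ha h.1
  -- the second variable
  have s2 : (Nat.card (N ⊓ Mn P : Subgroup Γ) : K) *
      ∑ a, ∑ b, (if a ∈ D ∧ b ∈ D then w a b * ev t (cm (a, b)) else 0) =
      (Nat.card N : K) * ∑ a, ∑ b, (if a ∈ D ∧ b ∈ M then w a b * ev t (cm (a, b)) else 0) := by
    rw [split, split, Finset.mul_sum, Finset.mul_sum]
    refine Finset.sum_congr rfl fun a _ => ?_
    by_cases ha : a ∈ D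
    · rw [if_pos ha, if_pos ha]
      have h1 := sum_cosets D M hND hMD hDM (fun b => w a b * ev t (cm (a, b))) ?_
      · rw [hNM] at h1
        exact h1
      · intro n hn b _
        rw [hw2 n hn, ev_cm_right t hn ha.2]
    · rw [if_neg ha, if_neg ha, mul_zero, mul_zero]
  -- the first variable
  have s1 : (Nat.card (N ⊓ Mn P : Subgroup Γ) : K) *
      ∑ a, ∑ b, (if a ∈ D ∧ b ∈ M then w a b * ev t (cm (a, b)) else 0) =
      (Nat.card N : K) * ∑ a, ∑ b, (if a ∈ M ∧ b ∈ M then w a b * ev t (cm (a, b)) else 0) := by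
    rw [split, split]
    have h1 := sum_cosets D M hND hMD hDM
      (fun a => ∑ b, (if b ∈ M then w a b * ev t (cm (a, b)) else 0)) ?_
    · rw [hNM] at h1
      exact h1
    · intro n hn a _
      refine Finset.sum_congr rfl fun b _ => ?_
      by_cases hb : b ∈ M
      · rw [if_pos hb, if_pos hb, hw1 n hn, ev_cm_left t hn hb.2]
      · rw [if_neg hb, if_neg hb]
  rw [pow_two, mul_assoc, s2, mul_left_comm, s1]
  ring

lemma Ai_image (hab : ∀ a ∈ N, ∀ b ∈ N, a * b = b * a) (P : Subgroup Γ) :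
    Ai K N P = Finset.univ.filter fun t : N →* Kˣ =>
      P.map (QuotientGroup.mk' N) ≤ (stab t).map (QuotientGroup.mk' N) := by
  ext t
  rw [mem_Ai, Finset.mem_filter]
  constructor
  · intro h
    exact ⟨Finset.mem_univ _, Subgroup.map_mono h⟩
  · rintro ⟨_, h⟩ x hx
    obtain ⟨y, hy, hyx⟩ := h ⟨x, hx, rfl⟩
    have h1 : y⁻¹ * x ∈ N := by
      rw [← QuotientGroup.eq_one_iff]
      change (QuotientGroup.mk' N) (y⁻¹ * x) = 1
      rw [map_mul, map_inv, hyx, inv_mul_cancel]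
    have h2 := (stab t).mul_mem hy (le_stab hab t h1)
    rwa [mul_inv_cancel_left] at h2

/-- **The local identity.** -/
theorem star [Fintype (Subgroup Γ)] (hab : ∀ a ∈ N, ∀ b ∈ N, a * b = b * a) (hpN : ¬ p ∣ Nat.card N)
    {P' : Subgroup (Γ ⧸ N)} (hP' : IsPGroup p P') (w : Γ → Γ → K)
    (hw1 : ∀ n ∈ N, ∀ a b, w (n * a) b = w a b) (hw2 : ∀ n ∈ N, ∀ a b, w a (n * b) = w a b) :
    (Nat.card N : K) * ∑ Q ∈ Finset.univ.filter (fun Q : Subgroup Γ => IsPGroup p Q ∧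
      Q.map (QuotientGroup.mk' N) = P'),
      ∑ a, ∑ b, (if a ∈ Mn Q ∧ b ∈ Mn Q then (if cm (a, b) = 1 then w a b else 0) else 0) =
    ∑ t ∈ Finset.univ.filter (fun t : N →* Kˣ => P' ≤ (stab t).map (QuotientGroup.mk' N)),
      ∑ a, ∑ b, (if a ∈ Dn N P' ⊓ stab t ∧ b ∈ Dn N P' ⊓ stab t then
        w a b * ev t (cm (a, b)) else 0) := by
  obtain ⟨P, hP, hPP⟩ := exists_lift (QuotientGroup.mk'_surjective N) hP'
  set B := Finset.univ.filter (fun Q : Subgroup Γ => IsPGroup p Q ∧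
      Q.map (QuotientGroup.mk' N) = P') with hB
  set V := ∑ t ∈ Finset.univ.filter (fun t : N →* Kˣ => P' ≤ (stab t).map (QuotientGroup.mk' N)),
      ∑ a, ∑ b, (if a ∈ Dn N P' ⊓ stab t ∧ b ∈ Dn N P' ⊓ stab t then
        w a b * ev t (cm (a, b)) else 0) with hV
  have hN0 : (Nat.card N : K) ≠ 0 := by
    exact_mod_cast (Nat.card_pos (α := N)).ne'
  have hc : ∀ Q ∈ B, (Nat.card (N ⊓ Mn Q : Subgroup Γ) : K) = (Nat.card (N ⊓ Mn P : Subgroup Γ) : K) := by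
    intro Q hQ
    rw [hB, Finset.mem_filter] at hQ
    rw [← card_Ai hab hpN hQ.2.1, ← card_Ai hab hpN hP, Ai_image hab, Ai_image hab, hQ.2.2, hPP]
  have hU : ∀ Q ∈ B, (Nat.card N : K) ^ 2 *
      ∑ a, ∑ b, (if a ∈ Mn Q ∧ b ∈ Mn Q then (if cm (a, b) = 1 then w a b else 0) else 0) =
      (Nat.card (N ⊓ Mn P : Subgroup Γ) : K) * V := by
    intro Q hQ
    rw [← hc Q hQ]
    rw [hB, Finset.mem_filter] at hQ
    have hC0 : (Nat.card (N ⊓ Mn Q : Subgroup Γ) : K) ≠ 0 := by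
      exact_mod_cast (Nat.card_pos (α := (N ⊓ Mn Q : Subgroup Γ))).ne'
    have h1 := loc1 (K := K) hab hpN hQ.2.1 w hw1 hw2
    have h2 : (Nat.card (N ⊓ Mn Q : Subgroup Γ) : K) ^ 2 * V = (Nat.card N : K) ^ 2 *
        ∑ t ∈ Ai K N Q, ∑ a, ∑ b, (if a ∈ Mn Q ⊓ stab t ∧ b ∈ Mn Q ⊓ stab t then
          w a b * ev t (cm (a, b)) else 0) := by
      rw [hV, Finset.mul_sum, Finset.mul_sum, Ai_image hab, hQ.2.2]
      refine Finset.sum_congr rfl fun t _ => ?_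
      have h3 := loc2 hab hpN hQ.2.1 w hw1 hw2 t
      rw [hQ.2.2] at h3
      exact h3
    refine mul_left_cancel₀ hC0 ?_
    rw [← h1] at h2
    linear_combination -h2
  have hsum : (Nat.card N : K) ^ 2 * ∑ Q ∈ B,
      ∑ a, ∑ b, (if a ∈ Mn Q ∧ b ∈ Mn Q then (if cm (a, b) = 1 then w a b else 0) else 0) =
      (Nat.card N : K) * V := by
    rw [Finset.mul_sum, Finset.sum_congr rfl hU, Finset.sum_const, nsmul_eq_mul, ← mul_assoc]
    congr 1
    have := card_compl (K := K) hpN hP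
    rw [hPP] at this
    exact this
  refine mul_left_cancel₀ hN0 ?_
  rw [← hsum]
  ring

end

end Pool.Agent.K1H75.KR
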