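import Pool.Agent.K1H75.KR.AbStar

/-!
# The sum over the commuting pairs of a group with an abelian normal `p'`-subgroup
-/

set_option autoImplicit false

open scoped Classical

set_option linter.unusedSectionVars false

noncomputable section

namespace Pool.Agent.K1H75.KR

open Pool.Agent.Y63.KR (conjSub conjSub_eq_iff W fixedPoset)

section

variable {p : ℕ} [hp : Fact p.Prime] {Γ : Type} [Group Γ] [Fintype Γ] {N : Subgroup Γ} [hN : N.Normal]
  {K : Type} [Field K] [Fintype (Subgroup Γ)] [Fintype (Subgroup (Γ ⧸ N))]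

/-- the poset in the quotient -/
def Xq (p : ℕ) (N : Subgroup Γ) [N.Normal] (a b : Γ) : Set (Subgroup (Γ ⧸ N)) :=
  fixedPoset p ({QuotientGroup.mk' N a, QuotientGroup.mk' N b} : Set (Γ ⧸ N))

lemma Xq_left {n : Γ} (hn : n ∈ N) (a b : Γ) : Xq p N (n * a) b = Xq p N a b := by
  unfold Xq
  have h : (QuotientGroup.mk' N) n = 1 := (QuotientGroup.eq_one_iff n).2 hn
  rw [map_mul, h, one_mul]

lemma Xq_right {n : Γ} (hn : n ∈ N) (a b : Γ) : Xq p N a (n * b) = Xq p N a b := by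
  unfold Xq
  have h : (QuotientGroup.mk' N) n = 1 := (QuotientGroup.eq_one_iff n).2 hn
  rw [map_mul, h, one_mul]

lemma mo_quot (hpN : ¬ p ∣ Nat.card N) (a b : Γ) (P : Subgroup Γ) :
    mo (fixedPoset p ({a, b} : Set Γ)) P = if IsPGroup p P ∧ a ∈ Mn P ∧ b ∈ Mn P then
      mo (Xq p N a b) (P.map (QuotientGroup.mk' N)) else 0 := by
  by_cases h : IsPGroup p P ∧ a ∈ Mn P ∧ b ∈ Mn P
  · rw [if_pos h]
    have h1 := mo_map (f := QuotientGroup.mk' N) (ker_card hpN) h.1 (S := ({a, b} : Set Γ)) (by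
      rintro x (rfl | rfl)
      · exact mem_Mn.1 h.2.1
      · exact mem_Mn.1 h.2.2)
    rw [Set.image_pair] at h1
    exact h1.symm
  · rw [if_neg h]
    refine mo_eq_zero _ ?_ ?_
    · rintro rfl
      refine h ⟨IsPGroup.of_bot, ?_, ?_⟩
      · exact mem_Mn.2 (Subgroup.map_bot _)
      · exact mem_Mn.2 (Subgroup.map_bot _)
    · rintro ⟨h1, _, h3⟩
      exact h ⟨h1, mem_Mn.2 (h3 a (by simp)), mem_Mn.2 (h3 b (by simp))⟩

lemma mo_Xq_zero (a b : Γ) {P' : Subgroup (Γ ⧸ N)} (h : ¬ (IsPGroup p P' ∧ a ∈ Dn N P' ∧ b ∈ Dn N P')) :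
    mo (Xq p N a b) P' = 0 := by
  refine mo_eq_zero _ ?_ ?_
  · rintro rfl
    refine h ⟨IsPGroup.of_bot, ?_, ?_⟩
    · exact mem_Dn.2 (Subgroup.map_bot _)
    · exact mem_Dn.2 (Subgroup.map_bot _)
  · rintro ⟨h1, _, h3⟩
    exact h ⟨h1, mem_Dn.2 (h3 _ (by simp)), mem_Dn.2 (h3 _ (by simp))⟩

variable [IsAlgClosed K] [CharZero K] [Fintype (N →* Kˣ)]

/-- **The sum over the commuting pairs.** -/
theorem AKs_ab (hab : ∀ a ∈ N, ∀ b ∈ N, a * b = b * a) (hpN : ¬ p ∣ Nat.card N) :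
    (Nat.card N : K) * (AKs p Γ 1 : K) = ∑ t : N →* Kˣ, ∑ a, ∑ b, (if a ∈ stab t ∧ b ∈ stab t then
      ((ch (Xq p N a b ∩ {P' | P' ≤ (stab t).map (QuotientGroup.mk' N)}) : ℤ) : K) *
        ev t (cm (a, b)) else 0) := by
  set Sp : Finset (Subgroup (Γ ⧸ N)) := Finset.univ.filter fun P' => IsPGroup p P' with hSp
  -- the left-hand side
  have e1 : (AKs p Γ 1 : K) = ∑ P' ∈ Sp, ∑ Q ∈ Finset.univ.filter (fun Q : Subgroup Γ => IsPGroup p Q ∧
      Q.map (QuotientGroup.mk' N) = P'),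
      ∑ a, ∑ b, (if a ∈ Mn Q ∧ b ∈ Mn Q then
        (if cm (a, b) = 1 then ((mo (Xq p N a b) P' : ℤ) : K) else 0) else 0) := by
    have h1 : ∀ a b : Γ, ((W p ({a, b} : Set Γ) : ℤ) : K) = ∑ Q : Subgroup Γ,
        (if IsPGroup p Q ∧ a ∈ Mn Q ∧ b ∈ Mn Q then
          ((mo (Xq p N a b) (Q.map (QuotientGroup.mk' N)) : ℤ) : K) else 0) := by
      intro a b
      rw [W_ch, ch_eq_sum _ (bot_notMem _), Int.cast_sum]
      refine Finset.sum_congr rfl fun Q _ => ?_
      rw [mo_quot hpN]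
      split_ifs
      · rfl
      · exact Int.cast_zero
    have h2 : (AKs p Γ 1 : K) = ∑ Q : Subgroup Γ, ∑ a, ∑ b, (if cm (a, b) = 1 then
        (if IsPGroup p Q ∧ a ∈ Mn Q ∧ b ∈ Mn Q then
          ((mo (Xq p N a b) (Q.map (QuotientGroup.mk' N)) : ℤ) : K) else 0) else 0) := by
      unfold AKs
      rw [Int.cast_sum, Fintype.sum_prod_type]
      symm
      rw [Finset.sum_comm]
      refine Finset.sum_congr rfl fun a _ => ?_
      rw [Finset.sum_comm]
      refine Finset.sum_congr rfl fun b _ => ?_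
      by_cases hc : cm (a, b) = 1
      · simp only [if_pos hc]
        exact (h1 a b).symm
      · simp only [if_neg hc]
        rw [Finset.sum_const_zero, Int.cast_zero]
    rw [h2]
    have h3 : ∀ Q : Subgroup Γ, (∑ a, ∑ b, (if cm (a, b) = 1 then
        (if IsPGroup p Q ∧ a ∈ Mn Q ∧ b ∈ Mn Q then
          ((mo (Xq p N a b) (Q.map (QuotientGroup.mk' N)) : ℤ) : K) else 0) else 0)) =
        if IsPGroup p Q then (∑ a, ∑ b, (if a ∈ Mn Q ∧ b ∈ Mn Q then
          (if cm (a, b) = 1 then ((mo (Xq p N a b) (Q.map (QuotientGroup.mk' N)) : ℤ) : K) else 0)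
            else 0)) else 0 := by
      intro Q
      by_cases hQ : IsPGroup p Q
      · rw [if_pos hQ]
        refine Finset.sum_congr rfl fun a _ => Finset.sum_congr rfl fun b _ => ?_
        by_cases hM : a ∈ Mn Q ∧ b ∈ Mn Q
        · have hM' : IsPGroup p Q ∧ a ∈ Mn Q ∧ b ∈ Mn Q := ⟨hQ, hM⟩
          simp only [if_pos hM, if_pos hM']
        · have hM' : ¬ (IsPGroup p Q ∧ a ∈ Mn Q ∧ b ∈ Mn Q) := fun h => hM h.2
          simp only [if_neg hM, if_neg hM', ite_self]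
      · rw [if_neg hQ]
        refine Finset.sum_eq_zero fun a _ => Finset.sum_eq_zero fun b _ => ?_
        have hM' : ¬ (IsPGroup p Q ∧ a ∈ Mn Q ∧ b ∈ Mn Q) := fun h => hQ h.1
        simp only [if_neg hM', ite_self]
    rw [Finset.sum_congr rfl fun Q _ => h3 Q, ← Finset.sum_filter]
    rw [← Finset.sum_fiberwise_of_maps_to (t := Sp) (g := fun Q : Subgroup Γ =>
      Q.map (QuotientGroup.mk' N))]
    · refine Finset.sum_congr rfl fun P' _ => ?_
      refine Finset.sum_congr ?_ fun Q hQ => ?_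
      · ext Q
        rw [Finset.mem_filter, Finset.mem_filter, Finset.mem_filter, and_assoc]
      · rw [(Finset.mem_filter.1 hQ).2.2]
    · intro Q hQ
      rw [hSp, Finset.mem_filter]
      exact ⟨Finset.mem_univ _, (Finset.mem_filter.1 hQ).2.map _⟩
  rw [e1, Finset.mul_sum]
  have e2 : ∀ P' ∈ Sp, (Nat.card N : K) * ∑ Q ∈ Finset.univ.filter (fun Q : Subgroup Γ =>
      IsPGroup p Q ∧ Q.map (QuotientGroup.mk' N) = P'),
      ∑ a, ∑ b, (if a ∈ Mn Q ∧ b ∈ Mn Q then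
        (if cm (a, b) = 1 then ((mo (Xq p N a b) P' : ℤ) : K) else 0) else 0) =
      ∑ t : N →* Kˣ, ∑ a, ∑ b, (if P' ≤ (stab t).map (QuotientGroup.mk' N) ∧
        (a ∈ Dn N P' ⊓ stab t ∧ b ∈ Dn N P' ⊓ stab t) then
          ((mo (Xq p N a b) P' : ℤ) : K) * ev t (cm (a, b)) else 0) := by
    intro P' hP'
    rw [hSp, Finset.mem_filter] at hP'
    rw [star hab hpN hP'.2 (fun a b => ((mo (Xq p N a b) P' : ℤ) : K))
      (fun n hn a b => by simp only [Xq_left hn]) (fun n hn a b => by simp only [Xq_right hn]),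
      Finset.sum_filter]
    refine Finset.sum_congr rfl fun t _ => ?_
    by_cases h : P' ≤ (stab t).map (QuotientGroup.mk' N)
    · rw [if_pos h]
      simp only [h, true_and]
    · rw [if_neg h]
      symm
      refine Finset.sum_eq_zero fun a _ => Finset.sum_eq_zero fun b _ => ?_
      rw [if_neg (fun h' => h h'.1)]
  rw [Finset.sum_congr rfl e2, Finset.sum_comm]
  refine Finset.sum_congr rfl fun t _ => ?_
  rw [Finset.sum_comm]
  refine Finset.sum_congr rfl fun a _ => ?_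
  rw [Finset.sum_comm]
  refine Finset.sum_congr rfl fun b _ => ?_
  by_cases hab' : a ∈ stab t ∧ b ∈ stab t
  · rw [if_pos hab']
    have e3 : ((ch (Xq p N a b ∩ {P' | P' ≤ (stab t).map (QuotientGroup.mk' N)}) : ℤ) : K) =
        ∑ P' ∈ Sp, (if P' ≤ (stab t).map (QuotientGroup.mk' N) ∧
          (a ∈ Dn N P' ⊓ stab t ∧ b ∈ Dn N P' ⊓ stab t) then ((mo (Xq p N a b) P' : ℤ) : K) else 0) := by
      rw [ch_eq_sum _ (fun h => (bot_notMem _) h.1), Int.cast_sum, hSp, Finset.sum_filter]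
      refine Finset.sum_congr rfl fun P' _ => ?_
      rw [mo_inter (Xq p N a b) {P' | P' ≤ (stab t).map (QuotientGroup.mk' N)}
        (fun A B hBA hA => le_trans hBA hA)
        (show (⊥ : Subgroup (Γ ⧸ N)) ≤ (stab t).map (QuotientGroup.mk' N) from bot_le)]
      by_cases h1 : P' ≤ (stab t).map (QuotientGroup.mk' N)
      · rw [if_pos (show P' ∈ {P' | P' ≤ (stab t).map (QuotientGroup.mk' N)} from h1)]
        by_cases h2 : IsPGroup p P' ∧ a ∈ Dn N P' ∧ b ∈ Dn N P'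
        · rw [if_pos h2.1, if_pos ⟨h1, ⟨h2.2.1, hab'.1⟩, ⟨h2.2.2, hab'.2⟩⟩]
        · rw [mo_Xq_zero a b h2, Int.cast_zero]
          split_ifs <;> rfl
      · rw [if_neg (show ¬ P' ∈ {P' | P' ≤ (stab t).map (QuotientGroup.mk' N)} from h1), Int.cast_zero]
        symm
        rw [if_neg (fun h : P' ≤ (stab t).map (QuotientGroup.mk' N) ∧
          (a ∈ Dn N P' ⊓ stab t ∧ b ∈ Dn N P' ⊓ stab t) => h1 h.1)]
        split_ifs <;> rfl
    rw [e3, Finset.sum_mul]
    refine Finset.sum_congr rfl fun P' _ => ?_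
    by_cases h : P' ≤ (stab t).map (QuotientGroup.mk' N) ∧
        (a ∈ Dn N P' ⊓ stab t ∧ b ∈ Dn N P' ⊓ stab t)
    · rw [if_pos h, if_pos h]
    · rw [if_neg h, if_neg h, zero_mul]
  · rw [if_neg hab']
    refine Finset.sum_eq_zero fun P' _ => ?_
    rw [if_neg]
    rintro ⟨_, h1, h2⟩
    exact hab' ⟨h1.2, h2.2⟩

end

end Pool.Agent.K1H75.KR
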