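import Pool.Agent.K1H75.KR.AbChar

/-!
# Surface tuples and abelian normal subgroups
-/

set_option autoImplicit false

open scoped Classical

set_option linter.unusedSectionVars false

noncomputable section

namespace Pool.Agent.K1H75.KR

open Pool.Agent.Y63.KR (surfaceWord map_surfaceWord)

section sums

variable {Γ : Type} [Group Γ] [Fintype Γ] {K : Type} [Field K]

lemma sum_mem (S : Subgroup Γ) (f : Γ → K) :
    ∑ a, (if a ∈ S then f a else 0) = ∑ a : S, f a := by
  rw [← Finset.sum_filter]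
  exact Finset.sum_subtype _ (fun x => by simp) f

lemma sum_mem₂ (S : Subgroup Γ) (F : Γ → Γ → K) :
    ∑ a, ∑ b, (if a ∈ S ∧ b ∈ S then F a b else 0) = ∑ a : S, ∑ b : S, F a b := by
  rw [← sum_mem S fun a => ∑ b : S, F a b]
  refine Finset.sum_congr rfl fun a _ => ?_
  by_cases ha : a ∈ S
  · rw [if_pos ha, ← sum_mem S fun b => F a b]
    refine Finset.sum_congr rfl fun b _ => ?_
    simp only [ha, true_and]
  · rw [if_neg ha]
    refine Finset.sum_eq_zero fun b _ => ?_
    rw [if_neg (fun h => ha h.1)]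

end sums

lemma surfaceWord_succ {G : Type} [Group G] {g : ℕ} (q : Fin (g + 1) → G × G) :
    surfaceWord q = cm (q 0) * surfaceWord (fun i => q i.succ) := by
  unfold surfaceWord cm
  rw [List.ofFn_succ, List.prod_cons]

section

variable {Γ : Type} [Group Γ] [Fintype Γ] {N : Subgroup Γ} [hN : N.Normal] {K : Type} [Field K]

/-- the sum over the tuples of a translate of a character -/
def hg (t : N →* Kˣ) (g : ℕ) (z : Γ) : K := ∑ q : Fin g → Γ × Γ, ev t (z * surfaceWord q)

lemma hg_zero (t : N →* Kˣ) (z : Γ) : hg t 0 z = ev t z := by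
  unfold hg
  rw [Fintype.sum_unique]
  unfold surfaceWord
  simp

lemma hg_isS (t : N →* Kˣ) (g : ℕ) : IsS t (hg t g) := by
  constructor
  · intro n hn z
    unfold hg
    rw [Finset.mul_sum]
    refine Finset.sum_congr rfl fun q _ => ?_
    rw [mul_assoc, ev_mul_left t hn]
  · intro n hn z
    unfold hg
    rw [Finset.sum_mul]
    let e : (Fin g → Γ × Γ) ≃ (Fin g → Γ × Γ) :=
      Equiv.piCongrRight fun _ => (MulAut.conj n).toEquiv.prodCongr (MulAut.conj n).toEquiv
    refine Eq.trans ?_ (Equiv.sum_comp e fun q => ev t (z * surfaceWord q) * ev t n)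
    refine Finset.sum_congr rfl fun q _ => ?_
    have h1 : surfaceWord (e q) = n * surfaceWord q * n⁻¹ := by
      have := map_surfaceWord (MulAut.conj n).toMonoidHom q
      exact this.symm
    rw [h1, ← ev_mul_right t hn]
    congr 1
    group

lemma hg_succ (t : N →* Kˣ) (g : ℕ) (z : Γ) :
    hg t (g + 1) z = ∑ a, ∑ b, hg t g (z * cm (a, b)) := by
  unfold hg
  rw [← Equiv.sum_comp (Fin.consEquiv fun _ : Fin (g + 1) => Γ × Γ), Fintype.sum_prod_type,
    Fintype.sum_prod_type]
  refine Finset.sum_congr rfl fun a _ => Finset.sum_congr rfl fun b _ =>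
    Finset.sum_congr rfl fun q _ => ?_
  rw [surfaceWord_succ, mul_assoc]
  rfl

/-- **Restriction to the stabiliser.** -/
theorem hg_stab (hab : ∀ a ∈ N, ∀ b ∈ N, a * b = b * a) (t : N →* Kˣ) :
    ∀ (g : ℕ) (z : Γ), z ∈ stab t →
      hg t g z = ∑ q : Fin g → stab t × stab t, ev t (z * ((surfaceWord q : stab t) : Γ)) := by
  intro g
  induction g with
  | zero =>
    intro z _
    rw [hg_zero, Fintype.sum_unique]
    unfold surfaceWord
    simp
  | succ g ih =>
    intro z hz
    rw [hg_succ]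
    have h1 := sum_cm_stab hab (hg_isS t g) hz (fun _ _ => (1 : K)) N le_rfl (fun _ _ _ _ => rfl)
      (fun _ _ _ _ => rfl) ⊤ le_top (fun b _ h => h)
    simp only [Subgroup.mem_top, and_self, if_true, one_mul, top_inf_eq] at h1
    rw [h1, sum_mem₂ (stab t) fun a b => hg t g (z * cm (a, b))]
    rw [← Equiv.sum_comp (Fin.consEquiv fun _ : Fin (g + 1) => stab t × stab t), Fintype.sum_prod_type,
      Fintype.sum_prod_type]
    refine Finset.sum_congr rfl fun a _ => Finset.sum_congr rfl fun b _ => ?_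
    have h2 : z * cm ((a : Γ), (b : Γ)) ∈ stab t := by
      have : cm ((a : Γ), (b : Γ)) = ((cm (a, b) : stab t) : Γ) := rfl
      rw [this]
      exact (stab t).mul_mem hz (cm (a, b)).2
    rw [ih _ h2]
    refine Finset.sum_congr rfl fun q _ => ?_
    rw [surfaceWord_succ, Subgroup.coe_mul, mul_assoc]
    rfl

end

/-! ### All characters -/

section

variable {Γ : Type} [Group Γ] [Fintype Γ] {N : Subgroup Γ} {K : Type} [Field K] [IsAlgClosed K]
  [CharZero K]

/-- the abelian normal subgroup as a commutative group -/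
@[reducible] def commN (hab : ∀ a ∈ N, ∀ b ∈ N, a * b = b * a) : CommGroup N :=
  { (inferInstance : Group N) with
    mul_comm := fun a b => Subtype.ext (hab a a.2 b b.2) }

lemma card_char (hab : ∀ a ∈ N, ∀ b ∈ N, a * b = b * a) : Nat.card (N →* Kˣ) = Nat.card N := by
  let _ := commN hab
  exact CommGroup.card_monoidHom_of_hasEnoughRootsOfUnity N K

lemma exists_ev_ne (hab : ∀ a ∈ N, ∀ b ∈ N, a * b = b * a) {z : Γ} (hz : z ∈ N) (hz1 : z ≠ 1) :
    ∃ t : N →* Kˣ, ev t z ≠ 1 := by
  let _ := commN hab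
  obtain ⟨t, ht⟩ := CommGroup.exists_apply_ne_one_of_hasEnoughRootsOfUnity N K
    (a := (⟨z, hz⟩ : N)) (fun h => hz1 (congrArg Subtype.val h))
  refine ⟨t, ?_⟩
  rw [ev_of_mem t hz]
  intro h
  exact ht (Units.ext h)


variable [Fintype (N →* Kˣ)]

lemma sum_ev [N.Normal] (hab : ∀ a ∈ N, ∀ b ∈ N, a * b = b * a) (z : Γ) :
    ∑ t : N →* Kˣ, ev t z = if z = 1 then (Nat.card N : K) else 0 := by
  by_cases hz : z ∈ N
  · by_cases hz1 : z = 1
    · rw [if_pos hz1, hz1]
      rw [Finset.sum_congr rfl fun t _ => ev_one t, Finset.sum_const, nsmul_eq_mul, mul_one,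
        Finset.card_univ, ← Nat.card_eq_fintype_card, card_char hab]
    · rw [if_neg hz1]
      obtain ⟨s, hs⟩ := exists_ev_ne (K := K) hab hz hz1
      exact sum_char_zero Finset.univ s (fun t => by simp) hz hs
  · have hz1 : z ≠ 1 := fun h => hz (h ▸ N.one_mem)
    rw [if_neg hz1]
    exact Finset.sum_eq_zero fun t _ => ev_of_not_mem t hz

/-- **The surface tuples of a group with an abelian normal subgroup.** -/
theorem Nzs_ab [N.Normal] (hab : ∀ a ∈ N, ∀ b ∈ N, a * b = b * a) (g : ℕ) :
    (Nat.card N : K) * (Nzs g Γ 1 : K) = ∑ t : N →* Kˣ, ∑ q : Fin g → stab t × stab t,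
      ev t ((surfaceWord q : stab t) : Γ) := by
  have h1 : ∀ t : N →* Kˣ, ∑ q : Fin g → stab t × stab t, ev t ((surfaceWord q : stab t) : Γ) =
      ∑ q : Fin g → Γ × Γ, ev t (surfaceWord q) := by
    intro t
    have h2 := hg_stab hab t g 1 (stab t).one_mem
    unfold hg at h2
    simp only [one_mul] at h2
    exact h2.symm
  rw [Finset.sum_congr rfl fun t _ => h1 t, Finset.sum_comm]
  unfold Nzs
  rw [Int.cast_sum, Finset.mul_sum]
  refine Finset.sum_congr rfl fun q _ => ?_
  rw [sum_ev hab]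
  by_cases h : surfaceWord q = 1
  · rw [if_pos h, if_pos h, Int.cast_one, mul_one]
  · rw [if_neg h, if_neg h, Int.cast_zero, mul_zero]

end

end Pool.Agent.K1H75.KR
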