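import Pool.Agent.K1H75.KR.Red

/-!
# The centre: deviations, noncyclic centres, central subgroups outside the commutator subgroup
-/

set_option autoImplicit false

open scoped Classical Topology
open Filter

set_option linter.unusedSectionVars false

noncomputable section

namespace Pool.Agent.K1H75.KR

open Pool.Agent.Y63.KR (KRC surfaceWord map_surfaceWord)

variable {p : ℕ} [hp : Fact p.Prime]

/-- the deviation of the `N`-th number of tuples from the sum over the pairs -/
def dd (p : ℕ) [Fact p.Prime] (H : Type) [Group H] [Fintype H] (z : H) (N : ℕ) : ℚ_[p] :=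
  (Nzs (nn p N + 1) H z : ℚ_[p]) - (AKs p H z : ℚ_[p])

section

variable {H : Type} [Group H] [Fintype H]

lemma good_iff_dd (z : H) : Good p H z ↔ Tendsto (dd p H z) atTop (𝓝 0) := by
  unfold Good dd
  exact (tendsto_sub_nhds_zero_iff).symm

lemma krc_iff_dd : KRC p H ↔ Tendsto (dd p H 1) atTop (𝓝 0) := by
  rw [krc_iff_good, good_iff_dd]

theorem krc_quot_dd {H' : Type} [Group H'] [Fintype H'] {f : H →* H'} (hs : Function.Surjective f)
    (hf : CentralKer p f) :
    KRC p H' ↔ Tendsto (fun N => ∑ z ∈ Finset.univ.filter (fun z => f z = 1), dd p H z N) atTop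
      (𝓝 0) := by
  rw [krc_quot_iff hs hf, ← tendsto_sub_nhds_zero_iff]
  unfold dd
  simp only [Finset.sum_sub_distrib]

/-- the quotient by a central `p'`-subgroup -/
theorem krc_mk_dd {N : Subgroup H} [N.Normal] (hN : ∀ z ∈ N, ∀ x : H, x * z = z * x)
    (h : ¬ p ∣ Nat.card N) :
    KRC p (H ⧸ N) ↔ Tendsto (fun k => ∑ z ∈ Finset.univ.filter (fun z => z ∈ N), dd p H z k) atTop
      (𝓝 0) := by
  have : Fintype (H ⧸ N) := Fintype.ofFinite _
  refine (krc_quot_dd (QuotientGroup.mk'_surjective N) (centralKer_mk (p := p) hN h)).trans ?_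
  have e : (fun k => ∑ z ∈ Finset.univ.filter (fun z : H => QuotientGroup.mk' N z = 1), dd p H z k) =
      fun k => ∑ z ∈ Finset.univ.filter (fun z => z ∈ N), dd p H z k := by
    funext k
    refine Finset.sum_congr ?_ fun _ _ => rfl
    ext z
    rw [Finset.mem_filter, Finset.mem_filter]
    exact and_congr_right fun _ => QuotientGroup.eq_one_iff z
  constructor
  · intro h1
    rw [← e]
    convert h1
  · intro h1
    rw [← e] at h1
    convert h1

lemma cm_mem (q : H × H) : cm q ∈ commutator H := by
  have h := Subgroup.commutator_mem_commutator (Subgroup.mem_top q.1) (Subgroup.mem_top q.2)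
  exact h

lemma surfaceWord_mem {g : ℕ} (q : Fin g → H × H) : surfaceWord q ∈ commutator H := by
  unfold surfaceWord
  refine Subgroup.list_prod_mem _ fun x hx => ?_
  rw [List.mem_ofFn] at hx
  obtain ⟨i, rfl⟩ := hx
  exact cm_mem (q i)

/-- outside the commutator subgroup there are no deviations -/
lemma dd_eq_zero {z : H} (hz : z ∉ commutator H) (N : ℕ) : dd p H z N = 0 := by
  have h1 : Nzs (nn p N + 1) H z = 0 := by
    unfold Nzs
    refine Finset.sum_eq_zero fun q _ => ?_
    rw [if_neg]
    rintro rfl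
    exact hz (surfaceWord_mem q)
  have h2 : AKs p H z = 0 := by
    unfold AKs
    refine Finset.sum_eq_zero fun q _ => ?_
    rw [if_neg]
    rintro rfl
    exact hz (cm_mem q)
  unfold dd
  rw [h1, h2]
  simp

/-- **Central subgroups which meet the commutator subgroup trivially.** -/
theorem krc_iff_quot {N : Subgroup H} [N.Normal] (hN : ∀ z ∈ N, ∀ x : H, x * z = z * x)
    (h : ¬ p ∣ Nat.card N) (hd : ∀ z ∈ N, z ∈ commutator H → z = 1) :
    KRC p (H ⧸ N) ↔ KRC p H := by
  rw [krc_mk_dd hN h, krc_iff_dd]
  have e : (fun k => ∑ z ∈ Finset.univ.filter (fun z => z ∈ N), dd p H z k) = dd p H 1 := by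
    funext k
    rw [Finset.sum_eq_single (1 : H)]
    · intro z hz hz1
      exact dd_eq_zero (fun hc => hz1 (hd z (Finset.mem_filter.1 hz).2 hc)) k
    · intro h1
      exact absurd (Finset.mem_filter.2 ⟨Finset.mem_univ _, N.one_mem⟩) h1
  rw [e]

end

/-! ### Noncyclic centres -/

/-- a finite commutative group which is not cyclic has more than `r` solutions of `x ^ r = 1` for some
prime `r` -/
lemma exists_prime_many {C : Type} [Group C] [Fintype C] (hcomm : ∀ a b : C, a * b = b * a)
    (hC : ¬ IsCyclic C) :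
    ∃ r : ℕ, r.Prime ∧ r < Nat.card {x : C // x ^ r = 1} := by
  have h1 : ∃ n : ℕ, 0 < n ∧ n < (Finset.univ.filter fun x : C => x ^ n = 1).card := by
    by_contra hno
    push Not at hno
    exact hC (isCyclic_of_card_pow_eq_one_le hno)
  obtain ⟨hn0, hn⟩ := Nat.find_spec h1
  set n := Nat.find h1 with hnd
  have hmin : ∀ m, 0 < m → m < n → (Finset.univ.filter fun x : C => x ^ m = 1).card ≤ m := by
    intro m hm0 hm
    have := Nat.find_min h1 hm
    push Not at this
    exact this hm0
  have hn1 : n ≠ 1 := by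
    intro h
    rw [h] at hn
    have : (Finset.univ.filter fun x : C => x ^ 1 = 1) = {1} := by
      ext x
      simp
    rw [this] at hn
    simp at hn
  obtain ⟨r, hr, m, hm⟩ := Nat.exists_prime_and_dvd hn1
  have hm0 : 0 < m := by
    rcases Nat.eq_zero_or_pos m with h | h
    · rw [h, mul_zero] at hm
      omega
    · exact h
  have hmn : m < n := by
    rw [hm]
    have := hr.two_le
    nlinarith
  refine ⟨r, hr, ?_⟩
  rw [Nat.card_eq_fintype_card, Fintype.card_subtype]
  have h2 : (Finset.univ.filter fun x : C => x ^ n = 1).card ≤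
      m * (Finset.univ.filter fun x : C => x ^ r = 1).card := by
    refine Finset.card_le_mul_card_image_of_maps_to (f := fun x => x ^ m) ?_ m ?_
    · intro x hx
      have hx1 := (Finset.mem_filter.1 hx).2
      rw [Finset.mem_filter]
      refine ⟨Finset.mem_univ _, ?_⟩
      rw [← pow_mul, mul_comm, ← hm]
      exact hx1
    · intro y _
      rcases (Finset.filter (fun a => a ^ m = y) (Finset.univ.filter fun x : C => x ^ n = 1)).eq_empty_or_nonempty
        with he | ⟨x₀, hx₀⟩
      · rw [he]
        simp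
      · refine le_trans (Finset.card_le_card_of_injOn (fun x => x * x₀⁻¹) ?_ ?_) (hmin m hm0 hmn)
        · intro x hx
          have hx1 := (Finset.mem_filter.1 hx).2
          have hx2 := (Finset.mem_filter.1 hx₀).2
          rw [Finset.mem_coe, Finset.mem_filter]
          refine ⟨Finset.mem_univ _, ?_⟩
          have hcx : Commute x x₀⁻¹ := hcomm _ _
          rw [hcx.mul_pow, inv_pow, hx1, hx2, mul_inv_cancel]
        · intro x _ y _ hxy
          exact mul_right_cancel hxy
  by_contra hlt
  push Not at hlt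
  have h3 : m * (Finset.univ.filter fun x : C => x ^ r = 1).card ≤ m * r := Nat.mul_le_mul_left _ hlt
  rw [hm] at hn
  rw [← hm] at hn
  have h4 : n = m * r := by rw [hm, mul_comm]
  omega

section

variable {H : Type} [Group H] [Fintype H]

/-- **Noncyclic centres.** -/
theorem krc_noncyclic (hpZ : ¬ p ∣ Nat.card (Subgroup.center H)) (hc : ¬ IsCyclic (Subgroup.center H))
    (h : ∀ N : Subgroup H, ∀ _ : N.Normal, N ≤ Subgroup.center H → N ≠ ⊥ → KRC p (H ⧸ N)) :
    KRC p H := by
  obtain ⟨r, hr, hcard⟩ := exists_prime_many (C := Subgroup.center H)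
    (fun a b => Subtype.ext (Subgroup.mem_center_iff.1 b.2 a)) hc
  have hcen : ∀ z ∈ Subgroup.center H, ∀ x : H, x * z = z * x := fun z hz x =>
    Subgroup.mem_center_iff.1 hz x
  -- the sum over a nontrivial central subgroup
  have hsum : ∀ N : Subgroup H, N ≤ Subgroup.center H → N ≠ ⊥ →
      Tendsto (fun k => ∑ z ∈ Finset.univ.filter (fun z => z ∈ N), dd p H z k) atTop (𝓝 0) := by
    intro N hN h1
    have hn : N.Normal := by
      constructor
      intro w hw x
      rw [hcen w (hN hw) x, mul_assoc, mul_inv_cancel, mul_one]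
      exact hw
    exact (krc_mk_dd (p := p) (fun z hz => hcen z (hN hz)) (fun hd => hpZ (hd.trans
      (Subgroup.card_dvd_of_le hN)))).1 (h N hn hN h1)
  -- the subgroup of the central elements of order dividing `r`
  let E : Subgroup H :=
    { carrier := {z | z ∈ Subgroup.center H ∧ z ^ r = 1}
      one_mem' := ⟨Subgroup.one_mem _, one_pow r⟩
      mul_mem' := by
        rintro a b ⟨ha, ha'⟩ ⟨hb, hb'⟩
        refine ⟨Subgroup.mul_mem _ ha hb, ?_⟩
        have : Commute a b := hcen b hb a
        rw [this.mul_pow, ha', hb', one_mul]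
      inv_mem' := by
        rintro a ⟨ha, ha'⟩
        refine ⟨Subgroup.inv_mem _ ha, ?_⟩
        rw [inv_pow, ha', inv_one] }
  have hEmem : ∀ z : H, z ∈ E ↔ z ∈ Subgroup.center H ∧ z ^ r = 1 := fun z => Iff.rfl
  have hEZ : E ≤ Subgroup.center H := fun z hz => ((hEmem z).1 hz).1
  obtain ⟨F, hF⟩ : ∃ F : Finset H, F = Finset.univ.filter (fun z => z ∈ E) := ⟨_, rfl⟩
  have hFmem : ∀ z, z ∈ F ↔ z ∈ E := fun z => by rw [hF, Finset.mem_filter]; simp
  have hFcard : r < F.card := by
    refine lt_of_lt_of_le hcard ?_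
    have h1 : F.card = Nat.card E := by
      rw [hF, ← Fintype.card_subtype, ← Nat.card_eq_fintype_card]
    rw [h1]
    refine Nat.card_le_card_of_injective
      (fun z => (⟨z.1.1, z.1.2, congrArg Subtype.val z.2⟩ : E)) ?_
    intro a b hab
    exact Subtype.ext (Subtype.ext (congrArg (fun t : E => (t : H)) hab))
  have hr1 := hr.one_lt
  have hE1 : E ≠ ⊥ := by
    intro h1
    have h2 : F ⊆ {1} := by
      intro z hz
      rw [hFmem, h1, Subgroup.mem_bot] at hz
      rw [hz]
      simp
    have := Finset.card_le_card h2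
    rw [Finset.card_singleton] at this
    omega
  -- orders of elements
  have hrf : Fact r.Prime := ⟨hr⟩
  have hord : ∀ z ∈ E, z ≠ 1 → orderOf z = r := fun z hz h1 =>
    orderOf_eq_prime ((hEmem z).1 hz).2 h1
  -- the counting identity
  have hid : ∀ k, ∑ w ∈ F.erase 1, ∑ v ∈ Finset.univ.filter (fun v => v ∈ Subgroup.zpowers w), dd p H v k =
      ((r : ℚ_[p]) - 1) * ∑ v ∈ F, dd p H v k + ((F.card : ℚ_[p]) - r) * dd p H 1 k := by
    intro k
    have e1 : ∀ w ∈ F.erase 1, ∑ v ∈ Finset.univ.filter (fun v => v ∈ Subgroup.zpowers w), dd p H v k =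
        ∑ v ∈ F, if v ∈ Subgroup.zpowers w then dd p H v k else 0 := by
      intro w hw
      rw [← Finset.sum_filter]
      refine Finset.sum_congr ?_ fun _ _ => rfl
      ext v
      rw [Finset.mem_filter, Finset.mem_filter, hFmem]
      constructor
      · rintro ⟨_, hv⟩
        refine ⟨?_, hv⟩
        have hwE : w ∈ E := (hFmem w).1 (Finset.mem_of_mem_erase hw)
        exact (Subgroup.zpowers_le.2 hwE) hv
      · rintro ⟨_, hv⟩
        exact ⟨Finset.mem_univ _, hv⟩
    rw [Finset.sum_congr rfl e1, Finset.sum_comm]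
    have e2 : ∀ v ∈ F, ∑ w ∈ F.erase 1, (if v ∈ Subgroup.zpowers w then dd p H v k else 0) =
        ((r : ℚ_[p]) - 1) * dd p H v k + (if v = 1 then ((F.card : ℚ_[p]) - r) * dd p H v k else 0) := by
      intro v hv
      rw [← Finset.sum_filter, Finset.sum_const, nsmul_eq_mul]
      have h1F : (1 : H) ∈ F := (hFmem 1).2 E.one_mem
      by_cases hv1 : v = 1
      · subst hv1
        rw [if_pos rfl]
        have e3 : (F.erase 1).filter (fun w => (1 : H) ∈ Subgroup.zpowers w) = F.erase 1 :=
          Finset.filter_true_of_mem fun w _ => Subgroup.one_mem _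
        rw [e3, Finset.card_erase_of_mem h1F, Nat.cast_sub (by omega)]
        push_cast
        ring
      · rw [if_neg hv1, add_zero]
        have hvE : v ∈ E := (hFmem v).1 hv
        have e3 : (F.erase 1).filter (fun w => v ∈ Subgroup.zpowers w) =
            (Finset.univ.filter (fun w => w ∈ Subgroup.zpowers v)).erase 1 := by
          ext w
          rw [Finset.mem_filter, Finset.mem_erase, Finset.mem_erase, Finset.mem_filter, hFmem]
          constructor
          · rintro ⟨⟨hw1, hwE⟩, hvw⟩
            refine ⟨hw1, Finset.mem_univ _, ?_⟩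
            have h2 : Subgroup.zpowers v ≤ Subgroup.zpowers w := Subgroup.zpowers_le.2 hvw
            have h3 : Subgroup.zpowers v = Subgroup.zpowers w := by
              refine Subgroup.eq_of_le_of_card_ge h2 ?_
              rw [Nat.card_zpowers, Nat.card_zpowers, hord v hvE hv1, hord w hwE hw1]
            rw [h3]
            exact Subgroup.mem_zpowers w
          · rintro ⟨hw1, _, hwv⟩
            have hwE : w ∈ E := (Subgroup.zpowers_le.2 hvE) hwv
            refine ⟨⟨hw1, hwE⟩, ?_⟩
            have h2 : Subgroup.zpowers w ≤ Subgroup.zpowers v := Subgroup.zpowers_le.2 hwv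
            have h3 : Subgroup.zpowers w = Subgroup.zpowers v := by
              refine Subgroup.eq_of_le_of_card_ge h2 ?_
              rw [Nat.card_zpowers, Nat.card_zpowers, hord v hvE hv1, hord w hwE hw1]
            rw [h3]
            exact Subgroup.mem_zpowers v
        have e4 : (Finset.univ.filter (fun w => w ∈ Subgroup.zpowers v)).card = r := by
          rw [← hord v hvE hv1, ← Nat.card_zpowers, ← Fintype.card_subtype, ← Nat.card_eq_fintype_card]
        rw [e3, Finset.card_erase_of_mem (Finset.mem_filter.2 ⟨Finset.mem_univ _, Subgroup.one_mem _⟩),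
          e4, Nat.cast_sub (by omega)]
        push_cast
        ring
    rw [Finset.sum_congr rfl e2, Finset.sum_add_distrib, ← Finset.mul_sum, Finset.sum_ite_eq',
      if_pos ((hFmem 1).2 E.one_mem)]
  have hlim1 : Tendsto (fun k => ∑ w ∈ F.erase 1,
      ∑ v ∈ Finset.univ.filter (fun v => v ∈ Subgroup.zpowers w), dd p H v k) atTop (𝓝 0) := by
    have h0 : (0 : ℚ_[p]) = ∑ w ∈ F.erase 1, 0 := by simp
    rw [h0]
    refine tendsto_finsetSum _ fun w hw => ?_
    refine hsum _ ?_ ?_
    · exact (Subgroup.zpowers_le.2 (hEZ ((hFmem w).1 (Finset.mem_of_mem_erase hw))))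
    · rw [Ne, Subgroup.zpowers_eq_bot]
      exact Finset.ne_of_mem_erase hw
  have hlim2 := hsum E hEZ hE1
  rw [← hF] at hlim2
  have hlim3 := (hlim1.sub (hlim2.const_mul ((r : ℚ_[p]) - 1))).const_mul (((F.card : ℚ_[p]) - r)⁻¹)
  have hne : ((F.card : ℚ_[p]) - r) ≠ 0 := by
    rw [sub_ne_zero]
    exact_mod_cast hFcard.ne'
  rw [krc_iff_dd]
  rw [mul_zero, sub_zero, mul_zero] at hlim3
  refine hlim3.congr fun k => ?_
  rw [hid k, add_sub_cancel_left, ← mul_assoc, inv_mul_cancel₀ hne, one_mul]

end

end Pool.Agent.K1H75.KR
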