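import Pool.Agent.K1H75.KR.Quot
import Pool.Agent.R677.FV.Galois

/-!
# Galois invariance of the numbers of pairs and of tuples with a central product of commutators
-/

set_option autoImplicit false

open scoped Classical

set_option linter.unusedSectionVars false

noncomputable section

namespace Pool.Agent.K1H75.KR

open Pool.Agent.Y63.KR (IsPChain conjSub W fixedPoset mem_conjSub conjSub_one surfaceWord map_surfaceWord
  conjSub_eq_iff dg dg_spec sum_word comm_scalar)
open Pool.Agent.Helper884.IC Pool.Agent.Y63.AWC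
open Pool.Agent.R677.FV (P irr_P)

section

variable {p : ℕ} {H : Type} [Group H] [Fintype H]

lemma cm_pow {x y c : H} (hc : ∀ h : H, h * c = c * h) (h : cm (x, y) = c) (s : ℕ) :
    cm (x ^ s, y) = c ^ s := by
  have h1 : x * (y * x⁻¹ * y⁻¹) = c := by
    unfold cm at h
    rw [← h]
    group
  have h2 : y * x⁻¹ * y⁻¹ = x⁻¹ * c := by
    rw [← h1]
    group
  have h3 : y * (x⁻¹) ^ s * y⁻¹ = (y * x⁻¹ * y⁻¹) ^ s := (conj_pow).symm
  have hxc : Commute x⁻¹ c := hc x⁻¹
  unfold cm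
  change x ^ s * y * (x ^ s)⁻¹ * y⁻¹ = c ^ s
  calc x ^ s * y * (x ^ s)⁻¹ * y⁻¹ = x ^ s * (y * (x⁻¹) ^ s * y⁻¹) := by
        rw [inv_pow]
        group
    _ = x ^ s * ((x⁻¹) ^ s * c ^ s) := by rw [h3, h2, hxc.mul_pow]
    _ = c ^ s := by
        rw [inv_pow, ← mul_assoc, mul_inv_cancel, one_mul]

lemma exists_inv_exp {s : ℕ} (hs : s.Coprime (Nat.card H)) : ∃ t : ℕ, ∀ x : H, (x ^ s) ^ t = x := by
  obtain ⟨t, ht⟩ : ∃ t : ℕ, s * t ≡ 1 [MOD Nat.card H] := by
    refine ⟨s ^ (Nat.totient (Nat.card H) - 1), ?_⟩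
    rw [← pow_succ', Nat.sub_add_cancel (Nat.totient_pos.2 Nat.card_pos)]
    exact Nat.ModEq.pow_totient hs
  refine ⟨t, fun x => ?_⟩
  rw [← pow_mul]
  have h1 : s * t ≡ 1 [MOD orderOf x] := ht.of_dvd (orderOf_dvd_natCard x)
  rw [pow_eq_pow_iff_modEq.2 h1, pow_one]

lemma fixed_pow {s : ℕ} (hs : s.Coprime (Nat.card H)) (x y : H) :
    fixedPoset p ({x ^ s, y} : Set H) = fixedPoset p ({x, y} : Set H) := by
  obtain ⟨t, ht⟩ := exists_inv_exp hs
  have key : ∀ Q : Subgroup H, conjSub (x ^ s) Q = Q ↔ conjSub x Q = Q := by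
    intro Q
    rw [conjSub_eq_iff, conjSub_eq_iff]
    constructor
    · intro h
      have := Subgroup.pow_mem _ h t
      rwa [ht] at this
    · intro h
      exact Subgroup.pow_mem _ h s
  ext Q
  unfold fixedPoset
  simp only [Set.mem_ofPred_eq, Set.mem_insert_iff, Set.mem_singleton_iff, forall_eq_or_imp, forall_eq]
  rw [key]

theorem AKs_pow {z : H} (hz : ∀ h : H, h * z = z * h) {s : ℕ} (hs : s.Coprime (Nat.card H)) :
    AKs p H (z ^ s) = AKs p H z := by
  obtain ⟨t, ht⟩ := exists_inv_exp hs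
  have hzs : ∀ h : H, h * z ^ s = z ^ s * h := fun h => Commute.pow_right (show Commute h z from hz h) s
  unfold AKs
  rw [← ((powCoprime hs.symm).prodCongr (Equiv.refl H)).sum_comp]
  refine Finset.sum_congr rfl fun q _ => ?_
  have h1 : ((powCoprime hs.symm).prodCongr (Equiv.refl H)) q = (q.1 ^ s, q.2) := rfl
  rw [h1]
  have h2 : W p ({q.1 ^ s, q.2} : Set H) = W p ({q.1, q.2} : Set H) := by
    rw [W_ch, W_ch, fixed_pow hs]
  change (if cm (q.1 ^ s, q.2) = z ^ s then W p ({q.1 ^ s, q.2} : Set H) else 0) = _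
  rw [h2]
  by_cases h3 : cm q = z
  · rw [if_pos h3, if_pos (cm_pow hz h3 s)]
  · rw [if_neg h3, if_neg]
    intro h4
    apply h3
    have h5 := cm_pow hzs h4 t
    rwa [ht, ht] at h5

/-- the character formula -/
lemma Nzs_char (g : ℕ) {z : H} (hz : ∀ h : H, h * z = z * h) :
    (Nat.card H : ℂ) * (Nzs (g + 1) H z : ℂ) =
      ∑ chi ∈ Irr H, chi z⁻¹ * (chi 1 * ((Nat.card H : ℂ) / chi 1) ^ (2 * (g + 1))) := by
  have key : ∀ chi : H → ℂ, IsIrrChar chi →
      ∑ q : Fin (g + 1) → H × H, chi (surfaceWord q) =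
        chi 1 * ((Nat.card H : ℂ) / chi 1) ^ (2 * (g + 1)) := by
    intro chi h
    obtain ⟨V, _, _, _, rho, hr, rfl⟩ := h
    have h1 := congrArg (LinearMap.trace ℂ V) (sum_word rho (g + 1))
    rw [comm_scalar rho hr, map_sum] at h1
    have h2 : ((((Nat.card H : ℂ) / rho.character 1) ^ 2) • (LinearMap.id : V →ₗ[ℂ] V)) ^ (g + 1) =
        (((Nat.card H : ℂ) / rho.character 1) ^ (2 * (g + 1))) • (LinearMap.id : V →ₗ[ℂ] V) := by
      rw [pow_mul]
      generalize ((Nat.card H : ℂ) / rho.character 1) ^ 2 = c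
      generalize g + 1 = k
      induction k with
      | zero => rw [pow_zero, pow_zero, one_smul]; rfl
      | succ k ih =>
        rw [pow_succ, ih]
        ext v
        simp [smul_smul, pow_succ, mul_comm]
    rw [h2, map_smul, LinearMap.trace_id, smul_eq_mul, ← rho.char_one] at h1
    rw [mul_comm]
    exact h1
  have h1 : ∑ chi ∈ Irr H, ∑ q : Fin (g + 1) → H × H, chi (surfaceWord q) * chi z⁻¹ =
      (Nat.card H : ℂ) * (Nzs (g + 1) H z : ℂ) := by
    rw [Finset.sum_comm]
    simp_rw [col_orth]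
    have h2 : ∀ q : Fin (g + 1) → H × H,
        (Nat.card {n : H // n * surfaceWord q * n⁻¹ = z} : ℂ) =
          if surfaceWord q = z then (Nat.card H : ℂ) else 0 := by
      intro q
      by_cases hq : surfaceWord q = z
      · rw [if_pos hq, hq]
        norm_cast
        refine Nat.card_congr (Equiv.subtypeUnivEquiv fun n => ?_)
        rw [hz n, mul_assoc, mul_inv_cancel, mul_one]
      · rw [if_neg hq]
        norm_cast
        rw [Nat.card_eq_zero]
        left
        constructor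
        rintro ⟨n, hn⟩
        apply hq
        calc surfaceWord q = n⁻¹ * (n * surfaceWord q * n⁻¹) * n := by group
          _ = z := by rw [hn, mul_assoc, ← hz n, ← mul_assoc, inv_mul_cancel, one_mul]
    rw [Finset.sum_congr rfl fun q _ => h2 q]
    unfold Nzs
    push_cast
    rw [Finset.mul_sum]
    refine Finset.sum_congr rfl fun q _ => ?_
    by_cases hq : surfaceWord q = z
    · rw [if_pos hq, if_pos hq, mul_one]
    · rw [if_neg hq, if_neg hq, mul_zero]
  rw [← h1]
  refine Finset.sum_congr rfl fun chi hchi => ?_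
  rw [← Finset.sum_mul, key chi (mem_Irr.mp hchi), mul_comm]

lemma P_P {s t : ℕ} (h : ∀ x : H, (x ^ s) ^ t = x) (chi : H → ℂ) : P s (P t chi) = chi := by
  funext x
  change chi ((x ^ s) ^ t) = chi x
  rw [h]

theorem Nzs_pow (g : ℕ) {z : H} (hz : ∀ h : H, h * z = z * h) {s : ℕ} (hs : s.Coprime (Nat.card H)) :
    Nzs (g + 1) H (z ^ s) = Nzs (g + 1) H z := by
  obtain ⟨t, ht⟩ := exists_inv_exp hs
  have ht' : ∀ x : H, (x ^ t) ^ s = x := by
    intro x
    rw [← pow_mul, mul_comm, pow_mul, ht]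
  have hts : t.Coprime (Nat.card H) := by
    by_contra hcon
    obtain ⟨r, hr, hrt, hrH⟩ := Nat.Prime.not_coprime_iff_dvd.1 hcon
    obtain ⟨x, hx⟩ := @exists_prime_orderOf_dvd_card' H _ _ r ⟨hr⟩ hrH
    have h1 : x ^ t = 1 := orderOf_dvd_iff_pow_eq_one.1 (hx ▸ hrt)
    have h2 := ht' x
    rw [h1, one_pow] at h2
    rw [← h2, orderOf_one] at hx
    exact hr.one_lt.ne hx
  have hzs : ∀ h : H, h * z ^ s = z ^ s * h := fun h => Commute.pow_right (show Commute h z from hz h) s
  have h0 : (Nat.card H : ℂ) ≠ 0 := by exact_mod_cast (Nat.card_pos (α := H)).ne'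
  have h1 : (Nzs (g + 1) H (z ^ s) : ℂ) = (Nzs (g + 1) H z : ℂ) := by
    apply mul_left_cancel₀ h0
    rw [Nzs_char g hzs, Nzs_char g hz]
    refine Finset.sum_bij' (fun chi _ => P s chi) (fun chi _ => P t chi) ?_ ?_ ?_ ?_ ?_
    · intro chi hchi
      exact mem_Irr.2 (irr_P (mem_Irr.1 hchi) hs)
    · intro chi hchi
      exact mem_Irr.2 (irr_P (mem_Irr.1 hchi) hts)
    · intro chi _
      exact P_P ht' chi
    · intro chi _
      exact P_P ht chi
    · intro chi _
      unfold P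
      rw [one_pow, ← inv_pow]
  exact_mod_cast h1

end

end Pool.Agent.K1H75.KR
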