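import Pool.Agent.K1H75.KR.Gal

/-!
# `p`-adic limits
-/

set_option autoImplicit false

open scoped Classical Topology
open Filter

set_option linter.unusedSectionVars false

noncomputable section

namespace Pool.Agent.K1H75.KR

open Pool.Agent.Y63.KR (IsPChain conjSub W fixedPoset surfaceWord map_surfaceWord KRC numHom surfaceCount
  card_mul_surfaceCount surfaceCount_mod unit_pow alternatingSum altSum_classes sum_numR TwPair bz bz_pos
  numFixed_eq numFixed_one)
open Pool.Agent.Y63.AWC (numDefectZero)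

variable {p : ℕ} [hp : Fact p.Prime]

/-- the exponents `p ^ N * (p - 1)`, which tend to zero `p`-adically -/
def nn (p N : ℕ) : ℕ := p ^ N * (p - 1)

lemma nn_ne (N : ℕ) : nn p N ≠ 0 := by
  have h1 : 0 < p ^ N := pow_pos hp.out.pos _
  have h2 := hp.out.two_le
  have h3 : 0 < p - 1 := by omega
  unfold nn
  positivity

lemma tendsto_of_dvd (f : ℕ → ℤ) (L : ℤ) (h : ∀ N, (p : ℤ) ^ (N + 1) ∣ f N - L) :
    Tendsto (fun N => (f N : ℚ_[p])) atTop (𝓝 (L : ℚ_[p])) := by
  rw [tendsto_iff_norm_sub_tendsto_zero]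
  have h1 : ∀ N, ‖(f N : ℚ_[p]) - (L : ℚ_[p])‖ ≤ ((p : ℝ)⁻¹) ^ N := by
    intro N
    have h2 : ((p ^ N : ℕ) : ℤ) ∣ f N - L := by
      push_cast
      exact (pow_dvd_pow _ (Nat.le_succ N)).trans (h N)
    have h3 := (Padic.norm_int_le_pow_iff_dvd (p := p) (f N - L) N).2 h2
    push_cast at h3
    rw [inv_pow, ← zpow_natCast, ← zpow_neg]
    exact h3
  have hp1 : (p : ℝ)⁻¹ < 1 := by
    apply inv_lt_one_of_one_lt₀
    exact_mod_cast hp.out.one_lt
  exact squeeze_zero (fun _ => norm_nonneg _) h1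
    (tendsto_pow_atTop_nhds_zero_of_lt_one (by positivity) hp1)

lemma tendsto_pow {m : ℕ} (hm : ¬ p ∣ m) :
    Tendsto (fun N => ((m : ℚ_[p]) ^ (2 * (nn p N + 1)))) atTop (𝓝 ((m : ℚ_[p]) ^ 2)) := by
  have h1 : ∀ N, (p : ℤ) ^ (N + 1) ∣ ((m : ℤ) ^ (2 * (nn p N + 1))) - (m : ℤ) ^ 2 := by
    intro N
    have h2 : (m ^ 2) ^ nn p N ≡ 1 [MOD p ^ (N + 1)] :=
      unit_pow (fun h => hm (hp.out.dvd_of_dvd_pow h)) (dvd_refl _)
    have h3 := (Nat.modEq_iff_dvd.1 h2.symm)
    push_cast at h3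
    have h4 : (m : ℤ) ^ (2 * (nn p N + 1)) - (m : ℤ) ^ 2 = (m : ℤ) ^ 2 * (((m : ℤ) ^ 2) ^ nn p N - 1) := by
      rw [← pow_mul]
      ring
    rw [h4]
    exact Dvd.dvd.mul_left h3 _
  have h5 := tendsto_of_dvd (p := p) _ _ h1
  push_cast at h5
  exact h5

section

variable {H : Type} [Group H] [Fintype H]

lemma Nzs_one (g : ℕ) : Nzs g H 1 = (numHom g H : ℤ) := by
  unfold Nzs numHom
  rw [Finset.sum_boole, Nat.card_eq_fintype_card, Fintype.card_subtype]

lemma Nzs_tendsto : Tendsto (fun N => (Nzs (nn p N + 1) H 1 : ℚ_[p])) atTop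
    (𝓝 ((((Nat.card H : ℤ) * (numDefectZero p H : ℤ) : ℤ)) : ℚ_[p])) := by
  apply tendsto_of_dvd
  intro N
  have h1 := surfaceCount_mod (p := p) (G := H) (N := N) (nn_ne N) (dvd_refl _)
  have h2 := card_mul_surfaceCount (G := H) (nn p N)
  rw [Nzs_one, ← h2]
  push_cast
  rw [← mul_sub]
  exact Dvd.dvd.mul_left h1 _

/-- `AKs p H 1` is `|H|` times the alternating sum of the numbers of classes -/
lemma AKs_one : AKs p H 1 = (Nat.card H : ℤ) *
    alternatingSum p H (fun K => (Nat.card (ConjClasses K) : ℤ)) := by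
  have : Fintype (TwPair 1 H) := Fintype.ofFinite _
  have e2 : (fun K : Subgroup H => (Nat.card (ConjClasses K) : ℤ)) =
      fun K : Subgroup H => (Pool.Agent.Y63.KR.numR 1 K (fun _ => True) : ℤ) := funext fun K => by
    rw [← numFixed_eq, numFixed_one]
  have h1 := sum_numR (p := p) (G := H) 1 (fun _ => True)
  rw [← e2] at h1
  rw [h1]
  unfold AKs
  rw [← Finset.sum_filter]
  symm
  simp only [bz_pos trivial, mul_one]
  refine Finset.sum_bij (fun q _ => q.1) ?_ ?_ ?_ ?_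
  · intro q _
    rw [Finset.mem_filter]
    refine ⟨Finset.mem_univ _, ?_⟩
    have h2 := q.2
    rw [pow_one, mul_inv_eq_iff_eq_mul] at h2
    unfold cm
    rw [mul_inv_eq_one, mul_inv_eq_iff_eq_mul]
    exact h2.symm
  · intro q _ r _ h
    exact Subtype.ext h
  · intro q hq
    have h2 := (Finset.mem_filter.1 hq).2
    unfold cm at h2
    rw [mul_inv_eq_one, mul_inv_eq_iff_eq_mul] at h2
    refine ⟨⟨q, ?_⟩, Finset.mem_univ _, rfl⟩
    rw [pow_one, mul_inv_eq_iff_eq_mul]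
    exact h2.symm
  · intro q _
    rfl

lemma krc_iff_AKs : KRC p H ↔ AKs p H 1 = (Nat.card H : ℤ) * (numDefectZero p H : ℤ) := by
  have h0 : (Nat.card H : ℤ) ≠ 0 := by exact_mod_cast (Nat.card_pos (α := H)).ne'
  rw [AKs_one]
  have h := altSum_classes (p := p) (G := H)
  unfold KRC
  constructor
  · intro h1
    congr 1
    rw [h1] at h
    have : ((alternatingSum p H (fun K => (Nat.card (ConjClasses K) : ℤ)) : ℤ) : ℚ) =
      ((numDefectZero p H : ℤ) : ℚ) := by
      rw [h]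
      push_cast
      ring
    exact_mod_cast this
  · intro h1
    have h2 := mul_left_cancel₀ h0 h1
    rw [h2] at h
    push_cast at h
    linarith

/-- the numbers of tuples with product `z` tend `p`-adically to the sum over the pairs -/
def Good (p : ℕ) [Fact p.Prime] (H : Type) [Group H] [Fintype H] (z : H) : Prop :=
  Tendsto (fun N => (Nzs (nn p N + 1) H z : ℚ_[p])) atTop (𝓝 (AKs p H z : ℚ_[p]))

lemma krc_iff_good : KRC p H ↔ Good p H 1 := by
  rw [krc_iff_AKs]
  unfold Good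
  constructor
  · intro h
    rw [h]
    exact Nzs_tendsto
  · intro h
    have h1 := tendsto_nhds_unique h (Nzs_tendsto (p := p) (H := H))
    exact_mod_cast h1

end

section

variable {H H' : Type} [Group H] [Group H'] [Fintype H] [Fintype H'] {f : H →* H'}

/-- the sum over the kernel, and the conjecture for the quotient -/
theorem krc_quot_iff (hs : Function.Surjective f) (hf : CentralKer p f) :
    KRC p H' ↔ Tendsto (fun N => ∑ z ∈ Finset.univ.filter (fun z => f z = 1),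
      (Nzs (nn p N + 1) H z : ℚ_[p])) atTop
      (𝓝 (∑ z ∈ Finset.univ.filter (fun z => f z = 1), (AKs p H z : ℚ_[p]))) := by
  have hm0 : ((Nat.card f.ker : ℕ) : ℚ_[p]) ≠ 0 := by
    exact_mod_cast (Nat.card_pos (α := f.ker)).ne'
  have e1 : ∀ N, ∑ z ∈ Finset.univ.filter (fun z => f z = 1), (Nzs (nn p N + 1) H z : ℚ_[p]) =
      ((Nat.card f.ker : ℕ) : ℚ_[p]) ^ (2 * (nn p N + 1)) * (Nzs (nn p N + 1) H' 1 : ℚ_[p]) := by
    intro N
    have h := congrArg (Int.cast : ℤ → ℚ_[p]) (Nzs_quot (f := f) (nn p N + 1) hs)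
    push_cast at h
    exact h
  have e2 : ∑ z ∈ Finset.univ.filter (fun z => f z = 1), (AKs p H z : ℚ_[p]) =
      ((Nat.card f.ker : ℕ) : ℚ_[p]) ^ 2 * (AKs p H' 1 : ℚ_[p]) := by
    have h := congrArg (Int.cast : ℤ → ℚ_[p]) (AKs_quot hs hf)
    push_cast at h
    exact h
  rw [e2]
  simp only [e1]
  rw [krc_iff_good]
  unfold Good
  constructor
  · intro h
    exact (tendsto_pow hf.2).mul h
  · intro h
    have h1 : Tendsto (fun N => (((Nat.card f.ker : ℕ) : ℚ_[p]) ^ (2 * (nn p N + 1)))⁻¹) atTop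
        (𝓝 (((Nat.card f.ker : ℕ) : ℚ_[p]) ^ 2)⁻¹) := (tendsto_pow hf.2).inv₀ (pow_ne_zero _ hm0)
    have h2 := h1.mul h
    rw [← mul_assoc, inv_mul_cancel₀ (pow_ne_zero _ hm0), one_mul] at h2
    refine h2.congr fun N => ?_
    rw [← mul_assoc, inv_mul_cancel₀ (pow_ne_zero _ hm0), one_mul]

end

end Pool.Agent.K1H75.KR
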