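import Pool.Agent.K1H75.KR.AbFin
import Pool.Agent.Y63.NV.Krc

/-!
# The reduction
-/

set_option autoImplicit false

open scoped Classical

set_option linter.unusedSectionVars false

noncomputable section

namespace Pool.Agent.K1H75.KR

open Pool.Agent.Y63.KR (KRC)
open Pool.Agent.Y63.NV (Closed Reduced krc_strong closed_lt pgroup_top)

/-- The groups to which the conjecture is reduced: there are no normal subgroups of index `p` and no
nontrivial normal `p`-subgroups, every abelian normal subgroup is central, the centre is cyclic, every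
nontrivial central subgroup meets the commutator subgroup nontrivially, and the group is not a central
product of two proper subgroups. -/
structure CentrallyReduced (p : ℕ) (H : Type) [Group H] : Prop where
  perfect : ∀ N : Subgroup H, N.Normal → N.index ≠ p
  radical : ∀ M : Subgroup H, M.Normal → IsPGroup p M → M = ⊥
  abelian : ∀ A : Subgroup H, A.Normal → (∀ a ∈ A, ∀ b ∈ A, a * b = b * a) → A ≤ Subgroup.center H
  cyclic : IsCyclic (Subgroup.center H)
  focal : ∀ N : Subgroup H, N ≤ Subgroup.center H → N ⊓ commutator H = ⊥ → N = ⊥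
  indec : ∀ A B : Subgroup H, (∀ a ∈ A, ∀ b ∈ B, a * b = b * a) → A ⊔ B = ⊤ → A = ⊤ ∨ B = ⊤

/-- abelian normal subgroups of a group without nontrivial normal `p`-subgroups are `p'`-groups -/
lemma not_dvd_abelian {p : ℕ} [Fact p.Prime] {H : Type} [Group H] [Finite H]
    (hr : ∀ M : Subgroup H, M.Normal → IsPGroup p M → M = ⊥) {A : Subgroup H} (hA : A.Normal)
    (hab : ∀ a ∈ A, ∀ b ∈ A, a * b = b * a) : ¬ p ∣ Nat.card A := by
  intro hd
  obtain ⟨z, hz⟩ := exists_prime_orderOf_dvd_card' p hd
  let M : Subgroup H :=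
    { carrier := {x | x ∈ A ∧ x ^ p = 1}
      one_mem' := ⟨A.one_mem, one_pow p⟩
      mul_mem' := by
        rintro a b ⟨ha, ha'⟩ ⟨hb, hb'⟩
        refine ⟨A.mul_mem ha hb, ?_⟩
        have : Commute a b := hab a ha b hb
        rw [this.mul_pow, ha', hb', one_mul]
      inv_mem' := by
        rintro a ⟨ha, ha'⟩
        refine ⟨A.inv_mem ha, ?_⟩
        rw [inv_pow, ha', inv_one] }
  have hMn : M.Normal := by
    constructor
    rintro x ⟨hx, hx'⟩ g
    refine ⟨hA.conj_mem x hx g, ?_⟩
    rw [conj_pow, hx', mul_one, mul_inv_cancel]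
  have hMp : IsPGroup p M := by
    intro x
    refine ⟨1, Subtype.ext ?_⟩
    rw [pow_one]
    exact x.2.2
  have h1 := hr M hMn hMp
  have h2 : (z : H) ∈ M := ⟨z.2, by rw [← hz]; exact congrArg Subtype.val (pow_orderOf_eq_one z)⟩
  rw [h1, Subgroup.mem_bot] at h2
  have h3 : z = 1 := Subtype.ext h2
  rw [h3, orderOf_one] at hz
  exact (Fact.out : p.Prime).ne_one hz.symm

lemma not_dvd_center {p : ℕ} [Fact p.Prime] {H : Type} [Group H] [Finite H]
    (hr : ∀ M : Subgroup H, M.Normal → IsPGroup p M → M = ⊥) : ¬ p ∣ Nat.card (Subgroup.center H) :=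
  not_dvd_abelian hr inferInstance fun _ _ _ hb => Subgroup.mem_center_iff.1 hb _

lemma card_quot_lt {H : Type} [Group H] [Finite H] {N : Subgroup H} (h : N ≠ ⊥) :
    Nat.card (H ⧸ N) < Nat.card H := by
  have e1 := Subgroup.card_eq_card_quotient_mul_card_subgroup N
  have e2 : 1 < Nat.card N := (Subgroup.one_lt_card_iff_ne_bot N).mpr h
  have e3 : 0 < Nat.card (H ⧸ N) := Nat.card_pos
  rw [e1]
  nlinarith

lemma card_lt_of_ne_top {H : Type} [Group H] [Finite H] {A : Subgroup H} (h : A ≠ ⊤) :
    Nat.card A < Nat.card H := by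
  refine lt_of_le_of_ne (Subgroup.card_le_card_group A) fun h1 => h ?_
  exact (Subgroup.card_eq_iff_eq_top A).1 h1

/-- the groups in the reduction for a noncentral abelian normal subgroup are smaller -/
lemma card_Lt_lt {H : Type} [Group H] [Finite H] {N : Subgroup H} [N.Normal] {K : Type} [Field K]
    (hnc : ¬ N ≤ Subgroup.center H) (t : N →* Kˣ) : Nat.card (Lt t) < Nat.card H := by
  have e1 := Subgroup.card_eq_card_quotient_mul_card_subgroup (kt t)
  have e2 := Subgroup.card_le_card_group (stab t)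
  have e3 : 0 < Nat.card (kt t) := Nat.card_pos
  have e5 : 0 < Nat.card (Lt t) := Nat.card_pos
  by_contra hlt
  push Not at hlt
  have e1' : Nat.card (stab t) = Nat.card (Lt t) * Nat.card (kt t) := e1
  have h1 : stab t = ⊤ := by
    refine (Subgroup.card_eq_iff_eq_top _).1 (le_antisymm e2 ?_)
    rw [e1']
    nlinarith
  have h2 : kt t = ⊥ := by
    rw [← Subgroup.card_eq_one]
    have h3 : Nat.card (stab t) = Nat.card H := (Subgroup.card_eq_iff_eq_top _).2 h1
    rw [h3] at e1'
    nlinarith
  apply hnc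
  intro n hn
  rw [Subgroup.mem_center_iff]
  intro x
  have hx : x ∈ stab t := by
    rw [h1]
    trivial
  have h3 : x * n * x⁻¹ * n⁻¹ ∈ N := N.mul_mem (conj_mem' hn x) (N.inv_mem hn)
  have h4 : ev t (x * n * x⁻¹ * n⁻¹) = 1 := by
    rw [ev_mul_right t (N.inv_mem hn), hx n hn, ev_inv t hn, mul_inv_cancel₀ (ev_ne_zero t hn)]
  have h5 : x * n * x⁻¹ * n⁻¹ ∈ stab t := by
    rw [h1]
    trivial
  have h6 : (⟨x * n * x⁻¹ * n⁻¹, h5⟩ : stab t) ∈ kt t := h4
  rw [h2, Subgroup.mem_bot] at h6
  have h7 : x * n * x⁻¹ * n⁻¹ = 1 := congrArg Subtype.val h6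
  rw [mul_inv_eq_one, mul_inv_eq_iff_eq_mul] at h7
  exact h7

/-- the induction -/
theorem main_aux (p : ℕ) [Fact p.Prime] (X : ∀ (H : Type) [Group H], Prop) (hX : Closed p X)
    (hq : ∀ (G : Type) [Group G], X G → ∀ (M : Subgroup G) [M.Normal],
      (∀ a ∈ M, ∀ b ∈ M, a * b = b * a) → ¬ p ∣ Nat.card M → X (G ⧸ M))
    (E : ∀ (H : Type) [Group H], Prop)
    (hE : ∀ n : ℕ, (∀ (L : Type) [Group L] [Finite L], X L → Nat.card L ≤ n → KRC p L) →
      ∀ (H : Type) [Group H] [Finite H], X H → Nat.card H ≤ n + 1 → CentrallyReduced p H → ¬ E H →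
        KRC p H)
    (h : ∀ (H : Type) [Group H] [Finite H], X H → CentrallyReduced p H → E H → KRC p H) :
    ∀ (n : ℕ) (H : Type) [Group H] [Finite H], X H → Nat.card H ≤ n → KRC p H := by
  intro n
  induction n with
  | zero =>
    intro H _ _ _ h0
    have := Nat.card_pos (α := H)
    omega
  | succ n ih =>
    intro Γ _ _ hΓ hn
    refine (krc_strong p _ (closed_lt p (n + 2) X hX)).1 ?_ Γ ⊤
      ⟨hX.iso _ _ hΓ ⟨Subgroup.topEquiv.symm⟩, inferInstance, by rw [Subgroup.card_top]; omega⟩
      (pgroup_top p Γ)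
    rintro H _ _ ⟨hH, _, hcard⟩ hR
    have hfin : Fintype H := Fintype.ofFinite _
    have hpZ : ¬ p ∣ Nat.card (Subgroup.center H) := not_dvd_center hR.radical
    have hquot : ∀ N : Subgroup H, ∀ _ : N.Normal, N ≤ Subgroup.center H → N ≠ ⊥ → KRC p (H ⧸ N) := by
      intro N hN hNZ hN1
      refine ih _ (hq H hH N (fun a _ b hb => Subgroup.mem_center_iff.1 (hNZ hb) a)
        fun hd => hpZ (hd.trans (Subgroup.card_dvd_of_le hNZ))) ?_
      have := card_quot_lt hN1
      omega
    by_cases hA : ∀ A : Subgroup H, A.Normal → (∀ a ∈ A, ∀ b ∈ A, a * b = b * a) →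
        A ≤ Subgroup.center H
    swap
    · push Not at hA
      obtain ⟨N, hNn, hab, hnc⟩ := hA
      have hpN : ¬ p ∣ Nat.card N := not_dvd_abelian hR.radical hNn hab
      refine krc_abelian (N := N) hab hpN fun t M hM hMZ => ?_
      refine ih _ (hq (Lt t) (hq (stab t) (hX.sub H hH _) (kt t) ?_ ?_) M ?_ ?_) ?_
      · intro a ha b hb
        exact Subtype.ext (hab a (kt_mem ha) b (kt_mem hb))
      · intro hd
        apply hpN
        refine hd.trans (Subgroup.card_dvd_of_injective
          (((stab t).subtype.comp (kt t).subtype).codRestrict N fun x => kt_mem x.2) ?_)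
        intro x y hxy
        exact Subtype.ext (Subtype.ext (congrArg (fun z : N => (z : H)) hxy))
      · intro a _ b hb
        exact Zt_central (hMZ hb) a
      · intro hd
        exact Zt_card hpN t (hd.trans (Subgroup.card_dvd_of_le hMZ))
      · have h1 := card_Lt_lt hnc t
        have h2 : Nat.card (Lt t ⧸ M) ≤ Nat.card (Lt t) :=
          Nat.card_le_card_of_surjective _ (QuotientGroup.mk'_surjective M)
        omega
    by_cases hc : IsCyclic (Subgroup.center H)
    swap
    · exact krc_noncyclic hpZ hc hquot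
    by_cases hf : ∀ N : Subgroup H, N ≤ Subgroup.center H → N ⊓ commutator H = ⊥ → N = ⊥
    swap
    · push Not at hf
      obtain ⟨N, hNZ, hNc, hN1⟩ := hf
      have hcen : ∀ z ∈ N, ∀ x : H, x * z = z * x := fun z hz x =>
        Subgroup.mem_center_iff.1 (hNZ hz) x
      have hn : N.Normal := by
        constructor
        intro w hw x
        rw [hcen w hw x, mul_assoc, mul_inv_cancel, mul_one]
        exact hw
      refine (krc_iff_quot (N := N) hcen (fun hd => hpZ (hd.trans (Subgroup.card_dvd_of_le hNZ))) ?_).1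
        (hquot N hn hNZ hN1)
      intro z hz hzc
      have : z ∈ N ⊓ commutator H := ⟨hz, hzc⟩
      rwa [hNc, Subgroup.mem_bot] at this
    by_cases hi : ∀ A B : Subgroup H, (∀ a ∈ A, ∀ b ∈ B, a * b = b * a) → A ⊔ B = ⊤ → A = ⊤ ∨ B = ⊤
    swap
    · push Not at hi
      obtain ⟨A, B, hAB, hsup, hA, hB⟩ := hi
      have hAB' : A ⊓ B ≤ Subgroup.center H := by
        intro z hz
        rw [Subgroup.mem_center_iff]
        intro x
        have hx : x ∈ Subgroup.centralizer ({z} : Set H) := by
          have h1 : A ⊔ B ≤ Subgroup.centralizer ({z} : Set H) := by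
            rw [sup_le_iff]
            constructor
            · intro a ha
              rw [Subgroup.mem_centralizer_singleton_iff]
              exact hAB a ha z hz.2
            · intro b hb
              rw [Subgroup.mem_centralizer_singleton_iff]
              exact (hAB z hz.1 b hb).symm
          rw [hsup] at h1
          exact h1 (Subgroup.mem_top x)
        rw [Subgroup.mem_centralizer_singleton_iff] at hx
        exact hx
      have hpI : ¬ p ∣ Nat.card (A ⊓ B : Subgroup H) := fun hd =>
        hpZ (hd.trans (Subgroup.card_dvd_of_le hAB'))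
      have key : ∀ D : Subgroup H, D ≠ ⊤ → A ⊓ B ≤ D → ∀ N : Subgroup D, ∀ _ : N.Normal,
          N ≤ (A ⊓ B).subgroupOf D → KRC p (D ⧸ N) := by
        intro D hD hABD N hN hNle
        have e1 : Nat.card ((A ⊓ B).subgroupOf D) = Nat.card (A ⊓ B : Subgroup H) :=
          Nat.card_congr (Subgroup.subgroupOfEquivOfLe hABD).toEquiv
        refine ih _ (hq D (hX.sub H hH D) N ?_ ?_) ?_
        · intro x _ z hz
          exact Subtype.ext (Subgroup.mem_center_iff.1 (hAB' (Subgroup.mem_subgroupOf.1 (hNle hz))) x)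
        · intro hd
          refine hpI (hd.trans ?_)
          rw [← e1]
          exact Subgroup.card_dvd_of_le hNle
        · have h1 := card_lt_of_ne_top hD
          have h2 : Nat.card (D ⧸ N) ≤ Nat.card D :=
            Nat.card_le_card_of_surjective _ (QuotientGroup.mk'_surjective N)
          omega
      exact krc_central_product A B hAB hsup hpI (key A hA inf_le_left) (key B hB inf_le_right)
    have hCR : CentrallyReduced p H := ⟨hR.perfect, hR.radical, hA, hc, hf, hi⟩
    by_cases hEH : E H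
    · exact h H hH hCR hEH
    · exact hE n ih H hH (by omega) hCR hEH

/-- **The reduction.** -/
theorem main (p : ℕ) [Fact p.Prime] (X : ∀ (H : Type) [Group H], Prop) (hX : Closed p X)
    (hq : ∀ (G : Type) [Group G], X G → ∀ (M : Subgroup G) [M.Normal],
      (∀ a ∈ M, ∀ b ∈ M, a * b = b * a) → ¬ p ∣ Nat.card M → X (G ⧸ M)) :
    (∀ (H : Type) [Group H] [Finite H], X H → CentrallyReduced p H → KRC p H) ↔
    ∀ (Γ : Type) [Group Γ] [Finite Γ] (G : Subgroup Γ) [G.Normal], X G → IsPGroup p (Γ ⧸ G) →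
      KRC p Γ := by
  constructor
  · intro h
    have key := main_aux p X hX hq (fun _ _ => True) (fun _ _ _ _ _ _ _ _ h => absurd trivial h)
      (fun H _ _ h1 h2 _ => h H h1 h2)
    exact (krc_strong p X hX).1 fun H _ _ hH _ => key (Nat.card H) H hH le_rfl
  · intro h H _ _ hH _
    exact h H ⊤ (hX.iso _ _ hH ⟨Subgroup.topEquiv.symm⟩) (pgroup_top p H)

/-- **The reduction for classes closed under products with cyclic `p'`-groups.** -/
theorem main_stem (p : ℕ) [Fact p.Prime] (X : ∀ (H : Type) [Group H], Prop) (hX : Closed p X)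
    (hq : ∀ (G : Type) [Group G], X G → ∀ (M : Subgroup G) [M.Normal],
      (∀ a ∈ M, ∀ b ∈ M, a * b = b * a) → ¬ p ∣ Nat.card M → X (G ⧸ M))
    (hcy : ∀ (G C : Type) [Group G] [CommGroup C] [Finite C], X G → IsCyclic C → ¬ p ∣ Nat.card C →
      X (G × C)) :
    (∀ (H : Type) [Group H] [Finite H], X H → CentrallyReduced p H →
      Subgroup.center H ≤ commutator H → KRC p H) ↔
    ∀ (Γ : Type) [Group Γ] [Finite Γ] (G : Subgroup Γ) [G.Normal], X G → IsPGroup p (Γ ⧸ G) →
      KRC p Γ := by
  constructor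
  · intro h
    have key := main_aux p X hX hq (fun H _ => Subgroup.center H ≤ commutator H) ?_ h
    · exact (krc_strong p X hX).1 fun H _ _ hH _ => key (Nat.card H) H hH le_rfl
    · intro n ih H _ _ hH hcard hCR hnE
      obtain ⟨C, _, hCf, hCc, hCp, G₁, K, hKn, hKc, hKp, hlt, himp⟩ :=
        exists_stem (p := p) hCR.cyclic (not_dvd_center hCR.radical) hnE
      refine himp (ih (G₁ ⧸ K) ?_ (by omega))
      exact hq G₁ (hX.sub _ (hcy H C hH hCc hCp) G₁) K
        (fun a _ b hb => Subgroup.mem_center_iff.1 (hKc hb) a) hKp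
  · intro h H _ _ hH _ _
    exact h H ⊤ (hX.iso _ _ hH ⟨Subgroup.topEquiv.symm⟩) (pgroup_top p H)

end Pool.Agent.K1H75.KR
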