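import Pool.Agent.R674.Ce.Tog

/-!
# Signed numbers of chains in products of posets
-/

set_option autoImplicit false

open scoped Classical

set_option linter.unusedSectionVars false

noncomputable section

namespace Pool.Agent.K1H75.KR

open Pool.Agent.R674.Ce (chs chs_eq chs_closure')

/-- the sign of a chain -/
def sg {α : Type} (σ : Set α) : ℤ := (-1) ^ σ.ncard

/-- the signed number of the chains in `X`, the empty chain included -/
def ch {α : Type} [PartialOrder α] (X : Set α) : ℤ := chs X sg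

lemma sg_insert {α : Type} [Finite α] {σ : Set α} {a : α} (h : a ∉ σ) : sg (insert a σ) = - sg σ := by
  unfold sg
  rw [Set.ncard_insert_of_notMem h, pow_succ]
  ring

lemma ch_imageOn {α γ : Type} [PartialOrder α] [PartialOrder γ] (e : γ → α)
    (Z : Set γ) (he : ∀ a ∈ Z, ∀ b ∈ Z, (e a ≤ e b ↔ a ≤ b)) : ch (e '' Z) = ch Z := by
  symm
  have hinj : Set.InjOn e Z := fun a ha b hb h =>
    le_antisymm ((he a ha b hb).1 h.le) ((he b hb a ha).1 h.ge)
  unfold ch chs
  refine finsum_eq_of_bijective (fun σ : {σ : Set γ // σ ⊆ Z ∧ IsChain (· ≤ ·) σ} =>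
    (⟨e '' σ.1, Set.image_mono σ.2.1, ?_⟩ : {σ : Set α // σ ⊆ e '' Z ∧ IsChain (· ≤ ·) σ})) ⟨?_, ?_⟩ ?_
  · rintro _ ⟨a, ha, rfl⟩ _ ⟨b, hb, rfl⟩ _
    rcases σ.2.2.total ha hb with h | h
    · exact Or.inl ((he a (σ.2.1 ha) b (σ.2.1 hb)).2 h)
    · exact Or.inr ((he b (σ.2.1 hb) a (σ.2.1 ha)).2 h)
  · intro σ τ h
    have h1 : e '' σ.1 = e '' τ.1 := congrArg Subtype.val h
    apply Subtype.ext
    exact (hinj.image_eq_image_iff σ.2.1 τ.2.1).1 h1
  · rintro ⟨τ, h1, h2⟩
    refine ⟨⟨Z ∩ e ⁻¹' τ, Set.inter_subset_left, ?_⟩, ?_⟩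
    · intro a ha b hb _
      rcases h2.total ha.2 hb.2 with h | h
      · exact Or.inl ((he a ha.1 b hb.1).1 h)
      · exact Or.inr ((he b hb.1 a ha.1).1 h)
    · apply Subtype.ext
      change e '' (Z ∩ e ⁻¹' τ) = τ
      ext t
      constructor
      · rintro ⟨a, ha, rfl⟩
        exact ha.2
      · intro ht
        obtain ⟨b, hb, hbt⟩ := h1 ht
        exact ⟨b, ⟨hb, by rw [Set.mem_preimage, hbt]; exact ht⟩, hbt⟩
  · intro σ
    change sg σ.1 = sg (e '' σ.1)
    unfold sg
    rw [Set.ncard_image_of_injOn (hinj.mono σ.2.1)]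

lemma ch_image {α γ : Type} [PartialOrder α] [PartialOrder γ] (e : γ ↪o α)
    (Z : Set γ) : ch (e '' Z) = ch Z :=
  ch_imageOn e Z fun _ _ _ _ => e.le_iff_le

section

variable {α : Type} [PartialOrder α] [Fintype α]

lemma exists_top {σ : Set α} (hσ : IsChain (· ≤ ·) σ) (hne : σ.Nonempty) : ∃ a ∈ σ, ∀ b ∈ σ, b ≤ a := by
  obtain ⟨a, ha⟩ := (Set.toFinite σ).exists_maximal hne
  refine ⟨a, ha.1, fun b hb => ?_⟩
  rcases hσ.total ha.1 hb with h | h
  · exact ha.2 hb h
  · exact h

/-- sorting the chains by their largest element -/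
theorem ch_rec (X : Set α) :
    ch X = 1 - ∑ a ∈ Finset.univ.filter (fun a => a ∈ X), ch (X ∩ Set.Iio a) := by
  unfold ch
  rw [chs_eq, ← Finset.sum_filter_add_sum_filter_not _ (fun σ : Set α => σ = ∅)]
  have e1 : ((Finset.univ.filter (fun σ : Set α => σ ⊆ X ∧ IsChain (· ≤ ·) σ)).filter
      (fun σ : Set α => σ = ∅)) = {∅} := by
    ext σ
    simp only [Finset.mem_filter, Finset.mem_univ, true_and, Finset.mem_singleton]
    constructor
    · rintro ⟨_, h⟩
      exact h
    · rintro rfl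
      exact ⟨⟨Set.empty_subset _, Set.Subsingleton.isChain (by simp)⟩, rfl⟩
  rw [e1, Finset.sum_singleton]
  have e2 : sg (∅ : Set α) = 1 := by
    unfold sg
    simp
  rw [e2, sub_eq_add_neg]
  congr 1
  have e3 : ∀ a : α, chs (X ∩ Set.Iio a) sg = ∑ σ ∈ Finset.univ.filter
      (fun σ : Set α => σ ⊆ X ∩ Set.Iio a ∧ IsChain (· ≤ ·) σ), sg σ := fun a => chs_eq _ _
  simp only [e3]
  rw [Finset.sum_sigma', ← Finset.sum_neg_distrib]
  symm
  refine Finset.sum_bij (fun t _ => insert t.1 t.2) ?_ ?_ ?_ ?_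
  · rintro ⟨a, σ⟩ h
    simp only [Finset.mem_sigma, Finset.mem_filter, Finset.mem_univ, true_and] at h
    simp only [Finset.mem_filter, Finset.mem_univ, true_and]
    refine ⟨⟨Set.insert_subset h.1 fun b hb => (h.2.1 hb).1, ?_⟩, (Set.insert_nonempty _ _).ne_empty⟩
    exact h.2.2.insert fun b hb _ => Or.inr (le_of_lt (h.2.1 hb).2)
  · rintro ⟨a, σ⟩ h ⟨b, τ⟩ h' hab
    simp only [Finset.mem_sigma, Finset.mem_filter, Finset.mem_univ, true_and] at h h' hab
    have hab1 : a = b := by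
      apply le_antisymm
      · have : a ∈ insert b τ := hab ▸ Set.mem_insert _ _
        rcases this with h1 | h1
        · exact h1.le
        · exact (le_of_lt (h'.2.1 h1).2)
      · have : b ∈ insert a σ := hab ▸ Set.mem_insert _ _
        rcases this with h1 | h1
        · exact h1.le
        · exact (le_of_lt (h.2.1 h1).2)
    subst hab1
    have ha : a ∉ σ := fun h1 => lt_irrefl a (h.2.1 h1).2
    have hb : a ∉ τ := fun h1 => lt_irrefl a (h'.2.1 h1).2
    have : σ = τ := by
      rw [← Set.insert_sdiff_self_of_notMem ha, hab, Set.insert_sdiff_self_of_notMem hb]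
    rw [this]
  · intro σ h
    simp only [Finset.mem_filter, Finset.mem_univ, true_and] at h
    obtain ⟨⟨h1, h2⟩, h3⟩ := h
    obtain ⟨a, ha, ha'⟩ := exists_top h2 (Set.nonempty_iff_ne_empty.2 h3)
    refine ⟨⟨a, σ \ {a}⟩, ?_, ?_⟩
    · simp only [Finset.mem_sigma, Finset.mem_filter, Finset.mem_univ, true_and]
      refine ⟨h1 ha, fun b hb => ⟨h1 hb.1, lt_of_le_of_ne (ha' b hb.1) hb.2⟩, h2.mono Set.sdiff_subset⟩
    · change insert a (σ \ {a}) = σ
      rw [Set.insert_sdiff_singleton, Set.insert_eq_of_mem ha]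
  · rintro ⟨a, σ⟩ h
    simp only [Finset.mem_sigma, Finset.mem_filter, Finset.mem_univ, true_and] at h
    exact (sg_insert fun h1 => lt_irrefl a (h.2.1 h1).2).symm

end

section

variable {α : Type} [PartialOrder α] [OrderBot α] [Fintype α]

/-- the Möbius function of `X ∪ {⊥}` -/
def mo (X : Set α) (a : α) : ℤ := if a = ⊥ then 1 else if a ∈ X then - ch (X ∩ Set.Iio a) else 0

lemma ch_eq_sum (X : Set α) (hX : ⊥ ∉ X) : ch X = ∑ a, mo X a := by
  rw [ch_rec, Finset.sum_filter, ← Finset.add_sum_erase _ (mo X) (Finset.mem_univ ⊥),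
    ← Finset.add_sum_erase _ (fun a => if a ∈ X then ch (X ∩ Set.Iio a) else 0) (Finset.mem_univ ⊥),
    if_neg hX, zero_add, sub_eq_add_neg, ← Finset.sum_neg_distrib]
  congr 1
  · unfold mo
    rw [if_pos rfl]
  · refine Finset.sum_congr rfl fun a ha => ?_
    have ha' : a ≠ ⊥ := (Finset.mem_erase.1 ha).1
    unfold mo
    rw [if_neg ha']
    split_ifs <;> simp

lemma mo_Iio (X : Set α) (a b : α) (h : b < a) : mo (X ∩ Set.Iio a) b = mo X b := by
  unfold mo
  by_cases hb : b = ⊥
  · rw [if_pos hb, if_pos hb]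
  · rw [if_neg hb, if_neg hb]
    by_cases hX : b ∈ X
    · rw [if_pos hX, if_pos ⟨hX, h⟩]
      congr 2
      ext c
      constructor
      · rintro ⟨⟨h1, _⟩, h2⟩
        exact ⟨h1, h2⟩
      · rintro ⟨h1, h2⟩
        exact ⟨⟨h1, lt_trans h2 h⟩, h2⟩
    · rw [if_neg hX, if_neg (fun h1 => hX h1.1)]

lemma mo_eq_zero (X : Set α) {a : α} (h : a ≠ ⊥) (h' : a ∉ X) : mo X a = 0 := by
  unfold mo
  rw [if_neg h, if_neg h']

lemma mo_bot (X : Set α) : mo X (⊥ : α) = 1 := by
  unfold mo
  rw [if_pos rfl]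

lemma sum_le (X : Set α) (hX : ⊥ ∉ X) {a : α} (ha : a ∈ X) :
    ∑ b ∈ Finset.univ.filter (fun b => b ≤ a), mo X b = 0 := by
  have ha0 : a ≠ ⊥ := fun h => hX (h ▸ ha)
  have h1 : ch (X ∩ Set.Iio a) = ∑ b ∈ Finset.univ.filter (fun b => b < a), mo X b := by
    rw [ch_eq_sum _ (fun h => hX h.1), Finset.sum_filter]
    refine Finset.sum_congr rfl fun b _ => ?_
    split_ifs with h
    · exact mo_Iio X a b h
    · apply mo_eq_zero
      · rintro rfl
        exact h (bot_lt_iff_ne_bot.2 ha0)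
      · exact fun h1 => h h1.2
  have h2 : Finset.univ.filter (fun b => b ≤ a) = insert a (Finset.univ.filter (fun b => b < a)) := by
    ext b
    simp only [Finset.mem_filter, Finset.mem_univ, true_and, Finset.mem_insert]
    exact le_iff_eq_or_lt
  rw [h2, Finset.sum_insert (by simp), ← h1]
  have h3 : mo X a = - ch (X ∩ Set.Iio a) := by
    unfold mo
    rw [if_neg ha0, if_pos ha]
  rw [h3]
  ring

lemma mo_rec (X : Set α) (hX : ⊥ ∉ X) {a : α} (ha : a ∈ X) :
    mo X a = - ∑ b ∈ Finset.univ.filter (fun b => b < a), mo X b := by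
  have h := sum_le X hX ha
  have h2 : Finset.univ.filter (fun b => b ≤ a) = insert a (Finset.univ.filter (fun b => b < a)) := by
    ext b
    simp only [Finset.mem_filter, Finset.mem_univ, true_and, Finset.mem_insert]
    exact le_iff_eq_or_lt
  rw [h2, Finset.sum_insert (by simp)] at h
  linarith

end

section

variable {α β : Type} [PartialOrder α] [OrderBot α] [Fintype α] [PartialOrder β] [OrderBot β] [Fintype β]

/-- the product of the posets `X ∪ {⊥}` and `Y ∪ {⊥}` without its least element -/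
def jn (X : Set α) (Y : Set β) : Set (α × β) :=
  {q | q ≠ ⊥ ∧ (q.1 = ⊥ ∨ q.1 ∈ X) ∧ (q.2 = ⊥ ∨ q.2 ∈ Y)}

lemma mo_prod (X : Set α) (hX : ⊥ ∉ X) (Y : Set β) (hY : ⊥ ∉ Y) (q : α × β) :
    mo (jn X Y) q = mo X q.1 * mo Y q.2 := by
  induction q using WellFoundedLT.induction with
  | _ q ih =>
    by_cases hq : q = ⊥
    · subst hq
      rw [mo_bot]
      change 1 = mo X (⊥ : α) * mo Y (⊥ : β)
      rw [mo_bot, mo_bot, mul_one]
    · by_cases hJ : q ∈ jn X Y
      · have hbot : (⊥ : α × β) ∉ jn X Y := fun h => h.1 rfl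
        rw [mo_rec _ hbot hJ]
        have e1 : ∑ r ∈ Finset.univ.filter (fun r : α × β => r < q), mo (jn X Y) r =
            ∑ r ∈ Finset.univ.filter (fun r : α × β => r < q), mo X r.1 * mo Y r.2 :=
          Finset.sum_congr rfl fun r hr => ih r (Finset.mem_filter.1 hr).2
        rw [e1]
        have e2 : Finset.univ.filter (fun r : α × β => r ≤ q) =
            insert q (Finset.univ.filter (fun r : α × β => r < q)) := by
          ext r
          simp only [Finset.mem_filter, Finset.mem_univ, true_and, Finset.mem_insert]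
          exact le_iff_eq_or_lt
        have e3 : ∑ r ∈ Finset.univ.filter (fun r : α × β => r ≤ q), mo X r.1 * mo Y r.2 =
            (∑ a ∈ Finset.univ.filter (fun a : α => a ≤ q.1), mo X a) *
              ∑ b ∈ Finset.univ.filter (fun b : β => b ≤ q.2), mo Y b := by
          rw [Finset.sum_mul_sum, ← Finset.sum_product']
          refine Finset.sum_congr ?_ fun _ _ => rfl
          ext r
          simp only [Finset.mem_filter, Finset.mem_univ, true_and, Finset.mem_product]
          exact Prod.le_def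
        have e4 : (∑ a ∈ Finset.univ.filter (fun a : α => a ≤ q.1), mo X a) *
              ∑ b ∈ Finset.univ.filter (fun b : β => b ≤ q.2), mo Y b = 0 := by
          rcases hJ.2.1 with h1 | h1
          · rcases hJ.2.2 with h2 | h2
            · exact absurd (Prod.ext h1 h2) hq
            · rw [sum_le Y hY h2, mul_zero]
          · rw [sum_le X hX h1, zero_mul]
        rw [e4, e2, Finset.sum_insert (by simp)] at e3
        linarith
      · rw [mo_eq_zero _ hq hJ]
        symm
        by_cases h1 : q.1 = ⊥ ∨ q.1 ∈ X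
        · have h2 : ¬ (q.2 = ⊥ ∨ q.2 ∈ Y) := fun h2 => hJ ⟨hq, h1, h2⟩
          rw [mo_eq_zero Y (fun h => h2 (Or.inl h)) (fun h => h2 (Or.inr h)), mul_zero]
        · rw [mo_eq_zero X (fun h => h1 (Or.inl h)) (fun h => h1 (Or.inr h)), zero_mul]

/-- **The signed number of chains is multiplicative.** -/
theorem ch_jn (X : Set α) (hX : ⊥ ∉ X) (Y : Set β) (hY : ⊥ ∉ Y) : ch (jn X Y) = ch X * ch Y := by
  rw [ch_eq_sum (jn X Y) (fun h => h.1 rfl), ch_eq_sum X hX, ch_eq_sum Y hY, Finset.sum_mul_sum,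
    Fintype.sum_prod_type]
  refine Finset.sum_congr rfl fun a _ => Finset.sum_congr rfl fun b _ => ?_
  exact mo_prod X hX Y hY (a, b)

end

end Pool.Agent.K1H75.KR
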