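import Pool.Agent.K1H75.KR.Poset
import Pool.Agent.Y63.KR.Chi

/-!
# Chains of `p`-subgroups in direct products
-/

set_option autoImplicit false

open scoped Classical

set_option linter.unusedSectionVars false

noncomputable section

namespace Pool.Agent.K1H75.KR

open Pool.Agent.R674.Ce (chs chs_eq chs_closure')
open Pool.Agent.Y63.KR (IsPChain conjSub W fixedPoset mem_conjSub conjSub_one)

section

variable {p : ℕ} {G : Type} [Group G] [Finite G]

lemma W_ch (K : Set G) : W p K = ch (fixedPoset p K) := by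
  have h0 : Fintype (Set (Subgroup G)) := Fintype.ofFinite _
  have h1 : Fintype {σ : Set (Subgroup G) // IsPChain p σ} := Fintype.ofFinite _
  unfold ch
  rw [chs_eq]
  unfold W
  rw [finsum_eq_sum_of_fintype]
  have e1 : ∑ σ : {σ : Set (Subgroup G) // IsPChain p σ},
      (-1 : ℤ) ^ σ.1.ncard * (if ∀ P ∈ σ.1, ∀ x ∈ K, conjSub x P = P then 1 else 0) =
      ∑ σ ∈ (Finset.univ : Finset (Set (Subgroup G))).filter (fun σ => IsPChain p σ),
        (-1 : ℤ) ^ σ.ncard * (if ∀ P ∈ σ, ∀ x ∈ K, conjSub x P = P then 1 else 0) :=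
    (Finset.sum_subtype _ (by simp) (fun σ : Set (Subgroup G) =>
      (-1 : ℤ) ^ σ.ncard * (if ∀ P ∈ σ, ∀ x ∈ K, conjSub x P = P then 1 else 0))).symm
  rw [e1, Finset.sum_filter, Finset.sum_filter]
  refine Finset.sum_congr rfl fun σ _ => ?_
  by_cases h2 : IsPChain p σ
  · rw [if_pos h2]
    by_cases h3 : ∀ P ∈ σ, ∀ x ∈ K, conjSub x P = P
    · rw [if_pos h3, mul_one, if_pos]
      · rfl
      · exact ⟨fun P hP => ⟨h2.isPGroup P hP, h2.ne_bot P hP, h3 P hP⟩, h2.chain⟩
    · rw [if_neg h3, mul_zero, if_neg]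
      rintro ⟨h4, -⟩
      exact h3 fun P hP => (h4 hP).2.2
  · rw [if_neg h2, if_neg]
    rintro ⟨h4, h5⟩
    exact h2 ⟨h5, fun P hP => (h4 hP).1, fun P hP => (h4 hP).2.1⟩

lemma conjSub_bot (x : G) : conjSub x (⊥ : Subgroup G) = ⊥ := by
  unfold conjSub
  exact Subgroup.map_bot _

lemma bot_notMem (K : Set G) : (⊥ : Subgroup G) ∉ fixedPoset p K := fun h => h.2.1 rfl

end

section

variable {p : ℕ} {A B : Type} [Group A] [Group B]

/-- the smallest product containing `P` -/
def box (P : Subgroup (A × B)) : Subgroup (A × B) :=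
  (P.map (MonoidHom.fst A B)).prod (P.map (MonoidHom.snd A B))

lemma le_box (P : Subgroup (A × B)) : P ≤ box P := by
  intro x hx
  exact Subgroup.mem_prod.2 ⟨⟨x, hx, rfl⟩, ⟨x, hx, rfl⟩⟩

lemma map_fst_prod (P : Subgroup A) (Q : Subgroup B) : (P.prod Q).map (MonoidHom.fst A B) = P := by
  ext a
  constructor
  · rintro ⟨x, hx, rfl⟩
    exact (Subgroup.mem_prod.1 hx).1
  · intro ha
    exact ⟨(a, 1), Subgroup.mem_prod.2 ⟨ha, Q.one_mem⟩, rfl⟩

lemma map_snd_prod (P : Subgroup A) (Q : Subgroup B) : (P.prod Q).map (MonoidHom.snd A B) = Q := by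
  ext a
  constructor
  · rintro ⟨x, hx, rfl⟩
    exact (Subgroup.mem_prod.1 hx).2
  · intro ha
    exact ⟨(1, a), Subgroup.mem_prod.2 ⟨P.one_mem, ha⟩, rfl⟩

lemma box_prod (P : Subgroup A) (Q : Subgroup B) : box (P.prod Q) = P.prod Q := by
  unfold box
  rw [map_fst_prod, map_snd_prod]

lemma isPGroup_prod {P : Subgroup A} {Q : Subgroup B} (hP : IsPGroup p P) (hQ : IsPGroup p Q) :
    IsPGroup p (P.prod Q) := by
  rintro ⟨⟨a, b⟩, h⟩
  obtain ⟨ha, hb⟩ := Subgroup.mem_prod.1 h
  obtain ⟨k, hk⟩ := hP ⟨a, ha⟩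
  obtain ⟨l, hl⟩ := hQ ⟨b, hb⟩
  have hk' : a ^ p ^ k = 1 := congrArg Subtype.val hk
  have hl' : b ^ p ^ l = 1 := congrArg Subtype.val hl
  refine ⟨k + l, Subtype.ext ?_⟩
  change ((a, b) : A × B) ^ p ^ (k + l) = 1
  refine Prod.ext ?_ ?_
  · change a ^ p ^ (k + l) = 1
    rw [pow_add, pow_mul, hk', one_pow]
  · change b ^ p ^ (k + l) = 1
    rw [pow_add, mul_comm, pow_mul, hl', one_pow]

lemma conjSub_prod (x : A × B) (P : Subgroup A) (Q : Subgroup B) :
    conjSub x (P.prod Q) = (conjSub x.1 P).prod (conjSub x.2 Q) := by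
  ext y
  rw [mem_conjSub, Subgroup.mem_prod, Subgroup.mem_prod, mem_conjSub, mem_conjSub]
  rfl

lemma map_fst_conjSub (x : A × B) (P : Subgroup (A × B)) :
    (conjSub x P).map (MonoidHom.fst A B) = conjSub x.1 (P.map (MonoidHom.fst A B)) := by
  unfold conjSub
  rw [Subgroup.map_map, Subgroup.map_map]
  congr 1

lemma map_snd_conjSub (x : A × B) (P : Subgroup (A × B)) :
    (conjSub x P).map (MonoidHom.snd A B) = conjSub x.2 (P.map (MonoidHom.snd A B)) := by
  unfold conjSub
  rw [Subgroup.map_map, Subgroup.map_map]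
  congr 1

lemma conjSub_box (x : A × B) (P : Subgroup (A × B)) : conjSub x (box P) = box (conjSub x P) := by
  unfold box
  rw [conjSub_prod, map_fst_conjSub, map_snd_conjSub]

lemma prod_eq_bot {P : Subgroup A} {Q : Subgroup B} (h : P.prod Q = ⊥) : P = ⊥ ∧ Q = ⊥ := by
  constructor
  · rw [← map_fst_prod P Q, h, Subgroup.map_bot]
  · rw [← map_snd_prod P Q, h, Subgroup.map_bot]

/-- products of subgroups, as an order embedding -/
def boxEmb : Subgroup A × Subgroup B ↪o Subgroup (A × B) where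
  toFun q := q.1.prod q.2
  inj' := by
    rintro ⟨P, Q⟩ ⟨P', Q'⟩ h
    have h' : P.prod Q = P'.prod Q' := h
    refine Prod.ext ?_ ?_
    · change P = P'
      rw [← map_fst_prod P Q, h', map_fst_prod]
    · change Q = Q'
      rw [← map_snd_prod P Q, h', map_snd_prod]
  map_rel_iff' := by
    rintro ⟨P, Q⟩ ⟨P', Q'⟩
    change P.prod Q ≤ P'.prod Q' ↔ P ≤ P' ∧ Q ≤ Q'
    constructor
    · intro h
      constructor
      · rw [← map_fst_prod P Q, ← map_fst_prod P' Q']
        exact Subgroup.map_mono h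
      · rw [← map_snd_prod P Q, ← map_snd_prod P' Q']
        exact Subgroup.map_mono h
    · rintro ⟨h1, h2⟩ x hx
      have h3 := Subgroup.mem_prod.1 hx
      exact Subgroup.mem_prod.2 ⟨h1 h3.1, h2 h3.2⟩

variable [Finite A] [Finite B]

lemma fixed_box (K : Set (A × B)) :
    {P | P ∈ fixedPoset p K ∧ box P = P} =
      boxEmb '' (jn (fixedPoset p (Prod.fst '' K)) (fixedPoset p (Prod.snd '' K))) := by
  ext P
  constructor
  · rintro ⟨⟨h1, h2, h3⟩, h4⟩
    refine ⟨(P.map (MonoidHom.fst A B), P.map (MonoidHom.snd A B)), ⟨?_, ?_, ?_⟩, h4⟩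
    · intro h5
      apply h2
      rw [← h4]
      unfold box
      have h6 : P.map (MonoidHom.fst A B) = ⊥ := congrArg Prod.fst h5
      have h7 : P.map (MonoidHom.snd A B) = ⊥ := congrArg Prod.snd h5
      rw [h6, h7, Subgroup.bot_prod_bot]
    · by_cases h5 : P.map (MonoidHom.fst A B) = ⊥
      · exact Or.inl h5
      · refine Or.inr ⟨h1.map _, h5, ?_⟩
        rintro _ ⟨x, hx, rfl⟩
        rw [← map_fst_conjSub, h3 x hx]
    · by_cases h5 : P.map (MonoidHom.snd A B) = ⊥
      · exact Or.inl h5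
      · refine Or.inr ⟨h1.map _, h5, ?_⟩
        rintro _ ⟨x, hx, rfl⟩
        rw [← map_snd_conjSub, h3 x hx]
  · rintro ⟨⟨P, Q⟩, ⟨h1, h2, h3⟩, rfl⟩
    change (P.prod Q) ∈ fixedPoset p K ∧ box (P.prod Q) = P.prod Q
    refine ⟨⟨?_, ?_, ?_⟩, box_prod P Q⟩
    · refine isPGroup_prod ?_ ?_
      · rcases h2 with h | h
        · change P = ⊥ at h
          rw [h]
          exact IsPGroup.of_bot
        · exact h.1
      · rcases h3 with h | h
        · change Q = ⊥ at h
          rw [h]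
          exact IsPGroup.of_bot
        · exact h.1
    · intro h
      obtain ⟨h4, h5⟩ := prod_eq_bot h
      exact h1 (Prod.ext h4 h5)
    · intro x hx
      rw [conjSub_prod]
      congr 1
      · rcases h2 with h | h
        · change P = ⊥ at h
          rw [h]
          exact conjSub_bot _
        · exact h.2.2 _ ⟨x, hx, rfl⟩
      · rcases h3 with h | h
        · change Q = ⊥ at h
          rw [h]
          exact conjSub_bot _
        · exact h.2.2 _ ⟨x, hx, rfl⟩

/-- **The reduced Euler characteristic of the poset of `p`-subgroups of a direct product.** -/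
theorem W_prod (K : Set (A × B)) :
    W p K = W p (Prod.fst '' K) * W p (Prod.snd '' K) := by
  have : Fintype (Subgroup A) := Fintype.ofFinite _
  have : Fintype (Subgroup B) := Fintype.ofFinite _
  rw [W_ch, W_ch, W_ch, ← ch_jn _ (bot_notMem _) _ (bot_notMem _), ← ch_image boxEmb, ← fixed_box]
  unfold ch
  refine chs_closure' _ box ?_ ?_ ?_ ?_ sg ?_
  · rintro P ⟨h1, h2, h3⟩
    refine ⟨isPGroup_prod (h1.map _) (h1.map _), ?_, ?_⟩
    · intro h
      exact h2 (le_bot_iff.1 (h ▸ le_box P))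
    · intro x hx
      rw [conjSub_box, h3 x hx]
  · intro P _
    exact box_prod _ _
  · intro P _ Q _ h
    have h1 : ((P.map (MonoidHom.fst A B), P.map (MonoidHom.snd A B)) : Subgroup A × Subgroup B) ≤
        (Q.map (MonoidHom.fst A B), Q.map (MonoidHom.snd A B)) :=
      ⟨Subgroup.map_mono h, Subgroup.map_mono h⟩
    exact boxEmb.monotone h1
  · intro P _
    exact le_box P
  · intro σ _ _ a _ h
    exact sg_insert h

end

end Pool.Agent.K1H75.KR
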