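import Pool.Agent.K1H75.KR.Prod

/-!
# Chains of `p`-subgroups in quotients by central `p'`-subgroups
-/

set_option autoImplicit false

open scoped Classical

set_option linter.unusedSectionVars false

noncomputable section

namespace Pool.Agent.K1H75.KR

open Pool.Agent.Y63.KR (IsPChain conjSub W fixedPoset mem_conjSub conjSub_one surfaceWord map_surfaceWord)

/-- The kernel of `f` is central and its order is prime to `p`. -/
def CentralKer (p : ℕ) {H H' : Type} [Group H] [Group H'] (f : H →* H') : Prop :=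
  (∀ z ∈ f.ker, ∀ x : H, x * z = z * x) ∧ ¬ p ∣ Nat.card f.ker

section

variable {p : ℕ} [Fact p.Prime] {H H' : Type} [Group H] [Group H'] [Finite H] [Finite H'] {f : H →* H'}

lemma le_of_map_le (hf : CentralKer p f) {P Q : Subgroup H} (hP : IsPGroup p P) (hQ : IsPGroup p Q)
    (h : P.map f ≤ Q.map f) : P ≤ Q := by
  intro x hx
  obtain ⟨y, hy, hyx⟩ := h ⟨x, hx, rfl⟩
  obtain ⟨k, hk⟩ := hP ⟨x, hx⟩
  obtain ⟨l, hl⟩ := hQ ⟨y, hy⟩
  have hk' : x ^ p ^ k = 1 := congrArg Subtype.val hk
  have hl' : y ^ p ^ l = 1 := congrArg Subtype.val hl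
  have hz : y⁻¹ * x ∈ f.ker := by
    rw [MonoidHom.mem_ker, map_mul, map_inv, hyx, inv_mul_cancel]
  have hc : Commute y (y⁻¹ * x) := hf.1 _ hz y
  have hx' : x = y * (y⁻¹ * x) := by group
  have h1 : (y⁻¹ * x) ^ p ^ (k + l) = 1 := by
    have h2 : x ^ p ^ (k + l) = 1 := by rw [pow_add, pow_mul, hk', one_pow]
    have h3 : y ^ p ^ (k + l) = 1 := by rw [pow_add, mul_comm, pow_mul, hl', one_pow]
    rw [hx', hc.mul_pow, h3, one_mul] at h2
    exact h2
  have h2 : orderOf (y⁻¹ * x) = 1 := by
    have h3 : orderOf (y⁻¹ * x) ∣ p ^ (k + l) := orderOf_dvd_of_pow_eq_one h1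
    have h4 : orderOf (y⁻¹ * x) ∣ Nat.card f.ker := by
      have := orderOf_dvd_natCard (⟨y⁻¹ * x, hz⟩ : f.ker)
      rwa [Subgroup.orderOf_mk] at this
    have h5 : Nat.Coprime (p ^ (k + l)) (Nat.card f.ker) :=
      Nat.Coprime.pow_left _ ((Nat.Prime.coprime_iff_not_dvd Fact.out).2 hf.2)
    exact Nat.eq_one_of_dvd_coprimes h5 h3 h4
  rw [orderOf_eq_one_iff] at h2
  rw [hx', h2, mul_one]
  exact hy

lemma exists_lift (hs : Function.Surjective f) {P' : Subgroup H'} (hP : IsPGroup p P') :
    ∃ P : Subgroup H, IsPGroup p P ∧ P.map f = P' := by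
  let E : Subgroup H := P'.comap f
  let g : E →* P' := (f.comp E.subtype).codRestrict P' fun x => x.2
  have hg : Function.Surjective g := by
    rintro ⟨y, hy⟩
    obtain ⟨x, rfl⟩ := hs y
    exact ⟨⟨x, hy⟩, rfl⟩
  obtain ⟨S⟩ : Nonempty (Sylow p E) := inferInstance
  have htop : IsPGroup p (⊤ : Subgroup P') := hP.of_equiv Subgroup.topEquiv.symm
  have h1 : (⊤ : Subgroup P') = (S.mapSurjective hg : Subgroup P') :=
    (S.mapSurjective hg).is_maximal' htop le_top
  refine ⟨(S : Subgroup E).map E.subtype, S.isPGroup'.map _, ?_⟩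
  rw [Sylow.coe_mapSurjective] at h1
  ext y
  constructor
  · rintro ⟨_, ⟨x, _, rfl⟩, rfl⟩
    exact x.2
  · intro hy
    have h2 : (⟨y, hy⟩ : P') ∈ (⊤ : Subgroup P') := Subgroup.mem_top _
    rw [h1] at h2
    obtain ⟨x, hx, hxy⟩ := h2
    exact ⟨x, ⟨x, hx, rfl⟩, congrArg Subtype.val hxy⟩

lemma map_conjSub (x : H) (P : Subgroup H) : (conjSub x P).map f = conjSub (f x) (P.map f) := by
  unfold conjSub
  rw [Subgroup.map_map, Subgroup.map_map]
  congr 1
  ext y
  simp

lemma conjSub_iff (hf : CentralKer p f) {P : Subgroup H} (hP : IsPGroup p P) (x : H) :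
    conjSub (f x) (P.map f) = P.map f ↔ conjSub x P = P := by
  rw [← map_conjSub]
  constructor
  · intro h
    have hP' : IsPGroup p (conjSub x P) := hP.map _
    exact le_antisymm (le_of_map_le hf hP' hP h.le) (le_of_map_le hf hP hP' h.ge)
  · intro h
    rw [h]

theorem W_map (hs : Function.Surjective f) (hf : CentralKer p f) (K : Set H) :
    W p (f '' K) = W p K := by
  rw [W_ch, W_ch]
  have h1 : fixedPoset p (f '' K) = (fun P : Subgroup H => P.map f) '' fixedPoset p K := by
    ext P'
    constructor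
    · rintro ⟨h1, h2, h3⟩
      obtain ⟨P, hP, rfl⟩ := exists_lift hs h1
      refine ⟨P, ⟨hP, ?_, ?_⟩, rfl⟩
      · rintro rfl
        exact h2 (Subgroup.map_bot _)
      · intro x hx
        exact (conjSub_iff hf hP x).1 (h3 _ ⟨x, hx, rfl⟩)
    · rintro ⟨P, ⟨h1, h2, h3⟩, rfl⟩
      refine ⟨h1.map _, ?_, ?_⟩
      · intro h
        apply h2
        have h4 : P.map f ≤ (⊥ : Subgroup H).map f := by
          rw [show P.map f = ⊥ from h]
          exact bot_le
        exact le_bot_iff.1 (le_of_map_le hf h1 IsPGroup.of_bot h4)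
      · rintro _ ⟨x, hx, rfl⟩
        exact (conjSub_iff hf h1 x).2 (h3 x hx)
  rw [h1]
  refine ch_imageOn _ _ ?_
  intro P hP Q hQ
  constructor
  · intro h
    exact le_of_map_le hf hP.1 hQ.1 h
  · intro h
    exact Subgroup.map_mono h

end

/-! ### Sums over pairs and tuples -/

/-- the commutator of a pair -/
def cm {H : Type} [Group H] (q : H × H) : H := q.1 * q.2 * q.1⁻¹ * q.2⁻¹

/-- The sum of the numbers `-χ̃` of the posets of the nontrivial `p`-subgroups normalised by `x` and `y`,
over the pairs with commutator `z`. -/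
def AKs (p : ℕ) (H : Type) [Group H] [Fintype H] (z : H) : ℤ :=
  ∑ q : H × H, if cm q = z then W p ({q.1, q.2} : Set H) else 0

/-- the number of the `2g`-tuples with `∏ [a_i, b_i] = z` -/
def Nzs (g : ℕ) (H : Type) [Group H] [Fintype H] (z : H) : ℤ :=
  ∑ q : Fin g → H × H, if surfaceWord q = z then 1 else 0

section

variable {T T' : Type} [Group T] [Group T'] [Fintype T] [Fintype T']

/-- summation over the fibres of a surjective homomorphism -/
lemma sum_fib (F : T →* T') (hF : Function.Surjective F) (φ : T' → ℤ) :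
    ∑ t, φ (F t) = (Nat.card F.ker : ℤ) * ∑ t', φ t' := by
  rw [← Finset.sum_fiberwise Finset.univ F, Finset.mul_sum]
  refine Finset.sum_congr rfl fun t' _ => ?_
  have h1 : ∀ t ∈ Finset.univ.filter (fun t => F t = t'), φ (F t) = φ t' := by
    intro t ht
    rw [(Finset.mem_filter.1 ht).2]
  rw [Finset.sum_congr rfl h1, Finset.sum_const, nsmul_eq_mul]
  congr 1
  norm_cast
  obtain ⟨t₀, rfl⟩ := hF t'
  rw [← Fintype.card_subtype, ← Nat.card_eq_fintype_card]
  refine Nat.card_congr
    { toFun := fun t => ⟨t₀⁻¹ * t.1, ?_⟩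
      invFun := fun k => ⟨t₀ * k.1, ?_⟩
      left_inv := fun t => Subtype.ext (by simp)
      right_inv := fun k => Subtype.ext (by simp) }
  · rw [MonoidHom.mem_ker, map_mul, map_inv, t.2, inv_mul_cancel]
  · have h2 : F k.1 = 1 := k.2
    rw [map_mul, h2, mul_one]

end

section

variable {p : ℕ} [Fact p.Prime] {H H' : Type} [Group H] [Group H'] [Fintype H] [Fintype H'] {f : H →* H'}

lemma cm_map (q : H × H) : cm ((f q.1, f q.2) : H' × H') = f (cm q) := by
  unfold cm
  simp

/-- the sum over the kernel -/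
theorem AKs_quot (hs : Function.Surjective f) (hf : CentralKer p f) :
    ∑ z ∈ Finset.univ.filter (fun z => f z = 1), AKs p H z = (Nat.card f.ker : ℤ) ^ 2 * AKs p H' 1 := by
  unfold AKs
  rw [Finset.sum_comm]
  have h1 : ∀ q : H × H, ∑ z ∈ Finset.univ.filter (fun z => f z = 1),
      (if cm q = z then W p ({q.1, q.2} : Set H) else 0) =
      (fun r : H' × H' => if cm r = 1 then W p ({r.1, r.2} : Set H') else 0) ((f.prodMap f) q) := by
    intro q
    rw [Finset.sum_filter]
    have h2 : ∀ z : H, (if f z = 1 then (if cm q = z then W p ({q.1, q.2} : Set H) else 0) else 0) =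
        if cm q = z then (if f (cm q) = 1 then W p ({q.1, q.2} : Set H) else 0) else 0 := by
      intro z
      by_cases h : cm q = z
      · subst h
        simp
      · simp [h]
    rw [Finset.sum_congr rfl fun z _ => h2 z, Finset.sum_ite_eq, if_pos (Finset.mem_univ _)]
    change _ = if cm ((f q.1, f q.2) : H' × H') = 1 then W p ({f q.1, f q.2} : Set H') else 0
    rw [cm_map, ← Set.image_pair, W_map hs hf]
  rw [Finset.sum_congr rfl fun q _ => h1 q]
  refine (sum_fib (f.prodMap f) ?_ (fun r : H' × H' => if cm r = 1 then W p ({r.1, r.2} : Set H') else 0)).trans ?_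
  · exact hs.prodMap hs
  · congr 1
    have h3 : Nat.card (f.prodMap f).ker = Nat.card f.ker * Nat.card f.ker := by
      rw [← Nat.card_prod]
      refine Nat.card_congr
        { toFun := fun t => (⟨t.1.1, ?_⟩, ⟨t.1.2, ?_⟩)
          invFun := fun t => ⟨(t.1.1, t.2.1), ?_⟩
          left_inv := fun t => rfl
          right_inv := fun t => rfl }
      · exact congrArg Prod.fst (t.2 : (f.prodMap f) t.1 = 1)
      · exact congrArg Prod.snd (t.2 : (f.prodMap f) t.1 = 1)
      · exact Prod.ext t.1.2 t.2.2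
    rw [h3]
    push_cast
    ring

theorem Nzs_quot (g : ℕ) (hs : Function.Surjective f) :
    ∑ z ∈ Finset.univ.filter (fun z => f z = 1), Nzs g H z =
      (Nat.card f.ker : ℤ) ^ (2 * g) * Nzs g H' 1 := by
  unfold Nzs
  rw [Finset.sum_comm]
  let F : (Fin g → H × H) →* (Fin g → H' × H') :=
    { toFun := fun q i => (f (q i).1, f (q i).2)
      map_one' := by
        funext i
        simp
      map_mul' := fun q r => by
        funext i
        simp }
  have hF : Function.Surjective F := by
    intro r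
    choose a ha using fun i => hs (r i).1
    choose b hb using fun i => hs (r i).2
    exact ⟨fun i => (a i, b i), funext fun i => Prod.ext (ha i) (hb i)⟩
  have h1 : ∀ q : Fin g → H × H, ∑ z ∈ Finset.univ.filter (fun z => f z = 1),
      (if surfaceWord q = z then (1 : ℤ) else 0) =
      (fun r : Fin g → H' × H' => if surfaceWord r = 1 then (1 : ℤ) else 0) (F q) := by
    intro q
    rw [Finset.sum_filter]
    have h2 : ∀ z : H, (if f z = 1 then (if surfaceWord q = z then (1 : ℤ) else 0) else 0) =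
        if surfaceWord q = z then (if f (surfaceWord q) = 1 then (1 : ℤ) else 0) else 0 := by
      intro z
      by_cases h : surfaceWord q = z
      · subst h
        simp
      · simp [h]
    rw [Finset.sum_congr rfl fun z _ => h2 z, Finset.sum_ite_eq, if_pos (Finset.mem_univ _),
      map_surfaceWord]
    rfl
  rw [Finset.sum_congr rfl fun q _ => h1 q]
  refine (sum_fib F hF (fun r : Fin g → H' × H' => if surfaceWord r = 1 then (1 : ℤ) else 0)).trans ?_
  congr 1
  have h3 : Nat.card F.ker = Nat.card (Fin g → f.ker × f.ker) := by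
    refine Nat.card_congr
      { toFun := fun t i => (⟨(t.1 i).1, ?_⟩, ⟨(t.1 i).2, ?_⟩)
        invFun := fun t => ⟨fun i => ((t i).1.1, (t i).2.1), ?_⟩
        left_inv := fun t => rfl
        right_inv := fun t => rfl }
    · exact congrArg Prod.fst (congrFun (t.2 : F t.1 = 1) i)
    · exact congrArg Prod.snd (congrFun (t.2 : F t.1 = 1) i)
    · change F _ = 1
      funext i
      exact Prod.ext (t i).1.2 (t i).2.2
  rw [h3, Nat.card_fun, Nat.card_prod, Nat.card_eq_fintype_card (α := Fin g), Fintype.card_fin]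
  push_cast
  rw [pow_mul]
  ring

end

section

variable {p : ℕ} [Fact p.Prime] {A B : Type} [Group A] [Group B] [Fintype A] [Fintype B]

theorem AKs_prod (z : A) (w : B) : AKs p (A × B) (z, w) = AKs p A z * AKs p B w := by
  unfold AKs
  rw [Finset.sum_mul_sum, ← Fintype.sum_prod_type', ← (Equiv.prodProdProdComm A A B B).sum_comp]
  refine Finset.sum_congr rfl fun q _ => ?_
  have h1 : cm ((Equiv.prodProdProdComm A A B B) q) = (cm q.1, cm q.2) := rfl
  have h2 : W p ({((Equiv.prodProdProdComm A A B B) q).1, ((Equiv.prodProdProdComm A A B B) q).2} :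
      Set (A × B)) = W p ({q.1.1, q.1.2} : Set A) * W p ({q.2.1, q.2.2} : Set B) := by
    change W p ({(q.1.1, q.2.1), (q.1.2, q.2.2)} : Set (A × B)) = _
    rw [W_prod, Set.image_pair, Set.image_pair]
  rw [h1, h2]
  by_cases h3 : cm q.1 = z
  · by_cases h4 : cm q.2 = w
    · rw [if_pos (Prod.ext h3 h4), if_pos h3, if_pos h4]
    · rw [if_neg (fun h => h4 (congrArg Prod.snd h)), if_neg h4, mul_zero]
  · rw [if_neg (fun h => h3 (congrArg Prod.fst h)), if_neg h3, zero_mul]

theorem Nzs_prod (g : ℕ) (z : A) (w : B) : Nzs g (A × B) (z, w) = Nzs g A z * Nzs g B w := by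
  unfold Nzs
  rw [Finset.sum_mul_sum, ← Fintype.sum_prod_type']
  let e : (Fin g → (A × B) × (A × B)) ≃ (Fin g → A × A) × (Fin g → B × B) :=
    { toFun := fun q => (fun i => ((q i).1.1, (q i).2.1), fun i => ((q i).1.2, (q i).2.2))
      invFun := fun r i => (((r.1 i).1, (r.2 i).1), ((r.1 i).2, (r.2 i).2))
      left_inv := fun q => rfl
      right_inv := fun r => rfl }
  rw [← e.symm.sum_comp]
  refine Finset.sum_congr rfl fun q _ => ?_
  have h1 : surfaceWord (e.symm q) = (surfaceWord q.1, surfaceWord q.2) := by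
    refine Prod.ext ?_ ?_
    · exact map_surfaceWord (MonoidHom.fst A B) (e.symm q)
    · exact map_surfaceWord (MonoidHom.snd A B) (e.symm q)
  rw [h1]
  by_cases h3 : surfaceWord q.1 = z
  · by_cases h4 : surfaceWord q.2 = w
    · rw [if_pos (Prod.ext h3 h4), if_pos h3, if_pos h4, mul_one]
    · rw [if_neg (fun h => h4 (congrArg Prod.snd h)), if_neg h4, mul_zero]
  · rw [if_neg (fun h => h3 (congrArg Prod.fst h)), if_neg h3, zero_mul]

end

end Pool.Agent.K1H75.KR
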