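import Pool.Agent.K1H75.KR.Lim

/-!
# Central products and groups with noncyclic centre
-/

set_option autoImplicit false

open scoped Classical Topology
open Filter

set_option linter.unusedSectionVars false

noncomputable section

namespace Pool.Agent.K1H75.KR

open Pool.Agent.Y63.KR (KRC)

variable {p : ℕ} [hp : Fact p.Prime]

section cyclic

variable {H : Type} [Group H] [Fintype H]

/-- generators of the same cyclic group are powers with exponent prime to the order of the group -/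
lemma exists_gen_exp {z w : H} (hw : w ∈ Subgroup.zpowers z) (ho : orderOf w = orderOf z) :
    ∃ s : ℕ, s.Coprime (Nat.card H) ∧ w = z ^ s := by
  have hd : orderOf z ∣ Nat.card H := orderOf_dvd_natCard z
  have hpos : 0 < orderOf z := orderOf_pos z
  obtain ⟨k, hk⟩ : ∃ k : ℕ, z ^ k = w := mem_powers_iff_mem_zpowers.2 hw
  have hc : k.Coprime (orderOf z) := by
    rw [← hk, orderOf_pow, Nat.div_eq_self] at ho
    rcases ho with h | h
    · exact absurd h hpos.ne'
    · rw [Nat.coprime_comm]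
      exact h
  have : NeZero (Nat.card H) := ⟨Nat.card_pos.ne'⟩
  obtain ⟨v, hv⟩ := ZMod.unitsMap_surjective hd (ZMod.unitOfCoprime k hc)
  refine ⟨(v : ZMod (Nat.card H)).val, ZMod.val_coe_unit_coprime v, ?_⟩
  rw [← hk, pow_eq_pow_iff_modEq, ← ZMod.natCast_eq_natCast_iff, ZMod.natCast_val]
  have h1 := congrArg Units.val hv
  rw [ZMod.coe_unitOfCoprime] at h1
  rw [← h1]
  rfl

lemma centralKer_mk {N : Subgroup H} [N.Normal] (hN : ∀ z ∈ N, ∀ x : H, x * z = z * x)
    (h : ¬ p ∣ Nat.card N) : CentralKer p (QuotientGroup.mk' N) := by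
  unfold CentralKer
  rw [QuotientGroup.ker_mk']
  exact ⟨hN, h⟩

/-- **Central values.** If the conjecture holds for the quotients by the subgroups of the central
`p'`-subgroup `Z`, the numbers of tuples with product `z ∈ Z` have the right limits. -/
theorem good_of_quot (Z : Subgroup H) (hZ : ∀ z ∈ Z, ∀ x : H, x * z = z * x) (hpZ : ¬ p ∣ Nat.card Z)
    (h : ∀ N : Subgroup H, ∀ _ : N.Normal, N ≤ Z → KRC p (H ⧸ N)) :
    ∀ n : ℕ, ∀ z ∈ Z, orderOf z ≤ n → Good p H z := by
  intro n
  induction n with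
  | zero =>
    intro z _ h0
    exact absurd (orderOf_pos z) (by omega)
  | succ n ih =>
    intro z hz hn
    have hNZ : Subgroup.zpowers z ≤ Z := (Subgroup.zpowers_le).2 hz
    have hNc : ∀ w ∈ Subgroup.zpowers z, ∀ x : H, x * w = w * x := fun w hw => hZ w (hNZ hw)
    have hNn : (Subgroup.zpowers z).Normal := by
      constructor
      intro w hw x
      rw [hNc w hw x, mul_assoc, mul_inv_cancel, mul_one]
      exact hw
    have hpN : ¬ p ∣ Nat.card (Subgroup.zpowers z) := fun hd =>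
      hpZ (hd.trans (Subgroup.card_dvd_of_le hNZ))
    have : Fintype (H ⧸ Subgroup.zpowers z) := Fintype.ofFinite _
    have h1 := (krc_quot_iff (QuotientGroup.mk'_surjective (Subgroup.zpowers z))
      (centralKer_mk (p := p) hNc hpN)).1 (h _ hNn hNZ)
    have hmem : ∀ w : H, (QuotientGroup.mk' (Subgroup.zpowers z)) w = 1 ↔ w ∈ Subgroup.zpowers z :=
      fun w => QuotientGroup.eq_one_iff w
    set F : Finset H := Finset.univ.filter (fun w => (QuotientGroup.mk' (Subgroup.zpowers z)) w = 1)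
      with hF
    have hsplit : ∀ φ : H → ℚ_[p], ∑ w ∈ F, φ w = ∑ w ∈ F.filter (fun w => orderOf w = orderOf z), φ w +
        ∑ w ∈ F.filter (fun w => ¬ orderOf w = orderOf z), φ w := fun φ =>
      (Finset.sum_filter_add_sum_filter_not F (fun w => orderOf w = orderOf z) φ).symm
    have hgen : ∀ w ∈ F.filter (fun w => orderOf w = orderOf z),
        (∀ N, Nzs (nn p N + 1) H w = Nzs (nn p N + 1) H z) ∧ AKs p H w = AKs p H z := by
      intro w hw
      rw [Finset.mem_filter, hF, Finset.mem_filter] at hw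
      obtain ⟨s, hs, rfl⟩ := exists_gen_exp ((hmem w).1 hw.1.2) hw.2
      exact ⟨fun N => Nzs_pow _ (hZ z hz) hs, AKs_pow (hZ z hz) hs⟩
    have e1 : ∀ N, ∑ w ∈ F.filter (fun w => orderOf w = orderOf z), (Nzs (nn p N + 1) H w : ℚ_[p]) =
        ((F.filter (fun w => orderOf w = orderOf z)).card : ℚ_[p]) * (Nzs (nn p N + 1) H z : ℚ_[p]) := by
      intro N
      rw [Finset.sum_congr rfl fun w hw => by rw [(hgen w hw).1 N], Finset.sum_const, nsmul_eq_mul]
    have e2 : ∑ w ∈ F.filter (fun w => orderOf w = orderOf z), (AKs p H w : ℚ_[p]) =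
        ((F.filter (fun w => orderOf w = orderOf z)).card : ℚ_[p]) * (AKs p H z : ℚ_[p]) := by
      rw [Finset.sum_congr rfl fun w hw => by rw [(hgen w hw).2], Finset.sum_const, nsmul_eq_mul]
    have h2 : Tendsto (fun N => ∑ w ∈ F.filter (fun w => ¬ orderOf w = orderOf z),
        (Nzs (nn p N + 1) H w : ℚ_[p])) atTop
        (𝓝 (∑ w ∈ F.filter (fun w => ¬ orderOf w = orderOf z), (AKs p H w : ℚ_[p]))) := by
      refine tendsto_finsetSum _ fun w hw => ?_
      rw [Finset.mem_filter, hF, Finset.mem_filter] at hw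
      have hw1 := (hmem w).1 hw.1.2
      have hd : orderOf w ∣ orderOf z := orderOf_dvd_of_mem_zpowers hw1
      have hlt : orderOf w < orderOf z := lt_of_le_of_ne (Nat.le_of_dvd (orderOf_pos z) hd) hw.2
      exact ih w (hNZ hw1) (by omega)
    have h1' : Tendsto (fun N => ∑ w ∈ F, (Nzs (nn p N + 1) H w : ℚ_[p])) atTop
        (𝓝 (∑ w ∈ F, (AKs p H w : ℚ_[p]))) := by
      rw [hF]
      convert h1
    have h3 := h1'.sub h2
    have e3 := hsplit (fun w => (AKs p H w : ℚ_[p]))
    have e4 : ∀ N, _ = _ := fun N => hsplit (fun w => (Nzs (nn p N + 1) H w : ℚ_[p]))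
    rw [e2] at e3
    have h4 : Tendsto (fun N => ((F.filter (fun w => orderOf w = orderOf z)).card : ℚ_[p]) *
        (Nzs (nn p N + 1) H z : ℚ_[p])) atTop (𝓝 (((F.filter (fun w => orderOf w = orderOf z)).card : ℚ_[p]) *
        (AKs p H z : ℚ_[p]))) := by
      have e5 : ((F.filter (fun w => orderOf w = orderOf z)).card : ℚ_[p]) * (AKs p H z : ℚ_[p]) =
          ∑ w ∈ F, (AKs p H w : ℚ_[p]) -
            ∑ w ∈ F.filter (fun w => ¬ orderOf w = orderOf z), (AKs p H w : ℚ_[p]) := by
        rw [e3, add_sub_cancel_right]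
      rw [e5]
      refine h3.congr fun N => ?_
      have e6 := e4 N
      rw [e1 N] at e6
      change ∑ w ∈ F, (Nzs (nn p N + 1) H w : ℚ_[p]) -
          ∑ w ∈ F.filter (fun w => ¬ orderOf w = orderOf z), (Nzs (nn p N + 1) H w : ℚ_[p]) = _
      rw [e6, add_sub_cancel_right]
    have hc : ((F.filter (fun w => orderOf w = orderOf z)).card : ℚ_[p]) ≠ 0 := by
      have : z ∈ F.filter (fun w => orderOf w = orderOf z) := by
        rw [Finset.mem_filter, hF, Finset.mem_filter]
        exact ⟨⟨Finset.mem_univ _, (hmem z).2 (Subgroup.mem_zpowers z)⟩, rfl⟩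
      exact_mod_cast (Finset.card_pos.2 ⟨z, this⟩).ne'
    have h5 := h4.const_mul ((F.filter (fun w => orderOf w = orderOf z)).card : ℚ_[p])⁻¹
    rw [← mul_assoc, inv_mul_cancel₀ hc, one_mul] at h5
    refine h5.congr fun N => ?_
    rw [← mul_assoc, inv_mul_cancel₀ hc, one_mul]

end cyclic

section product

variable {G : Type} [Group G] [Fintype G]

/-- **Central products.** -/
theorem krc_central_product (A B : Subgroup G) (hc : ∀ a ∈ A, ∀ b ∈ B, a * b = b * a)
    (hs : A ⊔ B = ⊤) (hpZ : ¬ p ∣ Nat.card (A ⊓ B : Subgroup G))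
    (hA : ∀ N : Subgroup A, ∀ _ : N.Normal, N ≤ (A ⊓ B).subgroupOf A → KRC p (A ⧸ N))
    (hB : ∀ N : Subgroup B, ∀ _ : N.Normal, N ≤ (A ⊓ B).subgroupOf B → KRC p (B ⧸ N)) :
    KRC p G := by
  have : Fintype A := Fintype.ofFinite _
  have : Fintype B := Fintype.ofFinite _
  let f : A × B →* G := MonoidHom.noncommCoprod A.subtype B.subtype
    fun a b => (hc a a.2 b b.2 : Commute (A.subtype a) (B.subtype b))
  have hf : ∀ q : A × B, f q = (q.1 : G) * (q.2 : G) := fun q => rfl
  have hsurj : Function.Surjective f := by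
    rw [← MonoidHom.range_eq_top]
    have h1 : f.range = A.subtype.range ⊔ B.subtype.range := MonoidHom.noncommCoprod_range _ _ _
    rw [h1, Subgroup.range_subtype, Subgroup.range_subtype, hs]
  -- the elements of `A ⊓ B` are central
  have hcen : ∀ z ∈ A ⊓ B, ∀ x : G, x * z = z * x := by
    intro z hz x
    obtain ⟨⟨a, b⟩, rfl⟩ := hsurj x
    rw [hf]
    have h1 : (a : G) * z = z * a := hc a a.2 z hz.2
    have h2 : (b : G) * z = z * b := (hc z hz.1 b b.2).symm
    change (a : G) * b * z = z * (a * b)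
    rw [mul_assoc, h2, ← mul_assoc, h1, mul_assoc]
  have hker : ∀ q : A × B, f q = 1 → (q.1 : G) ∈ A ⊓ B ∧ (q.2 : G) ∈ A ⊓ B := by
    intro q hq
    rw [hf] at hq
    have h1 : (q.1 : G) = (q.2 : G)⁻¹ := eq_inv_of_mul_eq_one_left hq
    have h2 : (q.2 : G) = (q.1 : G)⁻¹ := eq_inv_of_mul_eq_one_right hq
    refine ⟨⟨q.1.2, ?_⟩, ⟨?_, q.2.2⟩⟩
    · rw [h1]
      exact B.inv_mem q.2.2
    · rw [h2]
      exact A.inv_mem q.1.2
  have hcard : Nat.card f.ker = Nat.card (A ⊓ B : Subgroup G) := by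
    refine Nat.card_congr
      { toFun := fun q => ⟨q.1.1, (hker q.1 q.2).1⟩
        invFun := fun z => ⟨(⟨z.1, z.2.1⟩, ⟨(z.1)⁻¹, B.inv_mem z.2.2⟩), ?_⟩
        left_inv := fun q => ?_
        right_inv := fun z => rfl }
    · rw [MonoidHom.mem_ker, hf]
      exact mul_inv_cancel z.1
    · apply Subtype.ext
      refine Prod.ext rfl (Subtype.ext ?_)
      have h1 := q.2
      rw [MonoidHom.mem_ker, hf] at h1
      exact (eq_inv_of_mul_eq_one_right h1).symm
  have hCK : CentralKer p f := by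
    refine ⟨?_, by rw [hcard]; exact hpZ⟩
    rintro q hq x
    obtain ⟨h1, h2⟩ := hker q hq
    refine Prod.ext (Subtype.ext ?_) (Subtype.ext ?_)
    · exact hcen _ h1 x.1
    · exact hcen _ h2 x.2
  rw [krc_quot_iff hsurj hCK]
  refine tendsto_finsetSum _ fun q hq => ?_
  have hq1 := hker q (Finset.mem_filter.1 hq).2
  have hdA : Nat.card ((A ⊓ B).subgroupOf A) = Nat.card (A ⊓ B : Subgroup G) :=
    Nat.card_congr (Subgroup.subgroupOfEquivOfLe inf_le_left).toEquiv
  have hdB : Nat.card ((A ⊓ B).subgroupOf B) = Nat.card (A ⊓ B : Subgroup G) :=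
    Nat.card_congr (Subgroup.subgroupOfEquivOfLe inf_le_right).toEquiv
  have hgA : Good p A q.1 := by
    refine good_of_quot ((A ⊓ B).subgroupOf A) ?_ (by rw [hdA]; exact hpZ) hA (orderOf q.1) q.1 ?_ le_rfl
    · intro z hz x
      exact Subtype.ext (hcen z (Subgroup.mem_subgroupOf.1 hz) x)
    · exact Subgroup.mem_subgroupOf.2 hq1.1
  have hgB : Good p B q.2 := by
    refine good_of_quot ((A ⊓ B).subgroupOf B) ?_ (by rw [hdB]; exact hpZ) hB (orderOf q.2) q.2 ?_ le_rfl
    · intro z hz x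
      exact Subtype.ext (hcen z (Subgroup.mem_subgroupOf.1 hz) x)
    · exact Subgroup.mem_subgroupOf.2 hq1.2
  have h1 := hgA.mul hgB
  have e1 : (AKs p (A × B) q : ℚ_[p]) = (AKs p A q.1 : ℚ_[p]) * (AKs p B q.2 : ℚ_[p]) := by
    rw [← Int.cast_mul, ← AKs_prod]
  rw [e1]
  refine h1.congr fun N => ?_
  rw [← Int.cast_mul, ← Nzs_prod]

end product

end Pool.Agent.K1H75.KR
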