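import Pool.Agent.K1H75.KR.Cen

/-!
# Central extensions with the centre inside the commutator subgroup
-/

set_option autoImplicit false

open scoped Classical Topology
open Filter

set_option linter.unusedSectionVars false

noncomputable section

namespace Pool.Agent.K1H75.KR

open Pool.Agent.Y63.KR (KRC)

variable {p : ℕ} [hp : Fact p.Prime]

/-- **Surjections with a central kernel of order prime to `p` which meets the commutator subgroup
trivially.** -/
theorem krc_iff_surj {H H' : Type} [Group H] [Finite H] [Group H'] [Finite H'] {f : H →* H'}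
    (hs : Function.Surjective f) (hf : CentralKer p f)
    (hd : ∀ z, f z = 1 → z ∈ commutator H → z = 1) : KRC p H' ↔ KRC p H := by
  have : Fintype H := Fintype.ofFinite _
  have : Fintype H' := Fintype.ofFinite _
  rw [krc_quot_dd hs hf, krc_iff_dd]
  have e : (fun k => ∑ z ∈ Finset.univ.filter (fun z => f z = 1), dd p H z k) = dd p H 1 := by
    funext k
    rw [Finset.sum_eq_single (1 : H)]
    · intro z hz hz1
      exact dd_eq_zero (fun hc => hz1 (hd z (Finset.mem_filter.1 hz).2 hc)) k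
    · intro h1
      refine absurd ?_ h1
      rw [Finset.mem_filter]
      exact ⟨Finset.mem_univ _, map_one f⟩
  rw [e]

/-- a finite cyclic group has a faithful character -/
lemma exists_faithful {Z : Type} [Group Z] [Finite Z] (hc : IsCyclic Z) :
    ∃ l : Z →* ℂˣ, Function.Injective l := by
  have hn : NeZero (Nat.card Z) := ⟨Nat.card_pos.ne'⟩
  have h1 : Nat.card Z = Nat.card (rootsOfUnity (Nat.card Z) ℂ) :=
    (HasEnoughRootsOfUnity.natCard_rootsOfUnity ℂ (Nat.card Z)).symm
  let e : Z ≃* rootsOfUnity (Nat.card Z) ℂ := mulEquivOfCyclicCardEq h1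
  exact ⟨(rootsOfUnity (Nat.card Z) ℂ).subtype.comp e.toMonoidHom,
    Subtype.val_injective.comp e.injective⟩

/-- **The stem reduction.** -/
theorem exists_stem {H : Type} [Group H] [Finite H] (hc : IsCyclic (Subgroup.center H))
    (hpZ : ¬ p ∣ Nat.card (Subgroup.center H)) (hn : ¬ Subgroup.center H ≤ commutator H) :
    ∃ (C : Type) (_ : CommGroup C), Finite C ∧ IsCyclic C ∧ ¬ p ∣ Nat.card C ∧
      ∃ (G₁ : Subgroup (H × C)) (K : Subgroup G₁) (_ : K.Normal), K ≤ Subgroup.center G₁ ∧
        ¬ p ∣ Nat.card K ∧ Nat.card (G₁ ⧸ K) < Nat.card H ∧ (KRC p (G₁ ⧸ K) → KRC p H) := by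
  set Z := Subgroup.center H with hZ
  obtain ⟨l, hl⟩ := exists_faithful hc
  -- the order of `Z ∩ H'`
  obtain ⟨n, hndef⟩ : ∃ n, n = Nat.card (Z ⊓ commutator H : Subgroup H) := ⟨_, rfl⟩
  have hn0 : 0 < n := by
    rw [hndef]
    exact Nat.card_pos
  have hnm : n < Nat.card Z := by
    rw [hndef]
    refine lt_of_le_of_ne (Subgroup.card_le_of_le inf_le_left) fun h => hn ?_
    have h1 : Z ⊓ commutator H = Z := Subgroup.eq_of_le_of_card_ge inf_le_left h.ge
    exact inf_eq_left.1 h1
  have hpn : ¬ p ∣ n := by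
    intro h
    apply hpZ
    rw [hndef] at h
    exact h.trans (Subgroup.card_dvd_of_le inf_le_left)
  -- the character `l ^ n` of `Z / (Z ∩ H')`
  let q : Z →* (Abelianization.of.comp Z.subtype : Z →* Abelianization H).range :=
    (Abelianization.of.comp Z.subtype : Z →* Abelianization H).rangeRestrict
  have hq : Function.Surjective q := MonoidHom.rangeRestrict_surjective _
  have hker : q.ker ≤ (l ^ n).ker := by
    intro z hz
    have hz1 : Abelianization.of (z : H) = 1 := congrArg Subtype.val (hz : q z = 1)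
    have hz2 : (z : H) ∈ commutator H := by
      rw [← Abelianization.ker_of H]
      exact hz1
    have hz3 : (z : H) ^ n = 1 := by
      have := pow_card_eq_one' (x := (⟨z, z.2, hz2⟩ : (Z ⊓ commutator H : Subgroup H)))
      rw [hndef]
      exact congrArg Subtype.val this
    have hz4 : z ^ n = 1 := Subtype.ext hz3
    change (l z) ^ n = 1
    rw [← map_pow, hz4, map_one]
  let mu := q.liftOfSurjective hq ⟨l ^ n, hker⟩
  have hmu : ∀ z : Z, mu (q z) = (l z) ^ n := fun z =>
    MonoidHom.liftOfRightInverse_comp_apply q _ _ ⟨l ^ n, hker⟩ z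
  obtain ⟨theta, htheta⟩ := MonoidHom.domRestrict_surjective (M := ℂ)
    (Abelianization.of.comp Z.subtype : Z →* Abelianization H).range mu
  have hth : ∀ z : Z, theta (Abelianization.of (z : H)) = (l z) ^ n := by
    intro z
    rw [← hmu z, ← htheta]
    rfl
  -- the `p'`-part
  obtain ⟨a, M, hM, hcard⟩ := Nat.exists_eq_pow_mul_and_not_dvd (n := Nat.card H) Nat.card_pos.ne' p
    hp.out.ne_one
  obtain ⟨c, hcdef⟩ : ∃ c, c = (p ^ a) ^ (Nat.totient (Nat.card Z)) := ⟨_, rfl⟩
  have hM0 : 0 < M := by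
    rcases Nat.eq_zero_or_pos M with h | h
    · exact absurd (h ▸ dvd_zero p) hM
    · exact h
  have hc1 : c ≡ 1 [MOD Nat.card Z] := by
    rw [hcdef]
    exact Nat.ModEq.pow_totient (Nat.Coprime.pow_left _ ((Nat.Prime.coprime_iff_not_dvd hp.out).2 hpZ))
  have hc2 : p ^ a ∣ c := by
    rw [hcdef]
    exact dvd_pow_self _ (Nat.totient_pos.2 Nat.card_pos).ne'
  have hlc : ∀ z : Z, (l z) ^ c = l z := by
    intro z
    rw [← map_pow]
    congr 1
    have h1 : z ^ c = z ^ 1 :=
      pow_eq_pow_iff_modEq.2 (hc1.of_dvd (orderOf_dvd_natCard z))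
    rw [h1, pow_one]
  let psi : H →* ℂˣ := (theta.comp Abelianization.of) ^ c
  have hpsi : ∀ z : Z, psi (z : H) = (l z) ^ n := by
    intro z
    change (theta (Abelianization.of (z : H))) ^ c = _
    rw [hth, ← pow_mul, mul_comm, pow_mul, hlc]
  have hpsiM : ∀ g : H, (psi g) ^ M = 1 := by
    intro g
    obtain ⟨d, hd⟩ := hc2
    change ((theta (Abelianization.of g)) ^ c) ^ M = 1
    have h1 : c * M = Nat.card H * d := by
      rw [hd, hcard]
      ring
    rw [← pow_mul, h1, pow_mul, ← map_pow theta (Abelianization.of g) (Nat.card H),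
      ← map_pow Abelianization.of g (Nat.card H), pow_card_eq_one', map_one, map_one, one_pow]
  have hnM : NeZero (n * M) := ⟨(Nat.mul_pos hn0 hM0).ne'⟩
  have hnN : NeZero n := ⟨hn0.ne'⟩
  let C := rootsOfUnity (n * M) ℂ
  have hCcard : Nat.card C = n * M := HasEnoughRootsOfUnity.natCard_rootsOfUnity ℂ (n * M)
  have hpC : ¬ p ∣ Nat.card C := by
    rw [hCcard]
    intro h
    rcases (Nat.Prime.dvd_mul hp.out).1 h with h | h
    · exact hpn h
    · exact hM h
  have hCcyc : IsCyclic C := inferInstance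
  have hCfin : Finite C := inferInstance
  refine ⟨C, inferInstance, hCfin, hCcyc, hpC, ?_⟩
  let G₁ : Subgroup (H × C) :=
    { carrier := {t | (t.2 : ℂˣ) ^ n = psi t.1}
      one_mem' := by
        change ((1 : C) : ℂˣ) ^ n = psi 1
        rw [map_one, OneMemClass.coe_one, one_pow]
      mul_mem' := by
        intro s t hs ht
        have hs' : (s.2 : ℂˣ) ^ n = psi s.1 := hs
        have ht' : (t.2 : ℂˣ) ^ n = psi t.1 := ht
        change ((s.2 * t.2 : C) : ℂˣ) ^ n = psi (s.1 * t.1)
        rw [map_mul, ← hs', ← ht', Subgroup.coe_mul, mul_pow]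
      inv_mem' := by
        intro s hs
        have hs' : (s.2 : ℂˣ) ^ n = psi s.1 := hs
        change ((s.2⁻¹ : C) : ℂˣ) ^ n = psi (s.1⁻¹)
        rw [map_inv, ← hs', Subgroup.coe_inv, inv_pow] }
  have hG₁ : ∀ t : H × C, t ∈ G₁ ↔ (t.2 : ℂˣ) ^ n = psi t.1 := fun t => Iff.rfl
  let f₁ : G₁ →* H := (MonoidHom.fst H C).comp G₁.subtype
  let s₁ : G₁ →* C := (MonoidHom.snd H C).comp G₁.subtype
  have hf₁ : Function.Surjective f₁ := by
    intro g
    obtain ⟨t, ht⟩ := IsAlgClosed.exists_pow_nat_eq ((psi g : ℂˣ) : ℂ) hn0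
    have ht0 : t ≠ 0 := by
      rintro rfl
      rw [zero_pow hn0.ne'] at ht
      exact (psi g).ne_zero ht.symm
    have ht1 : (Units.mk0 t ht0) ^ n = psi g := by
      ext
      rw [Units.val_pow_eq_pow_val, Units.val_mk0, ht]
    have ht2 : Units.mk0 t ht0 ∈ rootsOfUnity (n * M) ℂ := by
      rw [mem_rootsOfUnity, pow_mul, ht1, hpsiM]
    exact ⟨⟨(g, ⟨Units.mk0 t ht0, ht2⟩), ht1⟩, rfl⟩
  have hs₁ : ∀ t : G₁, t ∈ commutator G₁ → s₁ t = 1 := by
    intro t ht
    exact Abelianization.commutator_subset_ker s₁ ht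
  -- the kernel of the first projection
  have hk1 : ∀ t : G₁, f₁ t = 1 → s₁ t = 1 → t = 1 := by
    intro t h1 h2
    exact Subtype.ext (Prod.ext h1 h2)
  have hcen₁ : ∀ t : G₁, (∀ g : H, g * f₁ t = f₁ t * g) → ∀ x : G₁, x * t = t * x := by
    intro t ht x
    refine Subtype.ext (Prod.ext ?_ ?_)
    · exact ht (f₁ x)
    · exact mul_comm _ _
  have hkinj : Function.Injective (s₁.comp f₁.ker.subtype) := by
    rw [injective_iff_map_eq_one]
    intro t ht
    exact Subtype.ext (hk1 t t.2 ht)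
  have hCK₁ : CentralKer p f₁ := by
    refine ⟨?_, fun h => hpC (h.trans (Subgroup.card_dvd_of_injective _ hkinj))⟩
    intro t ht
    refine hcen₁ t fun g => ?_
    rw [show f₁ t = 1 from ht, mul_one, one_mul]
  have hkcard : Nat.card f₁.ker ≤ n := by
    have h1 : ∀ t : f₁.ker, ((s₁ t.1 : C) : ℂˣ) ∈ rootsOfUnity n ℂ := by
      intro t
      rw [mem_rootsOfUnity]
      have h2 := (hG₁ t.1.1).1 t.1.2
      have h3 : t.1.1.1 = 1 := t.2
      rw [h3, map_one] at h2
      exact h2
    have h2 : Nat.card f₁.ker ≤ Nat.card (rootsOfUnity n ℂ) := by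
      refine Nat.card_le_card_of_injective (fun t => (⟨((s₁ t.1 : C) : ℂˣ), h1 t⟩ : rootsOfUnity n ℂ)) ?_
      intro t u htu
      refine hkinj (Subtype.ext ?_)
      exact congrArg (fun w : rootsOfUnity n ℂ => (w : ℂˣ)) htu
    rwa [HasEnoughRootsOfUnity.natCard_rootsOfUnity ℂ n] at h2
  -- the second central subgroup
  have hlC : ∀ z : Z, l z ∈ rootsOfUnity (n * M) ℂ := by
    intro z
    rw [mem_rootsOfUnity, pow_mul, ← hpsi z, hpsiM]
  let ka : Z →* G₁ := (Z.subtype.prod (l.codRestrict (rootsOfUnity (n * M) ℂ) hlC)).codRestrict G₁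
    fun z => (hpsi z).symm
  have hka1 : ∀ z : Z, f₁ (ka z) = (z : H) := fun z => rfl
  have hka2 : ∀ z : Z, ((s₁ (ka z) : C) : ℂˣ) = l z := fun z => rfl
  have hkacen : ∀ z : Z, ∀ x : G₁, x * ka z = ka z * x := by
    intro z
    refine hcen₁ _ fun g => ?_
    rw [hka1]
    exact Subgroup.mem_center_iff.1 z.2 g
  have hkainj : Function.Injective ka := by
    intro z w h
    have := congrArg f₁ h
    rw [hka1, hka1] at this
    exact Subtype.ext this
  have hKn : ka.range.Normal := by
    constructor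
    rintro _ ⟨z, rfl⟩ x
    rw [hkacen z x, mul_assoc, mul_inv_cancel, mul_one]
    exact ⟨z, rfl⟩
  have hKcard : Nat.card ka.range = Nat.card Z :=
    (Nat.card_congr (MonoidHom.ofInjective hkainj).toEquiv).symm
  refine ⟨G₁, ka.range, hKn, ?_, by rw [hKcard]; exact hpZ, ?_, ?_⟩
  · rintro _ ⟨z, rfl⟩
    rw [Subgroup.mem_center_iff]
    exact hkacen z
  · have e1 := Subgroup.card_eq_card_quotient_mul_card_subgroup ka.range
    have e2 := Subgroup.card_eq_card_quotient_mul_card_subgroup f₁.ker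
    have e3 : Nat.card (G₁ ⧸ f₁.ker) = Nat.card H :=
      Nat.card_congr (QuotientGroup.quotientKerEquivOfSurjective f₁ hf₁).toEquiv
    rw [hKcard] at e1
    rw [e3] at e2
    by_contra hlt
    push Not at hlt
    have h1 : Nat.card H * Nat.card Z ≤ Nat.card G₁ := by
      rw [e1]
      exact Nat.mul_le_mul_right _ hlt
    have h2 : Nat.card G₁ ≤ Nat.card H * n := by
      rw [e2]
      exact Nat.mul_le_mul_left _ hkcard
    have h3 : Nat.card H * n < Nat.card H * Nat.card Z :=
      Nat.mul_lt_mul_of_pos_left hnm Nat.card_pos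
    omega
  · intro h
    have hfin : Fintype G₁ := Fintype.ofFinite _
    have h1 : KRC p G₁ := by
      refine (krc_iff_surj (p := p) (QuotientGroup.mk'_surjective ka.range) ?_ ?_).1 h
      · refine centralKer_mk ?_ (by rw [hKcard]; exact hpZ)
        rintro _ ⟨z, rfl⟩
        exact hkacen z
      · intro t ht htc
        have h2 : t ∈ ka.range := (QuotientGroup.eq_one_iff t).1 ht
        obtain ⟨z, rfl⟩ := h2
        have h3 := congrArg (fun w : C => (w : ℂˣ)) (hs₁ _ htc)
        have h4 : l z = 1 := h3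
        have h5 : z = 1 := hl (by rw [h4, map_one])
        rw [h5, map_one]
    exact (krc_iff_surj (p := p) hf₁ hCK₁ fun t h1 h2 => hk1 t h1 (hs₁ t h2)).2 h1

end Pool.Agent.K1H75.KR
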